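import Pool.Agent.Lib.MP_bfa8dc_co.CEul

-- part Pool.Agent.Lib.MP_bfa8dc_co.GSpan
section

/-! Separated atoms that are as numerous as the rank difference are all atoms. -/

set_option autoImplicit false

namespace KHPoly

open Finset

namespace GSpan

theorem key {V : Type} [AddCommGroup V] [Module ℝ V] (U W : Submodule ℝ V)
    [FiniteDimensional ℝ W] (hUW : U ≤ W) {Y : Type} [Fintype Y] [DecidableEq Y]
    (l : Y → V →ₗ[ℝ] ℝ) (e : Y → V) (he : ∀ a, e a ∈ W) (hd : ∀ a, l a (e a) ≠ 0)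
    (ho : ∀ a b, b ≠ a → l a (e b) = 0) (hU : ∀ a, ∀ u ∈ U, l a u = 0) :
    Fintype.card Y + Module.finrank ℝ U ≤ Module.finrank ℝ W ∧
      (Module.finrank ℝ W ≤ Fintype.card Y + Module.finrank ℝ U →
        ∀ w ∈ W, (∀ a, l a w = 0) → w ∈ U) := by
  let Φ : W →ₗ[ℝ] (Y → ℝ) := LinearMap.pi (fun a => (l a).comp W.subtype)
  have hΦ : ∀ (w : W) (a : Y), Φ w a = l a (w : V) := fun w a => rfl
  have hsurj : LinearMap.range Φ = ⊤ := by
    rw [LinearMap.range_eq_top]
    intro c
    refine ⟨∑ b, (c b / l b (e b)) • (⟨e b, he b⟩ : W), ?_⟩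
    funext a
    rw [hΦ]
    simp only [AddSubmonoidClass.coe_finsetSum, SetLike.val_smul, map_sum, map_smul, smul_eq_mul]
    rw [Finset.sum_eq_single a]
    · exact div_mul_cancel₀ _ (hd a)
    · intro b _ hb
      rw [ho a b hb, mul_zero]
    · intro h; exact absurd (Finset.mem_univ a) h
  have hrk := LinearMap.finrank_range_add_finrank_ker Φ
  rw [hsurj, finrank_top, Module.finrank_fintype_fun_eq_card] at hrk
  have hle : U.comap W.subtype ≤ LinearMap.ker Φ := by
    intro w hw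
    rw [LinearMap.mem_ker]
    funext a
    rw [hΦ]
    exact hU a _ hw
  have hcom : Module.finrank ℝ (U.comap W.subtype) = Module.finrank ℝ U :=
    (Submodule.comapSubtypeEquivOfLe hUW).finrank_eq
  have hmono := Submodule.finrank_mono hle
  refine ⟨by omega, fun h w hw h0 => ?_⟩
  have heq : U.comap W.subtype = LinearMap.ker Φ :=
    Submodule.eq_of_le_of_finrank_le hle (by omega)
  have : (⟨w, hw⟩ : W) ∈ LinearMap.ker Φ := by
    rw [LinearMap.mem_ker]
    funext a
    rw [hΦ]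
    exact h0 a
  rw [← heq] at this
  exact this

theorem kill {I V : Type} [AddCommGroup V] [Module ℝ V] (v : I → V) (x : Finset I)
    (l : V →ₗ[ℝ] ℝ) (h : ∀ i ∈ x, l (v i) = 0) :
    ∀ u ∈ Submodule.span ℝ (v '' (x : Set I)), l u = 0 := by
  intro u hu
  have : Submodule.span ℝ (v '' (x : Set I)) ≤ LinearMap.ker l := by
    rw [Submodule.span_le]
    rintro _ ⟨i, hi, rfl⟩
    exact h i hi
  exact this hu

end GSpan

theorem geoSpanS : GeoSpanS := by
  intro I V _ _ _ _ v hmono x y Y hxy hY hcard hsep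
  classical
  have hch : ∀ a : Y, ∃ (l : V →ₗ[ℝ] ℝ) (i : I), (∀ j, 0 ≤ l (v j)) ∧ i ∈ a.1.1 ∧ l (v i) ≠ 0 ∧
      (∀ j ∈ x.1, l (v j) = 0) ∧ ∀ b : Y, b ≠ a → ∀ j ∈ b.1.1, l (v j) = 0 := by
    intro a
    obtain ⟨c, hxc, _, hac, hb⟩ := hsep a.1 a.2
    obtain ⟨l, h0, h1⟩ := c.2
    rw [Face.le_def, Finset.not_subset] at hac
    obtain ⟨i, hi, hic⟩ := hac
    refine ⟨l, i, h0, hi, fun h => hic ((h1 i).2 h), fun j hj => (h1 j).1 (hxc hj), ?_⟩
    intro b hba j hj
    exact (h1 j).1 (hb b.1 b.2 (fun h => hba (Subtype.ext h)) hj)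
  choose l ia hl0 hia hd hx ho using hch
  have hay : ∀ a : Y, a.1 ≤ y := fun a => (mem_lev.1 (hY a.2)).2.1
  have hxa : ∀ a : Y, x ≤ a.1 := fun a => (mem_lev.1 (hY a.2)).1
  have hra : ∀ a : Y, rk v a.1 = rk v x + 1 := fun a => (mem_lev.1 (hY a.2)).2.2
  have hW : ∀ i ∈ y.1, v i ∈ Submodule.span ℝ (v '' (y.1 : Set I)) :=
    fun i hi => Submodule.subset_span ⟨i, hi, rfl⟩
  have : FiniteDimensional ℝ (Submodule.span ℝ (v '' (y.1 : Set I))) :=
    FiniteDimensional.span_of_finite ℝ ((Finset.finite_toSet y.1).image v)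
  have hUW : Submodule.span ℝ (v '' (x.1 : Set I)) ≤ Submodule.span ℝ (v '' (y.1 : Set I)) :=
    Submodule.span_mono (Set.image_mono (fun i hi => hxy hi))
  obtain ⟨k1, k2⟩ := GSpan.key _ _ hUW l (fun a => v (ia a))
    (fun a => hW _ (hay a (hia a))) hd (fun a b hb => ho a b hb _ (hia b))
    (fun a => GSpan.kill v x.1 (l a) (hx a))
  rw [Fintype.card_coe] at k1 k2
  have k3 := k2 hcard
  have hsub : lev (rk v) x y (rk v x + 1) ⊆ Y := by
    intro z hz
    obtain ⟨hxz, hzy, hrz⟩ := mem_lev.1 hz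
    have hne : ¬ z ≤ x := by
      intro h
      have : z = x := le_antisymm h hxz
      rw [this] at hrz
      omega
    rw [Face.le_def, Finset.not_subset] at hne
    obtain ⟨i, hiz, hix⟩ := hne
    set c : Y → ℝ := fun a => l a (v i) / l a (v (ia a)) with hc
    have hc0 : ∀ a, 0 ≤ c a := fun a => div_nonneg (hl0 a _) (hl0 a _)
    have hu : v i - ∑ a, c a • v (ia a) ∈ Submodule.span ℝ (v '' (x.1 : Set I)) := by
      apply k3
      · exact Submodule.sub_mem _ (hW i (hzy hiz))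
          (Submodule.sum_mem _ (fun a _ => Submodule.smul_mem _ _ (hW _ (hay a (hia a)))))
      · intro a
        rw [map_sub, map_sum, Finset.sum_eq_single a]
        · rw [map_smul, smul_eq_mul, hc]
          simp only
          rw [div_mul_cancel₀ _ (hd a), sub_self]
        · intro b _ hb
          rw [map_smul, ho a b hb _ (hia b), smul_zero]
        · intro h; exact absurd (Finset.mem_univ a) h
    obtain ⟨lx, x0, x1⟩ := x.2
    obtain ⟨lz, z0, z1⟩ := z.2
    have e1 := GSpan.kill v x.1 lx (fun j hj => (x1 j).1 hj) _ hu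
    have e2 := GSpan.kill v x.1 lz (fun j hj => (z1 j).1 (hxz hj)) _ hu
    have hex : ∃ a, c a ≠ 0 := by
      by_contra hcon
      push Not at hcon
      simp only [hcon, zero_smul, Finset.sum_const_zero, sub_zero] at e1
      exact hix ((x1 i).2 e1)
    obtain ⟨a, hca⟩ := hex
    rw [map_sub, (z1 i).1 hiz, zero_sub, neg_eq_zero, map_sum] at e2
    have e3 := (Finset.sum_eq_zero_iff_of_nonneg (fun b _ => by
      rw [map_smul, smul_eq_mul]; exact mul_nonneg (hc0 b) (z0 _))).1 e2 a (Finset.mem_univ a)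
    rw [map_smul, smul_eq_mul] at e3
    have e4 : ia a ∈ z.1 := (z1 _).2 ((mul_eq_zero.1 e3).resolve_left hca)
    have hlt : x < z ⊓ a.1 := by
      refine lt_of_le_of_ne (le_inf hxz (hxa a)) (fun h => ?_)
      have : ia a ∈ (z ⊓ a.1).1 := by
        rw [Face.inf_val]; exact Finset.mem_inter.2 ⟨e4, hia a⟩
      rw [← h] at this
      exact hd a (hx a _ this)
    have r1 := hmono _ _ hlt
    have q1 : z ⊓ a.1 = z := by
      by_contra h
      have := hmono _ _ (lt_of_le_of_ne inf_le_left h)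
      omega
    have q2 : z ⊓ a.1 = a.1 := by
      by_contra h
      have := hmono _ _ (lt_of_le_of_ne inf_le_right h)
      have := hra a
      omega
    rw [← q1, q2]
    exact a.2
  have := Finset.card_le_card hsub
  unfold Simp
  have k1' : Y.card + rk v x ≤ rk v y := k1
  omega

end KHPoly
end

-- part Pool.Agent.Lib.MP_bfa8dc_co.GPoly
section

/-! Exposed faces of a polytope versus faces of the cone over its vertices. -/

set_option autoImplicit false

namespace KHPoly

namespace GPoly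

open Module

variable {E : Type} [NormedAddCommGroup E] [NormedSpace ℝ E] [FiniteDimensional ℝ E]

/-- the lifted vertices -/
def vv (s : Finset E) : {x // x ∈ s} → ℝ × E := fun x => (1, x.1)

/-- the points of a set of indices -/
def pts {s : Finset E} (Z : Finset {x // x ∈ s}) : Set E := Subtype.val '' (Z : Set {x // x ∈ s})

omit [NormedAddCommGroup E] [NormedSpace ℝ E] [FiniteDimensional ℝ E] in
theorem pts_subset {s : Finset E} (Z : Finset {x // x ∈ s}) : pts Z ⊆ (s : Set E) := by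
  rintro _ ⟨x, -, rfl⟩
  exact x.2

omit [NormedAddCommGroup E] [NormedSpace ℝ E] [FiniteDimensional ℝ E] in
theorem mem_pts {s : Finset E} {Z : Finset {x // x ∈ s}} {x : {x // x ∈ s}} :
    x.1 ∈ pts Z ↔ x ∈ Z := by
  constructor
  · rintro ⟨y, hy, h⟩
    rw [← Subtype.ext h]
    exact hy
  · intro h
    exact ⟨x, h, rfl⟩

omit [FiniteDimensional ℝ E] in
theorem exists_min [DecidableEq E] : ∀ (m : ℕ) (s : Finset E), s.card = m → ∃ s' : Finset E,
    convexHull ℝ (s' : Set E) = convexHull ℝ (s : Set E) ∧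
    ∀ x ∈ s', x ∉ convexHull ℝ ((s'.erase x : Finset E) : Set E) := by
  intro m
  induction m using Nat.strong_induction_on with
  | _ m ih =>
    intro s hs
    by_cases h : ∀ x ∈ s, x ∉ convexHull ℝ ((s.erase x : Finset E) : Set E)
    · exact ⟨s, rfl, h⟩
    · push Not at h
      obtain ⟨x, hx, hx'⟩ := h
      obtain ⟨s', h1, h2⟩ := ih _ (hs ▸ Finset.card_erase_lt_of_mem hx) (s.erase x) rfl
      refine ⟨s', h1.trans (Set.Subset.antisymm
        (convexHull_mono (Finset.coe_subset.2 (Finset.erase_subset x s))) ?_), h2⟩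
      refine convexHull_min (fun y hy => ?_) (convex_convexHull ℝ _)
      by_cases hyx : y = x
      · exact hyx ▸ hx'
      · exact subset_convexHull ℝ _ (Finset.mem_coe.2 (Finset.mem_erase.2 ⟨hyx, hy⟩))

omit [FiniteDimensional ℝ E] in
theorem lift_sum {s : Finset E} {w : E → ℝ} {x : E} (h1 : ∑ y ∈ s, w y = 1)
    (h2 : ∑ y ∈ s, w y • y = x) (l : ℝ × E →ₗ[ℝ] ℝ) : l (1, x) = ∑ y ∈ s, w y * l (1, y) := by
  have h3 : ((1 : ℝ), x) = ∑ y ∈ s, w y • ((1 : ℝ), y) := by
    ext
    · simp [Prod.fst_sum, h1]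
    · simp [Prod.snd_sum, h2]
  rw [h3, map_sum]
  simp only [map_smul, smul_eq_mul]

omit [FiniteDimensional ℝ E] in
theorem nonneg_hull {s : Finset E} {l : ℝ × E →ₗ[ℝ] ℝ} (h0 : ∀ i, 0 ≤ l (vv s i)) {x : E}
    (hx : x ∈ convexHull ℝ (s : Set E)) : 0 ≤ l (1, x) := by
  obtain ⟨w, hw, h1, h2⟩ := Finset.mem_convexHull'.1 hx
  rw [lift_sum h1 h2]
  exact Finset.sum_nonneg fun y hy => mul_nonneg (hw y hy) (h0 ⟨y, hy⟩)

omit [FiniteDimensional ℝ E] in
theorem hull_eq {s : Finset E} {Z : Finset {x // x ∈ s}} {l : ℝ × E →ₗ[ℝ] ℝ}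
    (h0 : ∀ i, 0 ≤ l (vv s i)) (hZ : ∀ i, i ∈ Z ↔ l (vv s i) = 0) (x : E) :
    x ∈ convexHull ℝ (pts Z) ↔ x ∈ convexHull ℝ (s : Set E) ∧ l (1, x) = 0 := by
  classical
  have hp : pts Z = ((s.filter fun y => l (1, y) = 0 : Finset E) : Set E) := by
    ext y
    simp only [Finset.coe_filter, Set.mem_ofPred_eq]
    constructor
    · rintro ⟨i, hi, rfl⟩
      exact ⟨i.2, (hZ i).1 hi⟩
    · rintro ⟨h1, h2⟩
      exact ⟨⟨y, h1⟩, (hZ ⟨y, h1⟩).2 h2, rfl⟩
  constructor
  · intro hx
    refine ⟨convexHull_mono (pts_subset Z) hx, ?_⟩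
    rw [hp] at hx
    obtain ⟨w, -, h1, h2⟩ := Finset.mem_convexHull'.1 hx
    rw [lift_sum h1 h2]
    exact Finset.sum_eq_zero fun y hy => by rw [(Finset.mem_filter.1 hy).2, mul_zero]
  · rintro ⟨hx, hl⟩
    obtain ⟨w, hw, h1, h2⟩ := Finset.mem_convexHull'.1 hx
    rw [lift_sum h1 h2, Finset.sum_eq_zero_iff_of_nonneg
      fun y hy => mul_nonneg (hw y hy) (h0 ⟨y, hy⟩)] at hl
    have h3 : ∀ y ∈ s, w y ≠ 0 → l (1, y) = 0 := fun y hy hy' =>
      (mul_eq_zero.1 (hl y hy)).resolve_left hy'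
    rw [hp]
    refine Finset.mem_convexHull'.2 ⟨w, fun y hy => hw y (Finset.mem_filter.1 hy).1, ?_, ?_⟩
    · rw [Finset.sum_filter_of_ne h3, h1]
    · rw [Finset.sum_filter_of_ne fun y hy hy' => h3 y hy (left_ne_zero_of_smul hy'), h2]

theorem exposed [DecidableEq E] {s : Finset E} {Z : Finset {x // x ∈ s}} (hZ : IsFace (vv s) Z) :
    IsExposed ℝ (convexHull ℝ (s : Set E)) (convexHull ℝ (pts Z)) := by
  obtain ⟨l, h0, h1⟩ := hZ
  rintro ⟨z, hz⟩
  have hl : ∀ x : E, l (1, x) = l (1, 0) + l (0, x) := fun x => by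
    rw [← map_add]
    simp
  refine ⟨LinearMap.toContinuousLinearMap (-(l ∘ₗ LinearMap.inr ℝ ℝ E)), ?_⟩
  ext x
  rw [hull_eq h0 h1]
  simp only [Set.mem_ofPred_eq, LinearMap.coe_toContinuousLinearMap', LinearMap.neg_apply,
    LinearMap.comp_apply, LinearMap.inr_apply]
  refine and_congr_right fun hx => ⟨fun h y hy => ?_, fun h => ?_⟩
  · have := nonneg_hull h0 hy
    have := hl x
    have := hl y
    linarith
  · obtain ⟨hz1, hz2⟩ := (hull_eq h0 h1 z).1 hz
    have := h z hz1
    have := nonneg_hull h0 hx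
    have := hl x
    have := hl z
    linarith

omit [FiniteDimensional ℝ E] in
theorem mem_hull [DecidableEq E] {s : Finset E} {Z : Finset {x // x ∈ s}} (hZ : IsFace (vv s) Z)
    (x : {x // x ∈ s}) : x.1 ∈ convexHull ℝ (pts Z) ↔ x ∈ Z := by
  obtain ⟨l, h0, h1⟩ := hZ
  rw [hull_eq h0 h1, h1]
  exact and_iff_right (subset_convexHull ℝ _ x.2)

theorem rank_lift {P : Set E} (hP : P.Nonempty) :
    finrank ℝ (Submodule.span ℝ ((fun x : E => ((1 : ℝ), x)) '' P)) =
      finrank ℝ (vectorSpan ℝ P) + 1 := by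
  obtain ⟨p, hp⟩ := hP
  have h1 : Submodule.span ℝ ((fun x : E => ((1 : ℝ), x)) '' P) =
      (vectorSpan ℝ P).map (LinearMap.inr ℝ ℝ E) ⊔ Submodule.span ℝ {((1 : ℝ), p)} := by
    refine le_antisymm (Submodule.span_le.2 ?_) (sup_le ?_ ?_)
    · rintro _ ⟨x, hx, rfl⟩
      refine Submodule.mem_sup.2 ⟨(0, x - p), ⟨x - p, vsub_mem_vectorSpan ℝ hx hp, rfl⟩, (1, p),
        Submodule.mem_span_singleton_self _, ?_⟩
      simp
    · rw [vectorSpan_eq_span_vsub_set_right ℝ hp, Submodule.map_span]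
      refine Submodule.span_le.2 ?_
      rintro _ ⟨_, ⟨x, hx, rfl⟩, rfl⟩
      have h2 : LinearMap.inr ℝ ℝ E (x -ᵥ p) = ((1 : ℝ), x) - ((1 : ℝ), p) := by simp
      simp only [h2]
      exact Submodule.sub_mem _ (Submodule.subset_span ⟨x, hx, rfl⟩)
        (Submodule.subset_span ⟨p, hp, rfl⟩)
    · exact Submodule.span_mono (Set.singleton_subset_iff.2 ⟨p, hp, rfl⟩)
  have h3 : (vectorSpan ℝ P).map (LinearMap.inr ℝ ℝ E) ⊓ Submodule.span ℝ {((1 : ℝ), p)} = ⊥ := by
    rw [eq_bot_iff]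
    rintro x ⟨⟨y, -, hy⟩, hx⟩
    obtain ⟨c, hc⟩ := Submodule.mem_span_singleton.1 hx
    have h4 : c = 0 := by
      have := congrArg Prod.fst (hc.trans hy.symm)
      simpa using this
    rw [← hc, h4, zero_smul]
    exact Submodule.zero_mem _
  have h5 := Submodule.finrank_sup_add_finrank_inf_eq
    ((vectorSpan ℝ P).map (LinearMap.inr ℝ ℝ E)) (Submodule.span ℝ {((1 : ℝ), p)})
  rw [h3, finrank_bot, finrank_span_singleton (by simp),
    ← (Submodule.equivMapOfInjective _ LinearMap.inr_injective (vectorSpan ℝ P)).finrank_eq] at h5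
  rw [h1]
  omega

theorem rk_eq [DecidableEq E] {s : Finset E} (Z : Face (vv s)) (hZ : Z.1.Nonempty) :
    rk (vv s) Z = finrank ℝ (affineSpan ℝ (convexHull ℝ (pts Z.1))).direction + 1 := by
  obtain ⟨x, hx⟩ := hZ
  rw [affineSpan_convexHull, direction_affineSpan, ← rank_lift ⟨x.1, mem_pts.2 hx⟩]
  unfold rk pts
  rw [Set.image_image]
  rfl

omit [FiniteDimensional ℝ E] in
theorem rk_empty [DecidableEq E] {s : Finset E} (Z : Face (vv s)) (hZ : Z.1 = ∅) :
    rk (vv s) Z = 0 := by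
  unfold rk
  rw [hZ, Finset.coe_empty, Set.image_empty, Submodule.span_empty, finrank_bot]

omit [FiniteDimensional ℝ E] in
theorem rk_single [DecidableEq E] {s : Finset E} (Z : Face (vv s)) {x : {x // x ∈ s}}
    (hZ : Z.1 = {x}) : rk (vv s) Z = 1 := by
  unfold rk
  rw [hZ, Finset.coe_singleton, Set.image_singleton, finrank_span_singleton (by simp [vv])]

omit [FiniteDimensional ℝ E] in
theorem face_single [DecidableEq E] {s : Finset E}
    (hs : ∀ x ∈ s, x ∉ convexHull ℝ ((s.erase x : Finset E) : Set E)) (x : {x // x ∈ s}) :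
    IsFace (vv s) {x} := by
  obtain ⟨f, u, h1, h2⟩ := geometric_hahn_banach_point_closed (convex_convexHull ℝ _)
    ((Finset.finite_toSet _).isClosed_convexHull ℝ) (hs x.1 x.2)
  have h3 : ∀ y : {x // x ∈ s}, y ≠ x → f x.1 < f y.1 := fun y hy =>
    h1.trans (h2 _ (subset_convexHull ℝ _
      (Finset.mem_coe.2 (Finset.mem_erase.2 ⟨fun h => hy (Subtype.ext h), y.2⟩))))
  refine ⟨(f : E →ₗ[ℝ] ℝ) ∘ₗ LinearMap.snd ℝ ℝ E - f x.1 • LinearMap.fst ℝ ℝ E,
    fun y => ?_, fun y => ?_⟩
  · by_cases hy : y = x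
    · simp [vv, hy]
    · have := h3 y hy
      simp [vv]
      linarith
  · by_cases hy : y = x
    · simp [vv, hy]
    · have := h3 y hy
      simp [vv, hy]
      linarith

omit [FiniteDimensional ℝ E] in
theorem face_empty [DecidableEq E] (s : Finset E) : IsFace (vv s) ∅ :=
  ⟨LinearMap.fst ℝ ℝ E, fun i => by simp [vv], fun i => by simp [vv]⟩

omit [FiniteDimensional ℝ E] in
theorem face_univ [DecidableEq E] (s : Finset E) : IsFace (vv s) Finset.univ :=
  ⟨0, fun i => by simp, fun i => by simp⟩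

theorem card_le_of_simplex [DecidableEq E] {s : Finset E}
    (hs : ∀ x ∈ s, x ∉ convexHull ℝ ((s.erase x : Finset E) : Set E)) (Z : Finset {x // x ∈ s})
    {t : Finset E} (ht : convexHull ℝ (pts Z) = convexHull ℝ (t : Set E)) : Z.card ≤ t.card := by
  refine Finset.card_le_card_of_injOn Subtype.val (fun x hx => ?_) Subtype.val_injective.injOn
  have h1 := (exposed (face_single hs x)).isExtreme
  have h2 : pts ({x} : Finset {x // x ∈ s}) = {x.1} := by simp [pts]
  rw [h2, convexHull_singleton] at h1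
  have h3 := h1.mono (convexHull_mono (pts_subset Z))
    (Set.singleton_subset_iff.2 (subset_convexHull ℝ _ (mem_pts.2 (Finset.mem_coe.1 hx))))
  rw [ht, isExtreme_singleton] at h3
  exact extremePoints_convexHull_subset h3

end GPoly

open GPoly Module in
theorem polyS (hM : MainS) (hG : GeoS) : PolyS := by
  classical
  obtain ⟨K, hK, hM⟩ := hM
  refine ⟨K, hK, fun d k h hk hh hd Q hQ => ?_⟩
  obtain ⟨⟨s0, hs0⟩, hint, hsimp, hco⟩ := hQ
  obtain ⟨s, hs1, hs⟩ := exists_min _ s0 rfl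
  rw [← hs1] at hs0
  subst hs0
  refine ⟨s, ?_, rfl⟩
  have hFL := hG _ _ (vv s)
  let o : Face (vv s) := ⟨∅, face_empty s⟩
  let t : Face (vv s) := ⟨Finset.univ, face_univ s⟩
  let sg : {x // x ∈ s} → Face (vv s) := fun x => ⟨{x}, face_single hs x⟩
  have ho : ∀ x, o ≤ x := fun x => Finset.empty_subset _
  have ht : ∀ x, x ≤ t := fun x => Finset.subset_univ _
  have hne : ∀ Z : Face (vv s), 0 < rk (vv s) Z → Z.1.Nonempty := fun Z hZ => by
    by_contra h0
    rw [rk_empty Z (Finset.not_nonempty_iff_eq_empty.1 h0)] at hZ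
    omega
  have hhull : ∀ Z : Face (vv s), Z.1.Nonempty → (convexHull ℝ (pts Z.1)).Nonempty := by
    rintro Z ⟨x, hx⟩
    exact ⟨x.1, subset_convexHull ℝ _ (mem_pts.2 hx)⟩
  have hrt : rk (vv s) t = k + h + 1 := by
    have h1 : s.Nonempty := by
      obtain ⟨x, hx⟩ := hint
      exact Finset.coe_nonempty.1 (convexHull_nonempty_iff.1 ⟨x, interior_subset hx⟩)
    obtain ⟨x, hx⟩ := h1
    have h2 : pts t.1 = (s : Set _) := by
      refine Set.Subset.antisymm (pts_subset _) fun y hy => ?_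
      exact mem_pts (x := ⟨y, hy⟩) |>.2 (Finset.mem_univ _)
    rw [rk_eq t ⟨⟨x, hx⟩, Finset.mem_univ _⟩, h2,
      (convex_convexHull ℝ _).interior_nonempty_iff_affineSpan_eq_top.1 hint,
      AffineSubspace.direction_top, finrank_top, finrank_euclideanSpace_fin, hd]
  have key := hM (Face (vv s)) (rk (vv s)) k h o t hFL hk hh ho ht (rk_empty o rfl) hrt ?_ ?_
  · rw [← Fintype.card_coe, ← Finset.card_univ]
    refine le_trans (Finset.card_le_card_of_injOn sg (fun x _ => ?_) fun x _ y _ hxy => ?_)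
      (key.trans (by omega))
    · exact Finset.mem_coe.2 (mem_lev.2 ⟨ho _, ht _, rk_single _ rfl⟩)
    · exact Finset.singleton_injective (congrArg Subtype.val hxy)
  · intro S hS
    have h1 := hne S (by omega)
    have h2 := rk_eq S h1
    obtain ⟨t', hi, ht'⟩ := hsimp _ (exposed S.2) (hhull S h1) (by omega)
    have h3 := card_le_of_simplex hs S.1 ht'
    have h4 : t'.card = k + 1 := by
      have h5 : t'.Nonempty :=
        Finset.coe_nonempty.1 (convexHull_nonempty_iff.1 (ht' ▸ hhull S h1))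
      have h6 := Finset.card_pos.2 h5
      have h7 := hi.finrank_vectorSpan (n := t'.card - 1) (by simp; omega)
      rw [Subtype.range_coe] at h7
      rw [ht', affineSpan_convexHull, direction_affineSpan] at h2
      omega
    have h8 : ∀ a ∈ lev (rk (vv s)) o S 1, ∃ x ∈ S.1, sg x = a := by
      intro a ha
      obtain ⟨-, h9, h10⟩ := mem_lev.1 ha
      obtain ⟨x, hx⟩ := hne a (by omega)
      refine ⟨x, h9 hx, ?_⟩
      have h11 : sg x ≤ a := Finset.singleton_subset_iff.2 hx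
      by_contra h12
      have h13 := hFL.mono _ _ (lt_of_le_of_ne h11 h12)
      rw [rk_single (sg x) rfl] at h13
      omega
    have h14 : (lev (rk (vv s)) o S 1).card ≤ S.1.card :=
      Finset.card_le_card_of_surjOn sg fun a ha => by
        obtain ⟨x, hx, hxa⟩ := h8 a (Finset.mem_coe.1 ha)
        exact ⟨x, Finset.mem_coe.2 hx, hxa⟩
    omega
  · intro F hF
    have h1 := hne F (by omega)
    have h2 := rk_eq F h1
    have h3 := hco _ (exposed F.2) (hhull F h1) (by omega)
    rw [← h3, ← Set.ncard_coe_finset]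
    refine Set.ncard_le_ncard_of_injOn (fun Z => convexHull ℝ (pts Z.1)) (fun Z hZ => ?_)
      (fun Z _ W _ hZW => ?_) (Set.finite_of_ncard_ne_zero (by omega))
    · obtain ⟨h4, -, h5⟩ := mem_lev.1 (Finset.mem_coe.1 hZ)
      have h6 := hne Z (by omega)
      have h7 := rk_eq Z h6
      exact ⟨exposed Z.2, hhull Z h6, by omega,
        convexHull_mono (Set.image_mono (Finset.coe_subset.2 h4))⟩
    · refine Subtype.ext (Finset.ext fun x => ?_)
      rw [← mem_hull Z.2, ← mem_hull W.2]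
      exact Set.ext_iff.1 hZW _

end KHPoly
end

-- part Pool.Agent.Lib.MP_bfa8dc_co.GFar
section

/-! The cross-polytope is not a limit of convex hulls of `d+1` points. -/

set_option autoImplicit false

namespace KHPoly

namespace GFar

/-- the sign attached to a Boolean -/
def sg (b : Bool) : ℝ := if b then 1 else -1

theorem abs_sg (b : Bool) : |sg b| = 1 := by
  cases b <;> simp [sg]

/-- the vertices of the cross-polytope -/
noncomputable def vx {d : ℕ} (a : Fin d × Bool) : EuclideanSpace ℝ (Fin d) :=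
  EuclideanSpace.single a.1 (sg a.2)

/-- the linear form dual to a vertex -/
noncomputable def fm {d : ℕ} (a : Fin d × Bool) : EuclideanSpace ℝ (Fin d) →ₗ[ℝ] ℝ where
  toFun x := sg a.2 * x a.1
  map_add' x y := by simp [mul_add]
  map_smul' c x := by simp [mul_left_comm]

theorem fm_apply {d : ℕ} (a : Fin d × Bool) (x : EuclideanSpace ℝ (Fin d)) :
    fm a x = sg a.2 * x a.1 := rfl

theorem fm_self {d : ℕ} (a : Fin d × Bool) : fm a (vx a) = 1 := by
  rcases a with ⟨i, _ | _⟩ <;> simp [fm_apply, vx, sg]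

theorem fm_ne {d : ℕ} {a b : Fin d × Bool} (h : a ≠ b) : fm a (vx b) ≤ 0 := by
  rcases a with ⟨i, σ⟩
  rcases b with ⟨j, τ⟩
  by_cases hij : i = j
  · subst hij
    have : σ ≠ τ := fun e => h (by rw [e])
    cases σ <;> cases τ <;> simp_all [fm_apply, vx, sg]
  · simp [fm_apply, vx, hij]

theorem fm_le {d : ℕ} (a b : Fin d × Bool) : fm a (vx b) ≤ 1 := by
  by_cases h : a = b
  · rw [h, fm_self]
  · linarith [fm_ne h]

theorem fm_sub {d : ℕ} (a : Fin d × Bool) (x y : EuclideanSpace ℝ (Fin d)) :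
    fm a x - fm a y ≤ dist x y := by
  rw [← map_sub, dist_eq_norm, fm_apply]
  refine (le_abs_self _).trans ?_
  rw [abs_mul, abs_sg, one_mul]
  simpa using EuclideanSpace.norm_eq (x - y) ▸ PiLp.norm_apply_le (x - y) a.1

open Classical in
/-- the vertex set of the cross-polytope -/
noncomputable def cr (d : ℕ) : Finset (EuclideanSpace ℝ (Fin d)) := Finset.univ.image vx

theorem vx_mem {d : ℕ} (a : Fin d × Bool) : vx a ∈ (cr d : Set (EuclideanSpace ℝ (Fin d))) := by
  classical
  simp [cr]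

theorem pair_le {d : ℕ} {a b : Fin d × Bool} (h : a ≠ b) {x : EuclideanSpace ℝ (Fin d)}
    (hx : x ∈ convexHull ℝ (cr d : Set (EuclideanSpace ℝ (Fin d)))) : fm a x + fm b x ≤ 1 := by
  classical
  have hc : Convex ℝ {y : EuclideanSpace ℝ (Fin d) | (fm a + fm b) y ≤ 1} :=
    convex_halfSpace_le (fm a + fm b).isLinear 1
  refine convexHull_min (fun y hy => ?_) hc hx
  obtain ⟨c, -, rfl⟩ := Finset.mem_image.1 (Finset.mem_coe.1 hy)
  change fm a (vx c) + fm b (vx c) ≤ 1
  by_cases hac : a = c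
  · have hbc : b ≠ c := fun e => h (hac.trans e.symm)
    linarith [fm_le a c, fm_ne hbc]
  · linarith [fm_le b c, fm_ne hac]

theorem span_cr {d : ℕ} (hd : 2 ≤ d) :
    affineSpan ℝ (cr d : Set (EuclideanSpace ℝ (Fin d))) = ⊤ := by
  have i0 : Fin d := ⟨0, by omega⟩
  rw [AffineSubspace.affineSpan_eq_top_iff_vectorSpan_eq_top_of_nonempty ℝ _ _
    ⟨_, vx_mem (i0, true)⟩, eq_top_iff]
  rintro x -
  rw [← (EuclideanSpace.basisFun (Fin d) ℝ).sum_repr x]
  refine Submodule.sum_mem _ fun i _ => Submodule.smul_mem _ _ ?_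
  have h1 := vsub_mem_vectorSpan ℝ (vx_mem (i, true)) (vx_mem (i, false))
  have h2 : (EuclideanSpace.basisFun (Fin d) ℝ) i =
      (1 / 2 : ℝ) • (vx (i, true) -ᵥ vx (i, false)) := by
    ext j
    by_cases h : j = i
    · subst h; simp [vx, sg]; norm_num
    · simp [vx, h]
  rw [h2]
  exact Submodule.smul_mem _ _ h1

end GFar

open GFar in
theorem farS : FarS := by
  intro d hd
  refine ⟨cr d, ?_, fun t ht hc => ?_⟩
  · rw [(convex_convexHull ℝ _).interior_nonempty_iff_affineSpan_eq_top, affineSpan_convexHull]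
    exact span_cr hd
  by_contra hlt
  push Not at hlt
  have i0 : Fin d := ⟨0, by omega⟩
  have hfin : Metric.hausdorffEDist (convexHull ℝ (cr d : Set (EuclideanSpace ℝ (Fin d))))
      (convexHull ℝ (t : Set (EuclideanSpace ℝ (Fin d)))) ≠ ⊤ :=
    Metric.hausdorffEDist_ne_top_of_nonempty_of_bounded
      (convexHull_nonempty_iff.2 ⟨_, vx_mem (i0, true)⟩)
      (convexHull_nonempty_iff.2 (Finset.coe_nonempty.2 ht))
      (isBounded_convexHull.2 (cr d).finite_toSet.isBounded)
      (isBounded_convexHull.2 t.finite_toSet.isBounded)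
  have key : ∀ a : Fin d × Bool, ∃ p ∈ t, 3 / 4 < fm a p := fun a => by
    obtain ⟨q, hq, hq'⟩ := Metric.exists_dist_lt_of_hausdorffDist_lt
      (subset_convexHull ℝ _ (vx_mem a)) hlt hfin
    have h1 := fm_sub a (vx a) q
    rw [fm_self] at h1
    by_contra hn
    push Not at hn
    have hcv : Convex ℝ {y : EuclideanSpace ℝ (Fin d) | fm a y ≤ 3 / 4} :=
      convex_halfSpace_le (fm a).isLinear _
    have : fm a q ≤ 3 / 4 := convexHull_min (fun y hy => hn y hy) hcv hq
    linarith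
  choose f hf hf' using key
  have hinj : Function.Injective f := fun a b hab => by
    by_contra hne
    obtain ⟨q, hq, hq'⟩ := Metric.exists_dist_lt_of_hausdorffDist_lt'
      (subset_convexHull ℝ _ (Finset.mem_coe.2 (hf a))) hlt hfin
    have h1 := fm_sub a (f a) q
    have h2 := fm_sub b (f a) q
    have h3 := pair_le hne hq
    have h4 := hf' a
    have h5 := hf' b
    rw [← hab] at h5
    rw [dist_comm] at hq'
    linarith
  have := Finset.card_le_card_of_injOn (s := Finset.univ) (t := t) f (fun a _ => hf a)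
    hinj.injOn
  simp only [Finset.card_univ, Fintype.card_prod, Fintype.card_fin, Fintype.card_bool] at this
  omega

end KHPoly
end
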