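import Pool.Agent.Lib.MP_bfa8dc_co.CEul

-- part Pool.Agent.Lib.MP_bfa8dc_co.LLoc
section

set_option autoImplicit false

namespace KHPoly

namespace LLoc

open Finset

variable {L : Type} [SemilatticeInf L] [Fintype L] {r : L → ℕ} {k : ℕ}

/-- minimal elements `C` of `[A,B]` with Boolean `[C,B]` -/
def Core (r : L → ℕ) (k : ℕ) (A B C : L) : Prop :=
  A ≤ C ∧ C ≤ B ∧ r C ≤ k ∧ Simp r C B ∧ ∀ C', A ≤ C' → C' < C → ¬ Simp r C' B

theorem ex_core (hb : Basic r) (hk : KH r k) {A B F : L} (hF : F ∈ lev r A B k) :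
    ∃ C, Core r k A B C ∧ C ≤ F := by
  classical
  obtain ⟨h1, h2, h3⟩ := mem_lev.1 hF
  obtain ⟨C, hC, hmin⟩ := Finset.exists_min_image
    (univ.filter (fun C : L => A ≤ C ∧ C ≤ F ∧ Simp r C B)) r
    ⟨F, by simp [h1, hk.up F B h2 h3.ge]⟩
  simp only [mem_filter, mem_univ, true_and] at hC hmin
  refine ⟨C, ⟨hC.1, hC.2.1.trans h2, h3 ▸ hb.mono_le _ _ hC.2.1, hC.2.2, ?_⟩, hC.2.1⟩
  intro C' g1 g2 g3
  have := hmin C' ⟨g1, g2.le.trans hC.2.1, g3⟩
  have := hb.mono _ _ g2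
  omega

theorem one_of (hb : Basic r) (hk : KH r k) {M C1 C2 E F : L} (hM : M = C1 ⊓ C2) (h1 : C1 ≤ F)
    (h2 : C2 ≤ F) (hF : r F = k) (hME : M ≤ E) (hEF : E ≤ F) (hE : r E + 1 = k) :
    C1 ≤ E ∨ C2 ≤ E := by
  classical
  by_contra hcon
  push Not at hcon
  have hM1 : M ≤ C1 := hM ▸ inf_le_left
  have hM2 : M ≤ C2 := hM ▸ inf_le_right
  have e1 : ∃ a ∈ lev r M C1 (r M + 1), ¬ a ≤ E := by
    by_contra hh
    push Not at hh
    exact hcon.1 (hb.le_of_atoms M C1 E hM1 hME hh)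
  have e2 : ∃ a ∈ lev r M C2 (r M + 1), ¬ a ≤ E := by
    by_contra hh
    push Not at hh
    exact hcon.2 (hb.le_of_atoms M C2 E hM2 hME hh)
  obtain ⟨a1, ha1, n1⟩ := e1
  obtain ⟨a2, ha2, n2⟩ := e2
  rw [mem_lev] at ha1 ha2
  have hne : a1 ≠ a2 := by
    rintro rfl
    have : a1 ≤ M := hM ▸ le_inf ha1.2.1 ha2.2.1
    exact n1 (this.trans hME)
  have hs : Simp r M F := hk.low M F (hM1.trans h1) (by omega)
  have hsub : insert a1 (insert a2 (lev r M E (r M + 1))) ⊆ lev r M F (r M + 1) := by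
    intro x hx
    simp only [mem_insert, mem_lev] at hx ⊢
    rcases hx with rfl | rfl | hx
    · exact ⟨ha1.1, ha1.2.1.trans h1, ha1.2.2⟩
    · exact ⟨ha2.1, ha2.2.1.trans h2, ha2.2.2⟩
    · exact ⟨hx.1, hx.2.1.trans hEF, hx.2.2⟩
  have hc := card_le_card hsub
  rw [card_insert_of_notMem, card_insert_of_notMem] at hc
  · have := hb.atoms_ge M E hME
    unfold Simp at hs
    omega
  · intro hx; exact n2 (mem_lev.1 hx).2.1
  · intro hx
    rcases mem_insert.1 hx with hx | hx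
    · exact hne hx
    · exact n1 (mem_lev.1 hx).2.1

theorem core_unique (hb : Basic r) (hk : KH r k) (hp : Prop1 r k) {A B F C1 C2 : L}
    (hB : k + 1 ≤ r B) (hFB : F ≤ B) (hF : r F = k) (c1 : Core r k A B C1) (c2 : Core r k A B C2)
    (h1 : C1 ≤ F) (h2 : C2 ≤ F) : C1 = C2 := by
  have hs : Simp r (C1 ⊓ C2) B := by
    refine hp _ F B (inf_le_left.trans h1) hFB hF hB ?_
    intro E g1 g2 g3
    rcases one_of hb hk rfl h1 h2 hF g1 g2 g3 with g | g
    · exact hb.sub _ _ _ _ c1.2.2.2.1 g (g2.trans hFB) le_rfl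
    · exact hb.sub _ _ _ _ c2.2.2.2.1 g (g2.trans hFB) le_rfl
  have hA : A ≤ C1 ⊓ C2 := le_inf c1.1 c2.1
  have e1 : C1 ⊓ C2 = C1 := by
    by_contra hne
    exact c1.2.2.2.2 _ hA (lt_of_le_of_ne inf_le_left hne) hs
  have e2 : C1 ⊓ C2 = C2 := by
    by_contra hne
    exact c2.2.2.2.2 _ hA (lt_of_le_of_ne inf_le_right hne) hs
  exact e1.symm.trans e2

open Classical in
/-- the bad chains -/
noncomputable def trip (r : L → ℕ) (k : ℕ) (A B : L) : Finset (L × L × L) :=
  univ.filter (fun p : L × L × L => A ≤ p.1 ∧ p.1 ≤ p.2.1 ∧ p.2.1 ≤ p.2.2 ∧ p.2.2 ≤ B ∧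
    r p.1 + 1 = k ∧ r p.2.1 = k ∧ r p.2.2 = k + 2 ∧ ¬ Simp r p.1 p.2.2)

theorem tau_eq (A B : L) : tau r k A B = (trip r k A B).card := rfl

open Classical in
/-- the bad chains through the star of `C` -/
noncomputable def tripC (r : L → ℕ) (k : ℕ) (A B C : L) : Finset (L × L × L) :=
  (trip r k A B).filter (fun p => C ≤ p.2.1)

theorem mem_tripC {A B C : L} {p : L × L × L} : p ∈ tripC r k A B C ↔
    (A ≤ p.1 ∧ p.1 ≤ p.2.1 ∧ p.2.1 ≤ p.2.2 ∧ p.2.2 ≤ B ∧
    r p.1 + 1 = k ∧ r p.2.1 = k ∧ r p.2.2 = k + 2 ∧ ¬ Simp r p.1 p.2.2) ∧ C ≤ p.2.1 := by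
  simp [tripC, trip]

theorem mem_badG {A u B G : L} : G ∈ badG r k A u B ↔
    (u ≤ G ∧ G ≤ B ∧ r G = k + 2) ∧ ¬ Simp r A G := by
  simp [badG, mem_lev]

/-- lifting a coatom of `[A,C]` to a bad chain -/
theorem lift (hb : Basic r) (hk : KH r k) (hp : Prop1 r k) {A' C B F G : L} (hA' : A' ≤ C)
    (hr : r C = r A' + 1) (hs : Simp r C B) (hG : G ∈ badG r k A' C B) (hF : F ∈ lev r C G k) :
    ∃ E, A' ≤ E ∧ E ≤ F ∧ r E + 1 = k ∧ ¬ Simp r E G ∧ C ⊓ E = A' := by
  obtain ⟨⟨g1, g2, g3⟩, g4⟩ := mem_badG.1 hG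
  obtain ⟨f1, f2, f3⟩ := mem_lev.1 hF
  have s1 : Simp r A' F := hk.low _ _ (hA'.trans f1) (by omega)
  obtain ⟨E, e1, e2, e3, e4, e5⟩ := hb.omit_atom A' F C s1 (mem_lev.2 ⟨hA', f1, hr⟩)
  refine ⟨E, e1, e2, by omega, ?_, ?_⟩
  · intro hE
    apply g4
    refine hp A' F G (hA'.trans f1) f2 f3 (by omega) ?_
    intro E' k1 k2 k3
    by_cases hc : C ≤ E'
    · exact hb.sub _ _ _ _ hs hc (k2.trans f2) g2
    · have : E' ≤ E := by
        refine hb.le_of_atoms A' E' E k1 e1 ?_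
        intro a ha
        obtain ⟨a1, a2, a3⟩ := mem_lev.1 ha
        refine e5 a (mem_lev.2 ⟨a1, a2.trans k2, a3⟩) ?_
        rintro rfl
        exact hc a2
      have : E' = E := hb.eq_of _ _ this (by omega)
      exact this ▸ hE
  · have h1 : A' ≤ C ⊓ E := le_inf hA' e1
    have h2 : C ⊓ E < C := lt_of_le_of_ne inf_le_left (fun h => e4 (h ▸ inf_le_right))
    have := hb.mono _ _ h2
    exact (hb.eq_of _ _ h1 (by omega)).symm

theorem arith (j i c X Y Z W : ℕ) (hj : 1 ≤ j)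
    (h1 : W * Z = Y * (c + 2).choose 2) (h2 : (i + c + 2) * X = W * (i + 2)) :
    Y * (j + i) * (c + 2).choose 2 ≤ (j + i + (c + 1)) * (j * (X * Z)) := by
  have h3 : (j + i) * W ≤ (j + i + (c + 1)) * j * X := by
    apply Nat.le_of_mul_le_mul_right _ (show 0 < i + 2 by omega)
    have h4 : j + i ≤ j * (i + 2) := by nlinarith
    have h5 : i + c + 2 ≤ j + i + (c + 1) := by omega
    calc (j + i) * W * (i + 2) = (j + i) * (i + c + 2) * X := by
          rw [mul_assoc, ← h2]; ring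
      _ ≤ (j * (i + 2)) * (j + i + (c + 1)) * X :=
          Nat.mul_le_mul_right _ (Nat.mul_le_mul h4 h5)
      _ = _ := by ring
  calc Y * (j + i) * (c + 2).choose 2 = (j + i) * W * Z := by rw [mul_assoc (j + i), h1]; ring
    _ ≤ (j + i + (c + 1)) * j * X * Z := Nat.mul_le_mul_right _ h3
    _ = _ := by ring

theorem star_count (hb : Basic r) (hk : KH r k) (hp : Prop1 r k) (hst : Star r k) {A B C : L}
    {j i c : ℕ} (hC : Core r k A B C) (hj : r C = r A + (j + 1)) (hi : r C + i = k)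
    (hB : r B = k + 2 + c) :
    (j + 1) * ((i + 1 + c).choose (i + 1) * (i + 2).choose i) ≤ (tripC r k A B C).card := by
  classical
  obtain ⟨c1, c2, c3, c4, c5⟩ := hC
  set D := lev r A C (r A + j) with hD
  have hDc : D.card = j + 1 := by
    rw [hD, hb.card_lev A C j c1 (hk.low _ _ c1 (by omega)), hj]
    simp
  set X : Finset (L × L × L) := D.biUnion (fun A' => (badG r k A' C B).biUnion
    (fun G => (lev r C G k).image (fun F => (A', F, G)))) with hX
  have hXc : (j + 1) * ((i + 1 + c).choose (i + 1) * (i + 2).choose i) ≤ X.card := by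
    rw [hX, card_biUnion]
    · rw [← hDc, ← smul_eq_mul]
      apply card_nsmul_le_sum
      intro A' hA'
      obtain ⟨a1, a2, a3⟩ := mem_lev.1 hA'
      have hlt : A' < C := lt_of_le_of_ne a2 (by rintro rfl; omega)
      have h1 := hst c i A' C B a2 c2 (by omega) (by omega) hB c4 (c5 A' a1 hlt)
      rw [card_biUnion]
      · refine le_trans (Nat.mul_le_mul_right _ h1) ?_
        rw [← smul_eq_mul]
        apply card_nsmul_le_sum
        intro G hG
        obtain ⟨⟨g1, g2, g3⟩, _⟩ := mem_badG.1 hG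
        rw [card_image_of_injective _ (fun x y h => by simpa using h)]
        have := hb.card_lev C G i g1 (hb.sub _ _ _ _ c4 le_rfl g1 g2)
        rw [hi] at this
        rw [this, show r G - r C = i + 2 by omega]
      · intro G _ G' _ hne
        simp only [Function.onFun]
        rw [disjoint_left]
        intro p h1 h2
        simp only [mem_image] at h1 h2
        obtain ⟨F, _, rfl⟩ := h1
        obtain ⟨F', _, h⟩ := h2
        simp only [Prod.mk.injEq] at h
        exact hne h.2.2.symm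
    · intro A1 _ A2 _ hne
      simp only [Function.onFun]
      rw [disjoint_left]
      intro p h1 h2
      simp only [mem_biUnion, mem_image] at h1 h2
      obtain ⟨G, _, F, _, rfl⟩ := h1
      obtain ⟨G', _, F', _, h⟩ := h2
      simp only [Prod.mk.injEq] at h
      exact hne h.1.symm
  refine hXc.trans (card_le_card_of_surjOn (fun p : L × L × L => (C ⊓ p.1, p.2.1, p.2.2)) ?_)
  intro q hq
  simp only [hX, coe_biUnion, Set.mem_iUnion, mem_coe, mem_image, exists_prop] at hq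
  obtain ⟨A', hA', G, hG, F, hF, rfl⟩ := hq
  obtain ⟨a1, a2, a3⟩ := mem_lev.1 hA'
  obtain ⟨E, e1, e2, e3, e4, e5⟩ := lift hb hk hp a2 (by omega) c4 hG hF
  obtain ⟨⟨g1, g2, g3⟩, _⟩ := mem_badG.1 hG
  obtain ⟨f1, f2, f3⟩ := mem_lev.1 hF
  refine ⟨(E, F, G), ?_, by simp [e5]⟩
  exact mem_coe.2 (mem_tripC.2 ⟨⟨a1.trans e1, e2, f2, g2, e3, f3, g3, e4⟩, f1⟩)

theorem star_bound (hb : Basic r) (hk : KH r k) (hp : Prop1 r k) (hst : Star r k) {A B C : L}
    {a c : ℕ} (hC : Core r k A B C) (ha : r A + a = k) (hB : r B = k + 1 + (c + 1))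
    (hn : ¬ Simp r A B) :
    (lev r C B k).card * a * (c + 1 + 1).choose 2 ≤ (a + (c + 1)) * (tripC r k A B C).card := by
  have hlt : A < C := lt_of_le_of_ne hC.1 (by rintro rfl; exact hn hC.2.2.2.1)
  have h1 := hb.mono _ _ hlt
  have h2 := hC.2.2.1
  obtain ⟨j, hj⟩ : ∃ j, r C = r A + (j + 1) := ⟨r C - r A - 1, by omega⟩
  obtain ⟨i, hi⟩ : ∃ i, r C + i = k := ⟨k - r C, by omega⟩
  have h3 := star_count hb hk hp hst hC hj hi (c := c) (by omega)
  have h4 := hb.card_lev C B i hC.2.1 hC.2.2.2.1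
  rw [hi, show r B - r C = i + c + 2 by omega] at h4
  have h5 : a = (j + 1) + i := by omega
  rw [h4, h5]
  refine le_trans ?_ (Nat.mul_le_mul_left _ h3)
  refine arith (j + 1) i c _ _ _ ((i + c + 2).choose (i + 2)) (by omega) ?_ ?_
  · rw [Nat.choose_mul (show i ≤ i + 2 by omega)]
    congr 2 <;> omega
  · have := Nat.add_one_mul_choose_eq (i + 1 + c) (i + 1)
    rw [show i + c + 2 = i + 1 + c + 1 by omega, this]

end LLoc

open Finset LLoc in
theorem locS : LocS := by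
  classical
  intro L _ _ r k hb hk hp hst a b A B hAB ha hB h1 h2 hn
  obtain ⟨c, rfl⟩ : ∃ c, b = c + 1 := ⟨b - 1, by omega⟩
  set S : Finset L := univ.filter (fun C => Core r k A B C) with hS
  have e1 : (lev r A B k).card ≤ ∑ C ∈ S, (lev r C B k).card := by
    refine le_trans (card_le_card ?_) card_biUnion_le
    intro F hF
    obtain ⟨C, hC, hCF⟩ := ex_core hb hk hF
    obtain ⟨_, f2, f3⟩ := mem_lev.1 hF
    exact mem_biUnion.2 ⟨C, by simp [hS, hC], mem_lev.2 ⟨hCF, f2, f3⟩⟩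
  have e2 : ∑ C ∈ S, (tripC r k A B C).card ≤ tau r k A B := by
    rw [tau_eq, ← card_biUnion]
    · apply card_le_card
      intro p hp'
      obtain ⟨C, _, h⟩ := mem_biUnion.1 hp'
      exact (mem_filter.1 h).1
    · intro C1 m1 C2 m2 hne
      simp only [Function.onFun]
      rw [disjoint_left]
      intro p p1 p2
      rw [mem_tripC] at p1 p2
      simp only [hS, coe_filter, mem_univ, true_and, Set.mem_ofPred_eq] at m1 m2
      exact hne (core_unique hb hk hp (by omega) (p1.1.2.2.1.trans p1.1.2.2.2.1)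
        p1.1.2.2.2.2.2.1 m1 m2 p1.2 p2.2)
  calc (lev r A B k).card * a * (c + 1 + 1).choose 2
      ≤ (∑ C ∈ S, (lev r C B k).card) * a * (c + 1 + 1).choose 2 :=
        Nat.mul_le_mul_right _ (Nat.mul_le_mul_right _ e1)
    _ = ∑ C ∈ S, (lev r C B k).card * a * (c + 1 + 1).choose 2 := by
        rw [sum_mul, sum_mul]
    _ ≤ ∑ C ∈ S, (a + (c + 1)) * (tripC r k A B C).card := by
        apply sum_le_sum
        intro C hC
        exact star_bound hb hk hp hst (by simpa [hS] using hC) ha hB hn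
    _ = (a + (c + 1)) * ∑ C ∈ S, (tripC r k A B C).card := by rw [mul_sum]
    _ ≤ _ := Nat.mul_le_mul_left _ e2

end KHPoly
end

-- part Pool.Agent.Lib.MP_bfa8dc_co.CBnd
section

/-! Bounds for the defect of the array of pair numbers, by double counting. -/

namespace KHPoly.CBnd

open Finset

theorem swap {X Y : Type} (S : Finset X) (T : Finset Y) (p : X → Y → Prop)
    [∀ x y, Decidable (p x y)] :
    ∑ x ∈ S, (T.filter (p x)).card = ∑ y ∈ T, (S.filter fun x => p x y).card := by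
  simp only [card_filter]; exact sum_comm

variable {L : Type} [SemilatticeInf L] [Fintype L] {r : L → ℕ} {k h : ℕ} {o t : L}

open Classical in
noncomputable def prs (r : L → ℕ) (k a b : ℕ) : Finset (L × L) :=
  univ.filter fun p : L × L => p.1 ≤ p.2 ∧ r p.1 + a = k ∧ r p.2 = k + 1 + b

theorem mem_prs {a b : ℕ} {p : L × L} :
    p ∈ prs r k a b ↔ p.1 ≤ p.2 ∧ r p.1 + a = k ∧ r p.2 = k + 1 + b := by
  simp [prs]

open Classical in
theorem dc (ho : ∀ x, o ≤ x) (ht : ∀ x, x ≤ t) {X : Type} (S : Finset X) (lo hi : X → L)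
    (hl : ∀ c ∈ S, lo c ≤ hi c) {a b C D : ℕ} (ha : a ≤ k)
    (h1 : ∀ c ∈ S, (lev r o (lo c) (k - a)).card = C)
    (h2 : ∀ c ∈ S, (lev r (hi c) t (k + 1 + b)).card = D) :
    ∑ R ∈ prs r k a b, (S.filter fun c => R.1 ≤ lo c ∧ hi c ≤ R.2).card = S.card * (C * D) := by
  rw [swap, ← smul_eq_mul, ← sum_const]
  refine sum_congr rfl fun c hc => ?_
  rw [← h1 c hc, ← h2 c hc, ← card_product]
  congr 1
  ext p
  simp only [mem_filter, mem_prs, mem_product, mem_lev]
  exact ⟨fun ⟨⟨_, a2, a3⟩, a4, a5⟩ => ⟨⟨ho _, a4, by omega⟩, a5, ht _, a3⟩,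
    fun ⟨⟨_, a2, a3⟩, a4, _, a5⟩ => ⟨⟨a2.trans ((hl c hc).trans a4), by omega, a5⟩, a2, a4⟩⟩

section
variable (hB : Basic r) (hK : KH r k)
include hB hK

theorem lev_ge (a b : ℕ) (A B : L) (hAB : A ≤ B) (hA : r A + a = k) (hb : r B = k + 1 + b) :
    (a + b + 1).choose a ≤ (lev r A B k).card := by
  classical
  induction a generalizing A with
  | zero => simpa using ⟨A, mem_lev.2 ⟨le_rfl, hAB, by omega⟩⟩
  | succ a ih =>
    have e := swap (lev r A B (r A + 1)) (lev r A B k) fun x F => x ≤ F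
    have e1 : ∑ F ∈ lev r A B k, ((lev r A B (r A + 1)).filter fun x => x ≤ F).card =
        (lev r A B k).card * (a + 1) := by
      rw [← smul_eq_mul, ← sum_const]
      refine sum_congr rfl fun F hF => ?_
      obtain ⟨f1, f2, f3⟩ := mem_lev.1 hF
      have := hB.card_lev A F 1 f1 (hK.low _ _ f1 (by omega))
      rw [Nat.choose_one_right, show r F - r A = a + 1 by omega] at this
      rw [← this]
      congr 1
      ext x
      simp only [mem_filter, mem_lev]
      exact ⟨fun ⟨⟨a1, _, a3⟩, a4⟩ => ⟨a1, a4, a3⟩, fun ⟨a1, a2, a3⟩ => ⟨⟨a1, a2.trans f2, a3⟩, a2⟩⟩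
    have e2 : (lev r A B (r A + 1)).card * (a + b + 1).choose a ≤
        ∑ x ∈ lev r A B (r A + 1), ((lev r A B k).filter fun F => x ≤ F).card := by
      rw [← smul_eq_mul]
      refine card_nsmul_le_sum _ _ _ fun x hx => ?_
      obtain ⟨x1, x2, x3⟩ := mem_lev.1 hx
      refine (ih x x2 (by omega)).trans (card_le_card fun F hF => ?_)
      obtain ⟨f1, f2, f3⟩ := mem_lev.1 hF
      exact mem_filter.2 ⟨mem_lev.2 ⟨x1.trans f1, f2, f3⟩, f1⟩
    have e3 := hB.atoms_ge A B hAB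
    have e4 := Nat.add_one_mul_choose_eq (a + b + 1) a
    rw [e, e1] at e2
    refine Nat.le_of_mul_le_mul_right ?_ (Nat.succ_pos a)
    rw [show a + 1 + b + 1 = a + b + 1 + 1 by omega, Nat.succ_eq_add_one, ← e4]
    exact (Nat.mul_le_mul_right _ (by omega)).trans e2

omit hK in
theorem lev_simp {a b : ℕ} {R : L × L} (hR : R ∈ prs r k a b) (hs : Simp r R.1 R.2) :
    (lev r R.1 R.2 k).card = (a + b + 1).choose a := by
  obtain ⟨a1, a2, a3⟩ := mem_prs.1 hR
  have := hB.card_lev _ _ a a1 hs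
  rwa [a2, show r R.2 - r R.1 = a + b + 1 by omega] at this

variable (ho : ∀ x, o ≤ x) (ht : ∀ x, x ≤ t) (h0 : r o = 0) (h1 : r t = k + h + 1)
include ho ht h0 h1

theorem dfc_eq {a b : ℕ} (ha : a ≤ k) : dfc k h (lev r o t k).card (npair r k) a b =
    ∑ R ∈ prs r k a b, (((lev r R.1 R.2 k).card : ℤ) - ((a + b + 1).choose a : ℤ)) := by
  classical
  have e := dc ho ht (lev r o t k) id id (fun _ _ => le_rfl) (b := b) (C := k.choose a)
    (D := (h + 1).choose (b + 1)) ha (fun F hF => by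
      have f3 := (mem_lev.1 hF).2.2
      have := hB.card_lev o F (k - a) (ho _) (hK.low _ _ (ho _) (by omega))
      rwa [h0, zero_add, f3, Nat.sub_zero, Nat.choose_symm ha] at this) (fun F hF => by
      have f3 := (mem_lev.1 hF).2.2
      have := hB.card_lev F t (b + 1) (ht _) (hK.up _ _ (ht _) f3.ge)
      rwa [f3, h1, show k + h + 1 - k = h + 1 by omega, show k + (b + 1) = k + 1 + b by omega] at this)
  have e2 : ∀ R : L × L, ((lev r o t k).filter fun c => R.1 ≤ id c ∧ id c ≤ R.2) = lev r R.1 R.2 k :=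
    fun R => by
      ext c
      simp only [mem_filter, mem_lev, id]
      exact ⟨fun ⟨⟨_, _, a3⟩, a4, a5⟩ => ⟨a4, a5, a3⟩, fun ⟨a1, a2, a3⟩ => ⟨⟨ho _, ht _, a3⟩, a1, a2⟩⟩
  simp only [e2] at e
  rw [sum_sub_distrib, ← Nat.cast_sum, e, sum_const, dfc, nsmul_eq_mul]
  have : npair r k a b = (prs r k a b).card := rfl
  rw [this]; push_cast; ring

theorem sum_tau {a b : ℕ} (ha : a + 1 ≤ k) : ∑ R ∈ prs r k (a + 1) (b + 1), tau r k R.1 R.2 =
    tau r k o t * ((k - 1).choose a * (h - 1).choose b) := by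
  classical
  rw [tau, ← dc ho ht _ (fun p : L × L × L => p.1) (fun p => p.2.2) (b := b + 1) (fun p hp => ?_) ha
    (fun p hp => ?_) fun p hp => ?_]
  · refine sum_congr rfl fun R _ => ?_
    rw [tau, filter_filter]
    congr 1
    ext p
    simp only [mem_filter, mem_univ, true_and]
    exact ⟨fun ⟨a1, a2, a3, a4, a5⟩ => ⟨⟨ho _, a2, a3, ht _, a5⟩, a1, a4⟩,
      fun ⟨⟨_, a2, a3, _, a5⟩, a1, a4⟩ => ⟨a1, a2, a3, a4, a5⟩⟩
  all_goals obtain ⟨-, a2, a3, -, a5, a6, a7, -⟩ := (mem_filter.1 hp).2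
  · exact a2.trans a3
  · have := hB.card_lev o p.1 (k - (a + 1)) (ho _) (hK.low _ _ (ho _) (by omega))
    rwa [h0, zero_add, show r p.1 - 0 = k - 1 by omega, show k - (a + 1) = k - 1 - a by omega,
      Nat.choose_symm (by omega), show k - 1 - a = k - (a + 1) by omega] at this
  · have := hB.card_lev p.2.2 t b (ht _) (hK.up _ _ (ht _) (by omega))
    rwa [a7, h1, show k + h + 1 - (k + 2) = h - 1 by omega,
      show k + 2 + b = k + 1 + (b + 1) by omega] at this

theorem tau_le (hk : 1 ≤ k) :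
    (tau r k o t : ℤ) ≤ 4 * dfc k h (lev r o t k).card (npair r k) 1 1 := by
  classical
  rw [dfc_eq hB hK ho ht h0 h1 hk, mul_sum, tau,
    card_eq_sum_card_fiberwise (f := fun p : L × L × L => (p.1, p.2.2)) (t := prs r k 1 1)
      fun p hp => ?_, Nat.cast_sum]
  · refine sum_le_sum fun R hR => ?_
    obtain ⟨a1, a2, a3⟩ := mem_prs.1 hR
    have b1 := lev_ge hB hK 1 1 _ _ a1 a2 a3
    by_cases hs : Simp r R.1 R.2
    · rw [filter_false_of_mem fun p hp e => ?_]
      · simp only [card_empty]; omega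
      · exact (mem_filter.1 hp).2.2.2.2.2.2.2.2 (by rw [← e] at hs; exact hs)
    · have b2 : ((univ.filter fun p : L × L × L => o ≤ p.1 ∧ p.1 ≤ p.2.1 ∧ p.2.1 ≤ p.2.2 ∧ p.2.2 ≤ t ∧
          r p.1 + 1 = k ∧ r p.2.1 = k ∧ r p.2.2 = k + 2 ∧ ¬ Simp r p.1 p.2.2).filter
          fun p => (p.1, p.2.2) = R).card ≤ (lev r R.1 R.2 k).card := by
        refine card_le_card_of_injOn (fun p => p.2.1) (fun p hp => ?_) fun p hp q hq e => ?_
        · obtain ⟨hq, rfl⟩ := mem_filter.1 hp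
          have c := (mem_filter.1 hq).2
          exact mem_lev.2 ⟨c.2.1, c.2.2.1, c.2.2.2.2.2.1⟩
        · have := (mem_filter.1 hp).2.trans (mem_filter.1 hq).2.symm
          simp only [Prod.mk.injEq] at this
          exact Prod.ext this.1 (Prod.ext e this.2)
      rw [Simp, a2] at hs
      have : Nat.choose (1 + 1 + 1) 1 = 3 := rfl
      omega
  · obtain ⟨-, a2, a3, -, a5, -, a7, -⟩ := (mem_filter.1 hp).2
    exact mem_prs.2 ⟨a2.trans a3, a5, a7⟩

end

end KHPoly.CBnd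

namespace KHPoly

open Finset CBnd

theorem bndS : BndS := by
  intro L _ _ r k h o t hB hK hL ho ht h0 h1 hk hh hs
  have z : ∀ a b, a ≤ k → (∀ R ∈ prs r k a b, Simp r R.1 R.2) →
      dfc k h (lev r o t k).card (npair r k) a b = 0 := fun a b ha H => by
    rw [dfc_eq hB hK ho ht h0 h1 ha]
    exact sum_eq_zero fun R hR => by rw [lev_simp hB hR (H R hR), sub_self]
  have tl := tau_le hB hK ho ht h0 h1 hk
  refine ⟨fun a b ha _ => ?_, fun b _ => z 0 b (Nat.zero_le _) fun R hR => ?_,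
    fun a ha => z a 0 ha fun R hR => ?_, fun a b ha _ => ?_, ?_⟩
  · rw [dfc_eq hB hK ho ht h0 h1 ha]
    refine sum_nonneg fun R hR => ?_
    obtain ⟨a1, a2, a3⟩ := mem_prs.1 hR
    have := lev_ge hB hK a b _ _ a1 a2 a3
    omega
  · exact hK.up _ _ (mem_prs.1 hR).1 (mem_prs.1 hR).2.1.ge
  · exact hK.low _ _ (mem_prs.1 hR).1 (mem_prs.1 hR).2.2.le
  · have e : (∑ R ∈ prs r k (a + 1) (b + 1), (tau r k R.1 R.2 : ℤ)) =
        tau r k o t * ((k - 1).choose a * (h - 1).choose b) := by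
      exact_mod_cast sum_tau hB hK ho ht h0 h1 ha
    rw [dfc_eq hB hK ho ht h0 h1 ha, mul_sum]
    calc _ ≤ ∑ R ∈ prs r k (a + 1) (b + 1), ((a + b + 2 : ℕ) : ℤ) * (tau r k R.1 R.2 : ℤ) := by
          refine sum_le_sum fun R hR => ?_
          by_cases hR' : Simp r R.1 R.2
          · rw [lev_simp hB hR hR', sub_self, mul_zero]; positivity
          · obtain ⟨a1, a2, a3⟩ := mem_prs.1 hR
            have := hL (a + 1) (b + 1) _ _ a1 a2 a3 (by omega) (by omega) hR'
            rw [show a + 1 + (b + 1) = a + b + 2 by omega, show b + 1 + 1 = b + 2 by omega] at this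
            have p : (0 : ℤ) ≤ ((a + 1 : ℕ) : ℤ) * ((b + 2).choose 2 : ℤ) *
              ((a + 1 + (b + 1) + 1).choose (a + 1) : ℤ) := by positivity
            have q : ((lev r R.1 R.2 k).card : ℤ) * ((a + 1 : ℕ) : ℤ) * ((b + 2).choose 2 : ℤ) ≤
              ((a + b + 2 : ℕ) : ℤ) * (tau r k R.1 R.2 : ℤ) := by exact_mod_cast this
            linarith
      _ ≤ _ := by
          rw [← mul_sum, e]
          have p : (0 : ℤ) ≤ ((a + b + 2 : ℕ) : ℤ) * ((k - 1).choose a * (h - 1).choose b) := by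
            positivity
          linarith [mul_le_mul_of_nonneg_left tl p]
  · have e := hL k h o t (ho t) (by omega) (by omega) hk hh hs
    obtain ⟨F, hF⟩ := hB.ex_lev o t k (ho t) (by omega) (by omega)
    have a1 : 0 < (lev r o t k).card * k * (h + 1).choose 2 :=
      Nat.mul_pos (Nat.mul_pos (card_pos.2 ⟨F, hF⟩) hk) (Nat.choose_pos (by omega))
    have a2 : 0 < tau r k o t := Nat.pos_of_mul_pos_left (a1.trans_le e)
    omega

end KHPoly
end

-- part Pool.Agent.Lib.MP_bfa8dc_co.CArith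
section

/-! From the Euler relations and the defect bounds to a finite sequence with vanishing even
differences. -/

set_option autoImplicit false

namespace KHPoly

open Finset

namespace CArith

/-- normalised defect -/
noncomputable def uu (k h f : ℕ) (N : ℕ → ℕ → ℕ) (a b : ℕ) : ℝ :=
  (dfc k h f N a b : ℝ) / ((f : ℝ) * (k.choose a : ℝ) * ((h + 1).choose (b + 1) : ℝ))

/-- normalised array -/
noncomputable def zz (k h f : ℕ) (N : ℕ → ℕ → ℕ) (a b : ℕ) : ℝ :=
  (N a b : ℝ) * ((k - a).factorial : ℝ) * ((h - b).factorial : ℝ) /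
    ((f : ℝ) * (k.factorial : ℝ) * ((h + 1).factorial : ℝ))

/-- the sequence -/
noncomputable def sqn (k h f : ℕ) (N : ℕ → ℕ → ℕ) : ℕ → ℝ
  | 0 => 0
  | n + 1 => (∑ a ∈ range (n + 1), uu k h f N a (n - a)) / uu k h f N 1 1

theorem fac_pos (n : ℕ) : (0 : ℝ) < (n.factorial : ℝ) := by
  exact_mod_cast Nat.factorial_pos n

theorem f_pos {k h f : ℕ} {N : ℕ → ℕ → ℕ} (hB : BndA k h f N) : 0 < f := by
  rcases Nat.eq_zero_or_pos f with h0 | h0
  · exfalso
    have h1 := hB.pos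
    unfold dfc at h1
    rw [h0] at h1
    have h2 : (0 : ℤ) ≤ ((1 + 1 + 1).choose 1 : ℤ) * (N 1 1 : ℤ) := by positivity
    simp only [Nat.cast_zero, zero_mul, zero_sub] at h1
    linarith
  · exact h0

theorem den_pos {k h f a b : ℕ} (hf : 0 < f) (ha : a ≤ k) (hb : b ≤ h) :
    (0 : ℝ) < (f : ℝ) * (k.choose a : ℝ) * ((h + 1).choose (b + 1) : ℝ) := by
  have h1 : (0 : ℝ) < f := by exact_mod_cast hf
  have h2 : (0 : ℝ) < (k.choose a : ℝ) := by exact_mod_cast Nat.choose_pos ha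
  have h3 : (0 : ℝ) < ((h + 1).choose (b + 1) : ℝ) := by
    exact_mod_cast Nat.choose_pos (Nat.succ_le_succ hb)
  positivity

theorem one_sub {k h f : ℕ} (N : ℕ → ℕ → ℕ) {a b : ℕ} (hf : 0 < f) (ha : a ≤ k) (hb : b ≤ h) :
    uu k h f N a b = 1 - ((a + b + 1).factorial : ℝ) * zz k h f N a b := by
  have h1 : (0 : ℝ) < f := by exact_mod_cast hf
  have e1 : (k.choose a : ℝ) = (k.factorial : ℝ) / ((a.factorial : ℝ) * ((k - a).factorial : ℝ)) :=
    Nat.cast_choose ℝ ha
  have e2 : ((h + 1).choose (b + 1) : ℝ) =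
      ((h + 1).factorial : ℝ) / (((b + 1).factorial : ℝ) * ((h - b).factorial : ℝ)) := by
    have := Nat.cast_choose ℝ (Nat.succ_le_succ hb)
    rw [Nat.succ_sub_succ] at this
    exact this
  have e3 : ((a + b + 1).choose a : ℝ) =
      ((a + b + 1).factorial : ℝ) / ((a.factorial : ℝ) * ((b + 1).factorial : ℝ)) := by
    have := Nat.cast_choose ℝ (show a ≤ a + b + 1 by omega)
    rw [show a + b + 1 - a = b + 1 by omega] at this
    exact this
  have p1 := fac_pos k
  have p2 := fac_pos a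
  have p3 := fac_pos (k - a)
  have p4 := fac_pos (h + 1)
  have p5 := fac_pos (b + 1)
  have p6 := fac_pos (h - b)
  have p7 := fac_pos (a + b + 1)
  unfold uu zz dfc
  push_cast
  rw [e1, e2, e3]
  field_simp

theorem eul_z {k h f : ℕ} {N : ℕ → ℕ → ℕ} (hE : EulA k h N) {a b : ℕ} (ha : a ≤ k)
    (hb : b ≤ h) :
    ∑ i ∈ range (a + 1), (-1 : ℝ) ^ i * zz k h f N i b / ((a - i).factorial : ℝ) =
      ∑ j ∈ range (b + 1), (-1 : ℝ) ^ j * zz k h f N a j / ((b - j).factorial : ℝ) := by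
  have h0 := hE a b ha hb
  have h1 : ∑ i ∈ range (a + 1), (-1 : ℝ) ^ i * ((k - i).choose (a - i) : ℝ) * (N i b : ℝ) =
      ∑ j ∈ range (b + 1), (-1 : ℝ) ^ j * ((h - j).choose (b - j) : ℝ) * (N a j : ℝ) := by
    exact_mod_cast h0
  have h2 := congrArg (fun x : ℝ => x * (((k - a).factorial : ℝ) * ((h - b).factorial : ℝ) /
    ((f : ℝ) * (k.factorial : ℝ) * ((h + 1).factorial : ℝ)))) h1
  simp only [Finset.sum_mul] at h2
  refine Eq.trans ?_ (h2.trans ?_)
  · refine Finset.sum_congr rfl fun i hi => ?_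
    have hi' : i ≤ a := Nat.lt_succ_iff.mp (mem_range.mp hi)
    have e1 := Nat.cast_choose ℝ (show a - i ≤ k - i by omega)
    rw [show k - i - (a - i) = k - a by omega] at e1
    have p1 := fac_pos (a - i)
    have p2 := fac_pos (k - a)
    rw [e1]
    unfold zz
    field_simp
  · refine Finset.sum_congr rfl fun j hj => ?_
    have hj' : j ≤ b := Nat.lt_succ_iff.mp (mem_range.mp hj)
    have e1 := Nat.cast_choose ℝ (show b - j ≤ h - j by omega)
    rw [show h - j - (b - j) = h - b by omega] at e1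
    have p1 := fac_pos (b - j)
    have p2 := fac_pos (h - b)
    rw [e1]
    unfold zz
    field_simp

theorem tri2 (n : ℕ) (F : ℕ → ℕ → ℝ) :
    ∑ a ∈ range (n + 1), ∑ j ∈ range (n - a + 1), F a j =
      ∑ m ∈ range (n + 1), ∑ a ∈ range (m + 1), F a (m - a) := by
  rw [Finset.sum_range_diag_flip (n + 1) F]
  refine Finset.sum_congr rfl fun a ha => ?_
  have ha' : a ≤ n := Nat.lt_succ_iff.mp (mem_range.mp ha)
  rw [show n + 1 - a = n - a + 1 by omega]

theorem tri1 (n : ℕ) (F : ℕ → ℕ → ℝ) :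
    ∑ a ∈ range (n + 1), ∑ i ∈ range (a + 1), F i (n - a) =
      ∑ m ∈ range (n + 1), ∑ a ∈ range (m + 1), F a (m - a) := by
  have h1 : ∑ a ∈ range (n + 1), ∑ i ∈ range (a + 1), F i (n - a) =
      ∑ b ∈ range (n + 1), ∑ i ∈ range (n - b + 1), F i b := by
    rw [← Finset.sum_range_reflect]
    refine Finset.sum_congr rfl fun b hb => ?_
    have hb' : b ≤ n := Nat.lt_succ_iff.mp (mem_range.mp hb)
    rw [show n + 1 - 1 - b = n - b by omega, show n - (n - b) = b by omega]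
  rw [h1, tri2 n (fun b i => F i b)]
  refine Finset.sum_congr rfl fun m _ => ?_
  rw [← Finset.sum_range_reflect]
  refine Finset.sum_congr rfl fun a ha => ?_
  have ha' : a ≤ m := Nat.lt_succ_iff.mp (mem_range.mp ha)
  rw [show m + 1 - 1 - a = m - a by omega, show m - (m - a) = a by omega]

/-- the abstract parity identity -/
theorem odd_sum (n : ℕ) (hn : Odd n) (z : ℕ → ℕ → ℝ) (w : ℕ → ℝ)
    (hz : ∀ a b : ℕ, a + b = n →
      ∑ i ∈ range (a + 1), (-1 : ℝ) ^ i * z i b / w (a - i) =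
        ∑ j ∈ range (b + 1), (-1 : ℝ) ^ j * z a j / w (b - j)) :
    ∑ m ∈ range (n + 1), (-1 : ℝ) ^ m * (∑ a ∈ range (m + 1), z a (m - a)) / w (n - m) = 0 := by
  set F : ℕ → ℕ → ℝ := fun i j => (-1 : ℝ) ^ (i + j) * z i j / w (n - (i + j)) with hF
  have hS : ∑ m ∈ range (n + 1), (-1 : ℝ) ^ m * (∑ a ∈ range (m + 1), z a (m - a)) / w (n - m) =
      ∑ m ∈ range (n + 1), ∑ a ∈ range (m + 1), F a (m - a) := by
    refine Finset.sum_congr rfl fun m _ => ?_
    rw [Finset.mul_sum, Finset.sum_div]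
    refine Finset.sum_congr rfl fun a ha => ?_
    have ha' : a ≤ m := Nat.lt_succ_iff.mp (mem_range.mp ha)
    simp only [hF]
    rw [show a + (m - a) = m by omega]
  have hA : ∀ a ∈ range (n + 1), ∑ i ∈ range (a + 1), F i (n - a) =
      - ∑ j ∈ range (n - a + 1), F a j := by
    intro a ha
    have ha' : a ≤ n := Nat.lt_succ_iff.mp (mem_range.mp ha)
    have h0 := hz a (n - a) (by omega)
    have hs : (-1 : ℝ) ^ (n - a) = - (-1 : ℝ) ^ a := by
      have h1 : (-1 : ℝ) ^ (n - a) * (-1 : ℝ) ^ a = -1 := by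
        rw [← pow_add, show n - a + a = n by omega]
        exact hn.neg_one_pow
      have h2 : (-1 : ℝ) ^ a * (-1 : ℝ) ^ a = 1 := by
        rw [← mul_pow]; simp
      calc (-1 : ℝ) ^ (n - a) = (-1 : ℝ) ^ (n - a) * ((-1 : ℝ) ^ a * (-1 : ℝ) ^ a) := by
            rw [h2, mul_one]
        _ = - (-1 : ℝ) ^ a := by rw [← mul_assoc, h1]; ring
    have l1 : ∑ i ∈ range (a + 1), F i (n - a) =
        (-1 : ℝ) ^ (n - a) * ∑ i ∈ range (a + 1), (-1 : ℝ) ^ i * z i (n - a) / w (a - i) := by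
      rw [Finset.mul_sum]
      refine Finset.sum_congr rfl fun i hi => ?_
      have hi' : i ≤ a := Nat.lt_succ_iff.mp (mem_range.mp hi)
      simp only [hF]
      rw [show n - (i + (n - a)) = a - i by omega, pow_add]
      ring
    have l2 : ∑ j ∈ range (n - a + 1), F a j =
        (-1 : ℝ) ^ a * ∑ j ∈ range (n - a + 1), (-1 : ℝ) ^ j * z a j / w (n - a - j) := by
      rw [Finset.mul_sum]
      refine Finset.sum_congr rfl fun j _ => ?_
      simp only [hF]
      rw [show n - (a + j) = n - a - j by omega, pow_add]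
      ring
    rw [l1, l2, h0, hs]
    ring
  have h1 := Finset.sum_congr rfl hA
  rw [Finset.sum_neg_distrib, tri1 n F, tri2 n F] at h1
  rw [hS]
  linarith

theorem uu_bound {k h f : ℕ} {N : ℕ → ℕ → ℕ} (hB : BndA k h f N) (hk : 1 ≤ k) (hh : 1 ≤ h)
    {a b : ℕ} (ha : a ≤ k) (hb : b ≤ h) :
    uu k h f N a b ≤ 4 * ((a + b : ℕ) : ℝ) * uu k h f N 1 1 := by
  have hf := f_pos hB
  have d1 := den_pos hf hk hh
  have hp : (0 : ℝ) < (dfc k h f N 1 1 : ℝ) := by exact_mod_cast hB.pos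
  have hη : 0 < uu k h f N 1 1 := div_pos hp d1
  rcases a with _ | a
  · have : uu k h f N 0 b = 0 := by
      unfold uu; rw [hB.zero_left b hb]; simp
    rw [this]; positivity
  rcases b with _ | b
  · have : uu k h f N (a + 1) 0 = 0 := by
      unfold uu; rw [hB.zero_right _ ha]; simp
    rw [this]; positivity
  have d2 := den_pos hf ha hb
  have hu := hB.upper a b ha hb
  have hu' : ((a + 1 : ℕ) : ℝ) * ((b + 2).choose 2 : ℝ) * (dfc k h f N (a + 1) (b + 1) : ℝ) ≤
      4 * ((a + b + 2 : ℕ) : ℝ) * ((k - 1).choose a : ℝ) * ((h - 1).choose b : ℝ) *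
        (dfc k h f N 1 1 : ℝ) := by
    exact_mod_cast hu
  have c1 : k.choose (a + 1) * (a + 1).choose 1 = k.choose 1 * (k - 1).choose (a + 1 - 1) :=
    Nat.choose_mul (by omega)
  have c2 : (h + 1).choose (b + 2) * (b + 2).choose 2 =
      (h + 1).choose 2 * (h + 1 - 2).choose (b + 2 - 2) := Nat.choose_mul (by omega)
  rw [Nat.choose_one_right (a + 1), show a + 1 - 1 = a by omega] at c1
  rw [show h + 1 - 2 = h - 1 by omega, show b + 2 - 2 = b by omega] at c2
  have c1' : (k.choose (a + 1) : ℝ) * ((a + 1 : ℕ) : ℝ) =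
      (k.choose 1 : ℝ) * ((k - 1).choose a : ℝ) := by exact_mod_cast c1
  have c2' : ((h + 1).choose (b + 2) : ℝ) * ((b + 2).choose 2 : ℝ) =
      ((h + 1).choose 2 : ℝ) * ((h - 1).choose b : ℝ) := by exact_mod_cast c2
  have q1 : (0 : ℝ) < ((a + 1 : ℕ) : ℝ) := by positivity
  have q2 : (0 : ℝ) < ((b + 2).choose 2 : ℝ) := by
    exact_mod_cast Nat.choose_pos (by omega)
  have q3 : (0 : ℝ) < (k.choose 1 : ℝ) := by exact_mod_cast Nat.choose_pos hk
  have q4 : (0 : ℝ) < ((h + 1).choose 2 : ℝ) := by exact_mod_cast Nat.choose_pos (by omega)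
  have q5 : (0 : ℝ) < (f : ℝ) := by exact_mod_cast hf
  have key : (dfc k h f N (a + 1) (b + 1) : ℝ) * ((k.choose 1 : ℝ) * ((h + 1).choose 2 : ℝ)) ≤
      4 * ((a + b + 2 : ℕ) : ℝ) * (dfc k h f N 1 1 : ℝ) *
        ((k.choose (a + 1) : ℝ) * ((h + 1).choose (b + 2) : ℝ)) := by
    have h3 := mul_le_mul_of_nonneg_right hu' (mul_pos q3 q4).le
    refine le_of_mul_le_mul_left ?_ (mul_pos q1 q2)
    calc ((a + 1 : ℕ) : ℝ) * ((b + 2).choose 2 : ℝ) * ((dfc k h f N (a + 1) (b + 1) : ℝ) *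
          ((k.choose 1 : ℝ) * ((h + 1).choose 2 : ℝ)))
        = ((a + 1 : ℕ) : ℝ) * ((b + 2).choose 2 : ℝ) * (dfc k h f N (a + 1) (b + 1) : ℝ) *
          ((k.choose 1 : ℝ) * ((h + 1).choose 2 : ℝ)) := by ring
      _ ≤ _ := h3
      _ = 4 * ((a + b + 2 : ℕ) : ℝ) * (dfc k h f N 1 1 : ℝ) *
          (((k.choose 1 : ℝ) * ((k - 1).choose a : ℝ)) *
            (((h + 1).choose 2 : ℝ) * ((h - 1).choose b : ℝ))) := by ring
      _ = _ := by rw [← c1', ← c2']; ring
  unfold uu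
  rw [show a + 1 + (b + 1) = a + b + 2 by omega, ← mul_div_assoc, div_le_div_iff₀ d2 d1]
  have h4 := mul_le_mul_of_nonneg_left key q5.le
  calc (dfc k h f N (a + 1) (b + 1) : ℝ) * ((f : ℝ) * (k.choose 1 : ℝ) * ((h + 1).choose (1 + 1) : ℝ))
      = (f : ℝ) * ((dfc k h f N (a + 1) (b + 1) : ℝ) *
          ((k.choose 1 : ℝ) * ((h + 1).choose 2 : ℝ))) := by ring
    _ ≤ _ := h4
    _ = _ := by ring

end CArith

open CArith in
theorem arithS : ArithS := by
  intro K k h f N hK hk hh hE hB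
  have hf := f_pos hB
  have hk1 : 1 ≤ k := by omega
  have hh1 : 1 ≤ h := by omega
  have hp : (0 : ℝ) < (dfc k h f N 1 1 : ℝ) := by exact_mod_cast hB.pos
  have hη : 0 < uu k h f N 1 1 := div_pos hp (den_pos hf hk1 hh1)
  have zl : ∀ b, b ≤ h → uu k h f N 0 b = 0 := fun b hb => by
    unfold uu; rw [hB.zero_left b hb]; simp
  have zr : ∀ a, a ≤ k → uu k h f N a 0 = 0 := fun a ha => by
    unfold uu; rw [hB.zero_right a ha]; simp
  refine ⟨sqn k h f N, rfl, ?_, ?_, ?_, ?_, ?_⟩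
  · simp [sqn, zl 0 (by omega)]
  · simp [sqn, Finset.sum_range_succ, zl 1 (by omega), zr 1 (by omega)]
  · simp [sqn, Finset.sum_range_succ, zl 2 (by omega), zr 2 (by omega), hη.ne']
  · intro m hm
    rcases m with _ | n
    · simp [sqn]
    have hn : n ≤ K := by omega
    constructor
    · refine div_nonneg (Finset.sum_nonneg fun a ha => ?_) hη.le
      have ha' : a ≤ n := Nat.lt_succ_iff.mp (mem_range.mp ha)
      have h0 : (0 : ℝ) ≤ (dfc k h f N a (n - a) : ℝ) := by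
        exact_mod_cast hB.nonneg a (n - a) (by omega) (by omega)
      exact div_nonneg h0 (den_pos hf (by omega) (by omega)).le
    · have h1 : ∑ a ∈ range (n + 1), uu k h f N a (n - a) ≤
          ∑ _a ∈ range (n + 1), 4 * (n : ℝ) * uu k h f N 1 1 := by
        refine Finset.sum_le_sum fun a ha => ?_
        have ha' : a ≤ n := Nat.lt_succ_iff.mp (mem_range.mp ha)
        have h2 := uu_bound hB hk1 hh1 (show a ≤ k by omega) (show n - a ≤ h by omega)
        rwa [show a + (n - a) = n by omega] at h2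
      rw [Finset.sum_const, card_range, nsmul_eq_mul] at h1
      simp only [sqn]
      rw [div_le_iff₀ hη]
      refine h1.trans ?_
      push_cast
      have hn0 : (0 : ℝ) ≤ n := by positivity
      nlinarith [mul_nonneg hn0 hη.le]
  · intro M hM hev
    rcases M with _ | n
    · simp [sqn]
    have hn : n ≤ K := by omega
    have hodd : Odd n := by
      rcases Nat.even_or_odd n with h1 | h1
      · exact absurd hev (Nat.not_even_iff_odd.mpr h1.add_one)
      · exact h1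
    have hn0 : n ≠ 0 := by
      rintro rfl
      exact absurd hodd (by decide)
    have hS := odd_sum n hodd (zz k h f N) (fun m => (m.factorial : ℝ))
      (fun a b hab => eul_z hE (by omega) (by omega))
    have hA : ∑ m ∈ range (n + 1), (-1 : ℝ) ^ m * (n.choose m : ℝ) = 0 := by
      exact_mod_cast Int.alternating_sum_range_choose_of_ne hn0
    rw [Finset.sum_range_succ']
    have h0 : (-1 : ℝ) ^ 0 * ((n + 1).choose 0 : ℝ) * sqn k h f N 0 = 0 := by simp [sqn]
    rw [h0, add_zero]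
    have hT : ∀ m ∈ range (n + 1),
        (-1 : ℝ) ^ (m + 1) * ((n + 1).choose (m + 1) : ℝ) * sqn k h f N (m + 1) =
          (-((n : ℝ) + 1) * ((-1 : ℝ) ^ m * (n.choose m : ℝ)) + ((n + 1).factorial : ℝ) *
            ((-1 : ℝ) ^ m * (∑ a ∈ range (m + 1), zz k h f N a (m - a)) /
              ((n - m).factorial : ℝ))) / uu k h f N 1 1 := by
      intro m hm
      have hm' : m ≤ n := Nat.lt_succ_iff.mp (mem_range.mp hm)
      have e1 : ∑ a ∈ range (m + 1), uu k h f N a (m - a) =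
          ((m : ℝ) + 1) - ((m + 1).factorial : ℝ) * ∑ a ∈ range (m + 1), zz k h f N a (m - a) := by
        have e0 : ∀ a ∈ range (m + 1), uu k h f N a (m - a) =
            1 - ((m + 1).factorial : ℝ) * zz k h f N a (m - a) := by
          intro a ha
          have ha' : a ≤ m := Nat.lt_succ_iff.mp (mem_range.mp ha)
          have := one_sub N hf (show a ≤ k by omega) (show m - a ≤ h by omega)
          rwa [show a + (m - a) = m by omega] at this
        rw [Finset.sum_congr rfl e0, Finset.sum_sub_distrib, Finset.mul_sum]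
        simp
      have e2 : ((n : ℝ) + 1) * (n.choose m : ℝ) = ((n + 1).choose (m + 1) : ℝ) * ((m : ℝ) + 1) := by
        exact_mod_cast Nat.add_one_mul_choose_eq n m
      have e3 : ((n + 1).choose (m + 1) : ℝ) * ((m + 1).factorial : ℝ) =
          ((n + 1).factorial : ℝ) / ((n - m).factorial : ℝ) := by
        have e4 := Nat.cast_choose ℝ (Nat.succ_le_succ hm')
        rw [Nat.succ_sub_succ] at e4
        have p1 := fac_pos (m + 1)
        have p2 := fac_pos (n - m)
        simp only [Nat.succ_eq_add_one] at e4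
        rw [e4]
        field_simp
      simp only [sqn]
      rw [e1, ← mul_div_assoc]
      congr 1
      calc (-1 : ℝ) ^ (m + 1) * ((n + 1).choose (m + 1) : ℝ) * (((m : ℝ) + 1) -
            ((m + 1).factorial : ℝ) * ∑ a ∈ range (m + 1), zz k h f N a (m - a))
          = -((-1 : ℝ) ^ m * (((n + 1).choose (m + 1) : ℝ) * ((m : ℝ) + 1))) +
            (-1 : ℝ) ^ m * (((n + 1).choose (m + 1) : ℝ) * ((m + 1).factorial : ℝ)) *
              ∑ a ∈ range (m + 1), zz k h f N a (m - a) := by ring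
        _ = _ := by rw [← e2, e3]; ring
    rw [Finset.sum_congr rfl hT, ← Finset.sum_div, Finset.sum_add_distrib, ← Finset.mul_sum,
      ← Finset.mul_sum, hA, hS]
    simp

end KHPoly
end
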