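import Pool.Agent.Lib.MP_bfa8dc_co.CEul

-- part Pool.Agent.Lib.MP_bfa8dc_co.AComp
section

/-! Compactness: finite sequences `Seq K` for all `K` give an infinite sequence. -/

set_option autoImplicit false

namespace KHPoly

open Finset

namespace AComp

/-- the box of sequences with quadratic bounds -/
def box : Set (ℕ → ℝ) := Set.pi Set.univ (fun m : ℕ => Set.Icc (0 : ℝ) (4 * (m : ℝ) ^ 2))

/-- the closed sets -/
def cs (K : ℕ) : Set (ℕ → ℝ) := {a | Seq (K + 2) a} ∩ box

theorem seq_mono {K K' : ℕ} {a : ℕ → ℝ} (h : Seq K' a) (hK : K ≤ K') : Seq K a :=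
  ⟨h.z0, h.z1, h.z2, h.z3, fun m hm => h.bd m (by omega), fun M hM hE => h.ev M (by omega) hE⟩

theorem box_compact : IsCompact box := isCompact_univ_pi (fun _ => isCompact_Icc)

theorem seq_closed (K : ℕ) : IsClosed {a : ℕ → ℝ | Seq K a} := by
  have e : {a : ℕ → ℝ | Seq K a} =
      ({a | a 0 = 0} ∩ {a | a 1 = 0} ∩ {a | a 2 = 0} ∩ {a | a 3 = 1}) ∩
      ((⋂ m : ℕ, ⋂ (_ : m ≤ K + 1), ({a : ℕ → ℝ | 0 ≤ a m} ∩ {a | a m ≤ 4 * (m : ℝ) ^ 2})) ∩
      (⋂ M : ℕ, ⋂ (_ : M ≤ K + 1), ⋂ (_ : Even M),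
        {a : ℕ → ℝ | ∑ m ∈ range (M + 1), (-1 : ℝ) ^ m * (M.choose m : ℝ) * a m = 0})) := by
    ext a
    simp only [Set.mem_inter_iff, Set.mem_ofPred_eq, Set.mem_iInter]
    constructor
    · intro h
      exact ⟨⟨⟨⟨h.z0, h.z1⟩, h.z2⟩, h.z3⟩, h.bd, h.ev⟩
    · rintro ⟨⟨⟨⟨h0, h1⟩, h2⟩, h3⟩, h4, h5⟩
      exact ⟨h0, h1, h2, h3, h4, h5⟩
  rw [e]
  refine IsClosed.inter (IsClosed.inter (IsClosed.inter (IsClosed.inter ?_ ?_) ?_) ?_)
    (IsClosed.inter ?_ ?_)
  · exact isClosed_eq (continuous_apply 0) continuous_const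
  · exact isClosed_eq (continuous_apply 1) continuous_const
  · exact isClosed_eq (continuous_apply 2) continuous_const
  · exact isClosed_eq (continuous_apply 3) continuous_const
  · refine isClosed_iInter fun m => isClosed_iInter fun _ => IsClosed.inter ?_ ?_
    · exact isClosed_le continuous_const (continuous_apply m)
    · exact isClosed_le (continuous_apply m) continuous_const
  · refine isClosed_iInter fun M => isClosed_iInter fun _ => isClosed_iInter fun _ => ?_
    exact isClosed_eq (by fun_prop) continuous_const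

theorem cs_nonempty (h : ∀ K : ℕ, ∃ a : ℕ → ℝ, Seq K a) (K : ℕ) : (cs K).Nonempty := by
  obtain ⟨a, ha⟩ := h (K + 2)
  refine ⟨fun m => if m ≤ K + 3 then a m else 0, ⟨?_, ?_, ?_, ?_, ?_, ?_⟩, ?_⟩
  · rw [if_pos (by omega)]; exact ha.z0
  · rw [if_pos (by omega)]; exact ha.z1
  · rw [if_pos (by omega)]; exact ha.z2
  · rw [if_pos (by omega)]; exact ha.z3
  · intro m hm
    rw [if_pos (by omega)]; exact ha.bd m hm
  · intro M hM hE
    rw [← ha.ev M hM hE]
    refine Finset.sum_congr rfl fun m hm => ?_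
    rw [Finset.mem_range] at hm
    rw [if_pos (by omega)]
  · intro m _
    by_cases hm : m ≤ K + 3
    · simp only [if_pos hm]
      exact ha.bd m (by omega)
    · simp only [if_neg hm]
      exact ⟨le_refl _, by positivity⟩

end AComp

open AComp in
theorem compS : CompS := by
  intro h
  have hc : ∀ K, IsClosed (cs K) := fun K => (seq_closed _).inter box_compact.isClosed
  have h0 : IsCompact (cs 0) := box_compact.inter_left (seq_closed _)
  have hd : ∀ K, cs (K + 1) ⊆ cs K := fun K a ha => ⟨seq_mono ha.1 (by omega), ha.2⟩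
  obtain ⟨a, ha⟩ := IsCompact.nonempty_iInter_of_sequence_nonempty_isCompact_isClosed cs hd
    (cs_nonempty h) h0 hc
  refine ⟨a, fun K => ?_⟩
  exact seq_mono (Set.mem_iInter.1 ha K).1 (by omega)

end KHPoly
end

-- part Pool.Agent.Lib.MP_bfa8dc_co.ALiou
section

/-! A sequence of quadratic growth whose even differences at zero vanish is a polynomial of degree
at most five (Liouville argument); hence the infinite sequences of `SeqInf` do not exist. -/

set_option autoImplicit false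

namespace KHPoly.ALiou

open Finset Filter Topology Metric

/-- ordinary generating function -/
noncomputable def gf (A : ℕ → ℂ) (x : ℂ) : ℂ := ∑' m, A m * x ^ m

/-- Euler transform of the generating function -/
noncomputable def ef (A : ℕ → ℂ) (z : ℂ) : ℂ := gf A (z / (1 + z)) / (1 + z)

/-- differences at zero -/
noncomputable def df (A : ℕ → ℂ) (r : ℕ) : ℂ :=
  ∑ p ∈ antidiagonal r, A p.1 * (((p.2 + p.1).choose p.1 : ℂ) * (-1) ^ p.2)

theorem maj_hasSum {r : ℝ} (h0 : 0 ≤ r) (h1 : r < 1) :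
    HasSum (fun m : ℕ => 8 * (((m + 2).choose 2 : ℝ) * r ^ m)) (8 * (1 / (1 - r) ^ 3)) := by
  have h : ‖r‖ < 1 := by rw [Real.norm_eq_abs, abs_of_nonneg h0]; exact h1
  exact (hasSum_choose_mul_geometric_of_norm_lt_one 2 h).mul_left 8

variable {A : ℕ → ℂ}

theorem term_le (hb : ∀ m, ‖A m‖ ≤ 8 * ((m + 2).choose 2 : ℝ)) {x : ℂ} {r : ℝ} (hx : ‖x‖ ≤ r)
    (m : ℕ) : ‖A m * x ^ m‖ ≤ 8 * (((m + 2).choose 2 : ℝ) * r ^ m) := by
  rw [norm_mul, norm_pow, ← mul_assoc]
  exact mul_le_mul (hb m) (pow_le_pow_left₀ (norm_nonneg _) hx m) (by positivity) (by positivity)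

theorem gf_summable (hb : ∀ m, ‖A m‖ ≤ 8 * ((m + 2).choose 2 : ℝ)) {x : ℂ} (hx : ‖x‖ < 1) :
    Summable (fun m => A m * x ^ m) :=
  Summable.of_norm_bounded (maj_hasSum (norm_nonneg x) hx).summable (term_le hb le_rfl)

theorem gf_le (hb : ∀ m, ‖A m‖ ≤ 8 * ((m + 2).choose 2 : ℝ)) {x : ℂ} (hx : ‖x‖ < 1) :
    ‖gf A x‖ ≤ 8 * (1 / (1 - ‖x‖) ^ 3) :=
  tsum_of_norm_bounded (maj_hasSum (norm_nonneg x) hx) (term_le hb le_rfl)

theorem gf_diff (hb : ∀ m, ‖A m‖ ≤ 8 * ((m + 2).choose 2 : ℝ)) {x : ℂ} (hx : ‖x‖ < 1) :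
    DifferentiableAt ℂ (gf A) x := by
  obtain ⟨ρ, h1, h2⟩ := exists_between hx
  have h0 : 0 ≤ ρ := (norm_nonneg x).trans h1.le
  have hd : DifferentiableOn ℂ (fun w : ℂ => ∑' m, A m * w ^ m) (ball 0 ρ) := by
    refine Complex.differentiableOn_tsum_of_summable_norm (maj_hasSum h0 h2).summable
      (fun m => ?_) isOpen_ball (fun m w hw => term_le hb ?_ m)
    · fun_prop
    · exact (mem_ball_zero_iff.1 hw).le
  exact hd.differentiableAt (isOpen_ball.mem_nhds (mem_ball_zero_iff.2 h1))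

theorem normSq_one_add (z : ℂ) : ‖1 + z‖ ^ 2 = 1 + 2 * z.re + ‖z‖ ^ 2 := by
  rw [Complex.sq_norm, Complex.sq_norm, Complex.normSq_apply, Complex.normSq_apply]
  simp only [Complex.add_re, Complex.one_re, Complex.add_im, Complex.one_im]
  ring

theorem norm_lt_of_re {z : ℂ} (hz : -1 / 2 < z.re) : ‖z‖ < ‖1 + z‖ := by
  have h := normSq_one_add z
  have h1 : ‖z‖ ^ 2 < ‖1 + z‖ ^ 2 := by linarith
  exact lt_of_pow_lt_pow_left₀ 2 (norm_nonneg _) h1

theorem one_add_ne {z : ℂ} (hz : -1 / 2 < z.re) : 1 + z ≠ 0 := by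
  have h := norm_lt_of_re hz
  exact norm_pos_iff.1 ((norm_nonneg z).trans_lt h)

theorem quot_lt {z : ℂ} (hz : -1 / 2 < z.re) : ‖z / (1 + z)‖ < 1 := by
  have h := norm_lt_of_re hz
  rw [norm_div, div_lt_one ((norm_nonneg z).trans_lt h)]
  exact h

theorem ef_diff (hb : ∀ m, ‖A m‖ ≤ 8 * ((m + 2).choose 2 : ℝ)) {z : ℂ} (hz : -1 / 2 < z.re) :
    DifferentiableAt ℂ (ef A) z := by
  have h1 : DifferentiableAt ℂ (fun w : ℂ => 1 + w) z := by fun_prop
  have h2 : DifferentiableAt ℂ (fun w : ℂ => w / (1 + w)) z :=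
    differentiableAt_id.div h1 (one_add_ne hz)
  exact ((gf_diff hb (quot_lt hz)).comp z h2).div h1 (one_add_ne hz)

theorem ef_le (hb : ∀ m, ‖A m‖ ≤ 8 * ((m + 2).choose 2 : ℝ)) {z : ℂ} (hz : 0 ≤ z.re) :
    ‖ef A z‖ ≤ 64 * (1 + ‖z‖) ^ 6 := by
  have hz' : -1 / 2 < z.re := by linarith
  have hq := quot_lt hz'
  have hg := gf_le hb hq
  have hs := normSq_one_add z
  set s := ‖1 + z‖ with hsdef
  set t := ‖z‖ with htdef
  have ht0 : 0 ≤ t := norm_nonneg _
  have hs0 : 0 ≤ s := norm_nonneg _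
  have hs1 : 1 ≤ s := by
    have : (1 : ℝ) ^ 2 ≤ s ^ 2 := by nlinarith [sq_nonneg t]
    exact le_of_sq_le_sq this hs0 |>.trans le_rfl
  have hts : t < s := norm_lt_of_re hz'
  have hst : s ≤ 1 + t := by
    have := norm_add_le (1 : ℂ) z
    simpa using this
  have hspos : 0 < s := by linarith
  have hx : ‖z / (1 + z)‖ = t / s := norm_div _ _
  rw [hx] at hg hq
  -- 1 - t/s ≥ 1 / (2 s^2)
  have hlow : 1 / (2 * s ^ 2) ≤ 1 - t / s := by
    rw [div_le_iff₀ (by positivity)]
    have e : (1 - t / s) * (2 * s ^ 2) = (s - t) * (2 * s) := by field_simp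
    rw [e]
    nlinarith
  have hpos : 0 < 1 / (2 * s ^ 2) := by positivity
  have h3 : 1 / (1 - t / s) ^ 3 ≤ 8 * s ^ 6 := by
    calc 1 / (1 - t / s) ^ 3 ≤ 1 / (1 / (2 * s ^ 2)) ^ 3 :=
          one_div_le_one_div_of_le (pow_pos hpos 3) (pow_le_pow_left₀ hpos.le hlow 3)
      _ = 8 * s ^ 6 := by field_simp; ring
  have h4 : ‖ef A z‖ ≤ ‖gf A (z / (1 + z))‖ := by
    unfold ef
    rw [norm_div]
    exact div_le_self (norm_nonneg _) hs1
  have h5 : s ^ 6 ≤ (1 + t) ^ 6 := pow_le_pow_left₀ hs0 hst 6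
  linarith

theorem ef_hasSum (hb : ∀ m, ‖A m‖ ≤ 8 * ((m + 2).choose 2 : ℝ)) {z : ℂ} (hz : ‖z‖ < 1 / 2) :
    HasSum (fun r => df A r * z ^ r) (ef A z) := by
  have hz1 : ‖z‖ < 1 := by linarith
  have hre : -1 / 2 < z.re := by
    have := Complex.abs_re_le_norm z
    have := neg_abs_le z.re
    linarith
  set T : ℕ × ℕ → ℂ := fun p => A p.1 * z ^ p.1 * (((p.2 + p.1).choose p.1 : ℂ) * (-z) ^ p.2)
    with hT
  have hn : ‖‖z‖‖ < 1 := by rwa [norm_norm]
  have hrow : ∀ m : ℕ, HasSum (fun k => ‖T (m, k)‖)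
      (‖A m‖ * ‖z‖ ^ m * (1 / (1 - ‖z‖) ^ (m + 1))) := by
    intro m
    have := (hasSum_choose_mul_geometric_of_norm_lt_one m hn).mul_left (‖A m‖ * ‖z‖ ^ m)
    have e : (fun k => ‖T (m, k)‖) =
        fun k => ‖A m‖ * ‖z‖ ^ m * (((k + m).choose m : ℝ) * ‖z‖ ^ k) := by
      funext k
      simp [hT, norm_pow]
    rw [e]; exact this
  have hd : 0 < 1 - ‖z‖ := by linarith
  have hq0 : 0 ≤ ‖z‖ / (1 - ‖z‖) := div_nonneg (norm_nonneg _) hd.le
  have hq1 : ‖z‖ / (1 - ‖z‖) < 1 := by rw [div_lt_one hd]; linarith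
  have hsum : Summable T := by
    refine Summable.of_norm ((summable_prod_of_nonneg (fun p => norm_nonneg _)).2
      ⟨fun m => (hrow m).summable, ?_⟩)
    simp only [fun m => (hrow m).tsum_eq]
    refine Summable.of_nonneg_of_le (fun m => by positivity) (fun m => ?_)
      ((maj_hasSum hq0 hq1).summable.mul_right (1 / (1 - ‖z‖)))
    have e : ‖A m‖ * ‖z‖ ^ m * (1 / (1 - ‖z‖) ^ (m + 1)) =
        ‖A m‖ * (‖z‖ / (1 - ‖z‖)) ^ m * (1 / (1 - ‖z‖)) := by
      rw [div_pow]; field_simp; ring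
    rw [e]
    refine mul_le_mul_of_nonneg_right ?_ (by positivity)
    rw [← mul_assoc]
    exact mul_le_mul_of_nonneg_right (hb m) (pow_nonneg hq0 m)
  have hrow' : ∀ m : ℕ, HasSum (fun k => T (m, k)) (A m * (z / (1 + z)) ^ m / (1 + z)) := by
    intro m
    have hnz : ‖-z‖ < 1 := by rwa [norm_neg]
    have := (hasSum_choose_mul_geometric_of_norm_lt_one m hnz).mul_left (A m * z ^ m)
    have h1 := one_add_ne hre
    have e : A m * (z / (1 + z)) ^ m / (1 + z) = A m * z ^ m * (1 / (1 - -z) ^ (m + 1)) := by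
      rw [sub_neg_eq_add, div_pow]
      field_simp
      ring
    rw [e]; exact this
  have h1 : HasSum (fun m => A m * (z / (1 + z)) ^ m / (1 + z)) (∑' p, T p) :=
    hsum.hasSum.prod_fiberwise hrow'
  have h2 : HasSum (fun m => A m * (z / (1 + z)) ^ m / (1 + z)) (ef A z) :=
    (gf_summable hb (quot_lt hre)).hasSum.div_const (1 + z)
  have h3 : HasSum T (ef A z) := by
    rw [← h1.unique h2]; exact hsum.hasSum
  have h4 := (Finset.HasAntidiagonal.sigmaAntidiagonalEquivProd (A := ℕ)).hasSum_iff.2 h3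
  refine h4.sigma (fun r => ?_)
  have h5 := hasSum_fintype (fun c : antidiagonal r =>
    (T ∘ Finset.HasAntidiagonal.sigmaAntidiagonalEquivProd (A := ℕ)) ⟨r, c⟩)
  convert h5 using 1
  unfold df
  rw [Finset.sum_mul, ← Finset.sum_finset_coe]
  refine Finset.sum_congr rfl (fun c _ => ?_)
  have hc : c.1.1 + c.1.2 = r := mem_antidiagonal.1 c.2
  have e : z ^ r = z ^ c.1.1 * z ^ c.1.2 := by rw [← pow_add, hc]
  simp only [Function.comp, hT, Finset.HasAntidiagonal.sigmaAntidiagonalEquivProd_apply]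
  rw [e, neg_pow z]
  ring

theorem ef_odd_near (hb : ∀ m, ‖A m‖ ≤ 8 * ((m + 2).choose 2 : ℝ))
    (he : ∀ r, Even r → df A r = 0) {z : ℂ} (hz : ‖z‖ < 1 / 2) : ef A z = -ef A (-z) := by
  have h1 := ef_hasSum hb hz
  have h2 := (ef_hasSum hb (z := -z) (by rwa [norm_neg])).neg
  have e : (fun r => -(df A r * (-z) ^ r)) = fun r => df A r * z ^ r := by
    funext r
    rcases Nat.even_or_odd r with h | h
    · simp [he r h]
    · rw [h.neg_pow]; ring
  rw [e] at h2
  exact h1.unique h2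

theorem ef_odd (hb : ∀ m, ‖A m‖ ≤ 8 * ((m + 2).choose 2 : ℝ))
    (he : ∀ r, Even r → df A r = 0) {z : ℂ} (h1 : -1 / 2 < z.re) (h2 : z.re < 1 / 2) :
    ef A z = -ef A (-z) := by
  set U : Set ℂ := {w | -1 / 2 < w.re} ∩ {w | w.re < 1 / 2} with hU
  have hUo : IsOpen U :=
    (isOpen_lt continuous_const Complex.continuous_re).inter
      (isOpen_lt Complex.continuous_re continuous_const)
  have hUc : IsPreconnected U :=
    ((convex_halfSpace_re_gt (-1 / 2)).inter (convex_halfSpace_re_lt (1 / 2))).isPreconnected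
  have hf : DifferentiableOn ℂ (ef A) U := fun w hw => (ef_diff hb hw.1).differentiableWithinAt
  have hg : DifferentiableOn ℂ (fun w => -ef A (-w)) U := by
    intro w hw
    have hw' : -1 / 2 < (-w).re := by
      have : w.re < 1 / 2 := hw.2
      rw [Complex.neg_re]; linarith
    exact (((ef_diff hb hw').comp w differentiableAt_id.neg).neg).differentiableWithinAt
  have h0 : (0 : ℂ) ∈ U := by
    constructor
    · change -1 / 2 < (0 : ℂ).re
      norm_num
    · change (0 : ℂ).re < 1 / 2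
      norm_num
  have hev : ef A =ᶠ[𝓝 0] fun w => -ef A (-w) := by
    filter_upwards [ball_mem_nhds (0 : ℂ) (by norm_num : (0 : ℝ) < 1 / 2)] with w hw
    exact ef_odd_near hb he (mem_ball_zero_iff.1 hw)
  exact (hf.analyticOnNhd hUo).eqOn_of_preconnected_of_eventuallyEq (hg.analyticOnNhd hUo) hUc h0
    hev ⟨h1, h2⟩

open Classical in
/-- the entire extension -/
noncomputable def ent (A : ℕ → ℂ) (z : ℂ) : ℂ := if 0 ≤ z.re then ef A z else -ef A (-z)

theorem ent_right (hb : ∀ m, ‖A m‖ ≤ 8 * ((m + 2).choose 2 : ℝ))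
    (he : ∀ r, Even r → df A r = 0) {z : ℂ} (h1 : -1 / 2 < z.re) : ent A z = ef A z := by
  unfold ent
  split_ifs with h
  · rfl
  · exact (ef_odd hb he h1 (by linarith [not_le.1 h])).symm

theorem ent_left (hb : ∀ m, ‖A m‖ ≤ 8 * ((m + 2).choose 2 : ℝ))
    (he : ∀ r, Even r → df A r = 0) {z : ℂ} (h1 : z.re < 1 / 2) : ent A z = -ef A (-z) := by
  unfold ent
  split_ifs with h
  · exact ef_odd hb he (by linarith) h1
  · rfl

theorem ent_diff (hb : ∀ m, ‖A m‖ ≤ 8 * ((m + 2).choose 2 : ℝ))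
    (he : ∀ r, Even r → df A r = 0) : Differentiable ℂ (ent A) := by
  intro z
  rcases le_total 0 z.re with h | h
  · have hz : -1 / 2 < z.re := by linarith
    refine (ef_diff hb hz).congr_of_eventuallyEq ?_
    filter_upwards [(isOpen_lt continuous_const Complex.continuous_re).mem_nhds hz] with w hw
    exact ent_right hb he hw
  · have hz : z.re < 1 / 2 := by linarith
    have hz' : -1 / 2 < (-z).re := by rw [Complex.neg_re]; linarith
    refine (((ef_diff hb hz').comp z differentiableAt_id.neg).neg).congr_of_eventuallyEq ?_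
    filter_upwards [(isOpen_lt Complex.continuous_re continuous_const).mem_nhds hz] with w hw
    exact ent_left hb he hw

theorem ent_le (hb : ∀ m, ‖A m‖ ≤ 8 * ((m + 2).choose 2 : ℝ)) (z : ℂ) :
    ‖ent A z‖ ≤ 64 * (1 + ‖z‖) ^ 6 := by
  unfold ent
  split_ifs with h
  · exact ef_le hb h
  · have hz : 0 ≤ (-z).re := by rw [Complex.neg_re]; linarith [not_le.1 h]
    have := ef_le hb hz
    rwa [norm_neg, ← norm_neg] at this

theorem df_eq (hb : ∀ m, ‖A m‖ ≤ 8 * ((m + 2).choose 2 : ℝ))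
    (he : ∀ r, Even r → df A r = 0) (r : ℕ) :
    df A r = iteratedDeriv r (ent A) 0 / r.factorial := by
  have h1 : HasFPowerSeriesAt (ent A) (FormalMultilinearSeries.ofScalars ℂ (df A)) 0 := by
    rw [hasFPowerSeriesAt_iff]
    filter_upwards [ball_mem_nhds (0 : ℂ) (by norm_num : (0 : ℝ) < 1 / 2)] with w hw
    have hw' := mem_ball_zero_iff.1 hw
    have hre : -1 / 2 < w.re := by
      have := Complex.abs_re_le_norm w
      have := neg_abs_le w.re
      linarith
    rw [zero_add, ent_right hb he hre]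
    simpa [FormalMultilinearSeries.coeff_ofScalars, mul_comm] using ef_hasSum hb hw'
  have h2 := ((ent_diff hb he).analyticAt 0).hasFPowerSeriesAt
  have h3 := h1.eq_formalMultilinearSeries h2
  have h4 := congrArg (fun p : FormalMultilinearSeries ℂ ℂ ℂ => p.coeff r) h3
  simpa [FormalMultilinearSeries.coeff_ofScalars] using h4

theorem df_zero (hb : ∀ m, ‖A m‖ ≤ 8 * ((m + 2).choose 2 : ℝ))
    (he : ∀ r, Even r → df A r = 0) {r : ℕ} (hr : 7 ≤ r) : df A r = 0 := by
  have key : ∀ R : ℝ, 1 ≤ R → ‖df A r‖ ≤ 4096 / R := by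
    intro R hR
    have hR0 : 0 < R := by linarith
    have h1 := Complex.norm_iteratedDeriv_le_of_forall_mem_sphere_norm_le (c := 0) (R := R)
      (C := 4096 * R ^ 6) r hR0 (ent_diff hb he).diffContOnCl (fun z hz => by
        have hz' : ‖z‖ = R := mem_sphere_zero_iff_norm.1 hz
        have h2 := ent_le hb z
        rw [hz'] at h2
        have h3 : (1 + R) ^ 6 ≤ (2 * R) ^ 6 := pow_le_pow_left₀ (by linarith) (by linarith) 6
        have h4 : (2 * R) ^ 6 = 64 * R ^ 6 := by ring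
        linarith)
    have hf : (0 : ℝ) < r.factorial := by exact_mod_cast r.factorial_pos
    rw [df_eq hb he, norm_div, Complex.norm_natCast, div_le_iff₀ hf]
    refine h1.trans ?_
    have h5 : R ^ 7 ≤ R ^ r := pow_le_pow_right₀ hR hr
    calc (r.factorial : ℝ) * (4096 * R ^ 6) / R ^ r
        ≤ (r.factorial : ℝ) * (4096 * R ^ 6) / R ^ 7 :=
          div_le_div_of_nonneg_left (by positivity) (by positivity) h5
      _ = 4096 / R * r.factorial := by field_simp
  by_contra hne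
  have hp : 0 < ‖df A r‖ := norm_pos_iff.2 hne
  have h1 := key (1 + 4096 / ‖df A r‖) (by have : 0 ≤ 4096 / ‖df A r‖ := by positivity
                                           linarith)
  rw [le_div_iff₀ (by positivity)] at h1
  have e : ‖df A r‖ * (1 + 4096 / ‖df A r‖) = ‖df A r‖ + 4096 := by field_simp
  linarith

/-- real differences at zero -/
noncomputable def od (a : ℕ → ℝ) (r : ℕ) : ℝ := (fwdDiff 1)^[r] a 0

theorem od_eq (a : ℕ → ℝ) (r : ℕ) :
    od a r = ∑ m ∈ range (r + 1), (-1 : ℝ) ^ (r - m) * (r.choose m : ℝ) * a m := by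
  unfold od
  rw [fwdDiff_iter_eq_sum_shift]
  refine Finset.sum_congr rfl (fun m _ => ?_)
  simp

theorem df_ofReal (a : ℕ → ℝ) (r : ℕ) : df (fun m => (a m : ℂ)) r = (od a r : ℂ) := by
  unfold df
  rw [od_eq, Finset.Nat.sum_antidiagonal_eq_sum_range_succ_mk]
  push_cast
  refine Finset.sum_congr rfl (fun m hm => ?_)
  have h : m ≤ r := Nat.lt_succ_iff.1 (mem_range.1 hm)
  rw [Nat.sub_add_cancel h]
  ring

theorem newton (a : ℕ → ℝ) (n : ℕ) :
    a n = ∑ k ∈ range (n + 1), (n.choose k : ℝ) * od a k := by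
  have := shift_eq_sum_fwdDiff_iter (1 : ℕ) a n 0
  simpa [od] using this

end KHPoly.ALiou

namespace KHPoly

open Finset ALiou

theorem liouS : LiouS := by
  intro a ha
  have hbd : ∀ m : ℕ, 0 ≤ a m ∧ a m ≤ 4 * (m : ℝ) ^ 2 := fun m => (ha m).bd m (Nat.le_succ m)
  have hev : ∀ r, Even r → od a r = 0 := by
    intro r hr
    rw [od_eq, ← (ha r).ev r (Nat.le_succ r) hr]
    refine Finset.sum_congr rfl (fun m hm => ?_)
    have h : m ≤ r := Nat.lt_succ_iff.1 (mem_range.1 hm)
    have e : (-1 : ℝ) ^ (r - m) = (-1) ^ m := by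
      have h1 : (-1 : ℝ) ^ (r - m) * (-1) ^ m = 1 := by
        rw [← pow_add, Nat.sub_add_cancel h, hr.neg_one_pow]
      have h2 : (-1 : ℝ) ^ m * (-1) ^ m = 1 := by
        rw [← pow_add, ← two_mul, pow_mul]; simp
      calc (-1 : ℝ) ^ (r - m) = (-1) ^ (r - m) * ((-1) ^ m * (-1) ^ m) := by rw [h2, mul_one]
        _ = (-1) ^ m := by rw [← mul_assoc, h1, one_mul]
    rw [e]
  have hb : ∀ m, ‖((a m : ℝ) : ℂ)‖ ≤ 8 * ((m + 2).choose 2 : ℝ) := by
    intro m
    rw [Complex.norm_real, Real.norm_eq_abs, abs_of_nonneg (hbd m).1, Nat.cast_choose_two]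
    push_cast
    have := (hbd m).2
    have h0 : (0 : ℝ) ≤ m := Nat.cast_nonneg m
    nlinarith
  have he : ∀ r, Even r → df (fun m => (a m : ℂ)) r = 0 := by
    intro r hr
    rw [df_ofReal, hev r hr]; simp
  have h7 : ∀ r, 7 ≤ r → od a r = 0 := by
    intro r hr
    have := df_zero hb he hr
    rw [df_ofReal] at this
    exact_mod_cast this
  have h1 : od a 1 = 0 := by
    rw [od_eq]; simp [Finset.sum_range_succ, (ha 0).z0, (ha 0).z1]
  have h3 : od a 3 = 1 := by
    rw [od_eq]; simp [Finset.sum_range_succ, (ha 0).z0, (ha 0).z1, (ha 0).z2, (ha 0).z3]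
  have hform : ∀ n : ℕ, 7 ≤ n → a n = (n.choose 3 : ℝ) + (n.choose 5 : ℝ) * od a 5 := by
    intro n hn
    rw [newton a n, ← Finset.sum_range_add_sum_Ico _ (show 7 ≤ n + 1 by omega)]
    rw [Finset.sum_eq_zero (s := Ico 7 (n + 1))
      (fun k hk => by rw [h7 k (mem_Ico.1 hk).1, mul_zero])]
    simp [Finset.sum_range_succ, hev 0 (by decide), hev 2 (by decide), hev 4 (by decide),
      hev 6 (by decide), h1, h3]
  rcases le_or_gt 0 (od a 5) with h5 | h5
  · have h30 := hform 30 (by norm_num)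
    have hb30 := (hbd 30).2
    have e3 : (Nat.choose 30 3 : ℝ) = 4060 := by norm_num [Nat.choose]
    have e5 : (0 : ℝ) ≤ (Nat.choose 30 5 : ℝ) * od a 5 := mul_nonneg (Nat.cast_nonneg _) h5
    rw [e3] at h30
    push_cast at hb30
    linarith
  · obtain ⟨j, hj⟩ := exists_nat_gt (20 / (-od a 5))
    have hn := hform (j + 7) (by omega)
    have h0 := (hbd (j + 7)).1
    have e4 : ((j + 7).choose 4 : ℝ) * 4 = ((j + 7).choose 3 : ℝ) * (j + 4) := by
      have := Nat.choose_succ_right_eq (j + 7) 3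
      have e : j + 7 - 3 = j + 4 := by omega
      rw [e] at this
      exact_mod_cast this
    have e5 : ((j + 7).choose 5 : ℝ) * 5 = ((j + 7).choose 4 : ℝ) * (j + 3) := by
      have := Nat.choose_succ_right_eq (j + 7) 4
      have e : j + 7 - 4 = j + 3 := by omega
      rw [e] at this
      exact_mod_cast this
    have hc : (0 : ℝ) < ((j + 7).choose 3 : ℝ) := by
      exact_mod_cast Nat.choose_pos (by omega)
    have hj0 : (0 : ℝ) ≤ j := Nat.cast_nonneg j
    have hneg : 0 < -od a 5 := by linarith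
    rw [div_lt_iff₀ hneg] at hj
    have e : ((j + 7).choose 5 : ℝ) = ((j + 7).choose 3 : ℝ) * ((j + 4) * (j + 3) / 20) := by
      linarith [show ((j + 7).choose 5 : ℝ) * 5 * 4 = ((j + 7).choose 3 : ℝ) * (j + 4) * (j + 3)
        by rw [e5, mul_right_comm, e4]]
    rw [hn, e] at h0
    have h6 : 1 + ((j : ℝ) + 4) * (j + 3) / 20 * od a 5 < 0 := by
      have h8 : (j : ℝ) ≤ (j + 4) * (j + 3) := by nlinarith
      nlinarith
    nlinarith

end KHPoly
end

-- part Pool.Agent.Lib.MP_bfa8dc_co.GMono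
section

/-! Strict monotonicity of the rank on the face lattice of a finitely generated cone, and the
existence of intermediate faces. -/

set_option autoImplicit false

namespace KHPoly

open Finset

namespace GMono

variable {I V : Type} [Fintype I] [DecidableEq I] [AddCommGroup V] [Module ℝ V]

/-- a face of a face is a face -/
theorem face_of_face {v : I → V} {y : Finset I} (hy : IsFace v y) (ν : V →ₗ[ℝ] ℝ)
    (hν : ∀ i ∈ y, 0 ≤ ν (v i)) : IsFace v (y.filter (fun i => ν (v i) = 0)) := by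
  obtain ⟨l, h0, h1⟩ := hy
  set M : ℝ := 1 + ∑ j, |ν (v j)| / l (v j) with hM
  have hpos : ∀ i, i ∉ y → 0 < ν (v i) + M * l (v i) := by
    intro i hi
    have hl : 0 < l (v i) := lt_of_le_of_ne (h0 i) (fun h => hi ((h1 i).2 h.symm))
    have hle : |ν (v i)| / l (v i) ≤ ∑ j, |ν (v j)| / l (v j) :=
      Finset.single_le_sum (f := fun j => |ν (v j)| / l (v j))
        (fun j _ => div_nonneg (abs_nonneg _) (h0 j)) (Finset.mem_univ i)
    rw [div_le_iff₀ hl] at hle
    have := neg_abs_le (ν (v i))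
    rw [hM]
    nlinarith
  refine ⟨ν + M • l, fun i => ?_, fun i => ?_⟩
  · simp only [LinearMap.add_apply, LinearMap.smul_apply, smul_eq_mul]
    by_cases hi : i ∈ y
    · rw [(h1 i).1 hi, mul_zero, add_zero]; exact hν i hi
    · exact (hpos i hi).le
  · simp only [LinearMap.add_apply, LinearMap.smul_apply, smul_eq_mul, Finset.mem_filter]
    constructor
    · rintro ⟨hi, h⟩
      rw [(h1 i).1 hi, h, mul_zero, add_zero]
    · intro h
      by_cases hi : i ∈ y
      · rw [(h1 i).1 hi, mul_zero, add_zero] at h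
        exact ⟨hi, h⟩
      · exact absurd h (hpos i hi).ne'

omit [Fintype I] [DecidableEq I] in
theorem span_le_ker {v : I → V} {Z : Finset I} {l : V →ₗ[ℝ] ℝ} (h : ∀ i ∈ Z, l (v i) = 0) :
    Submodule.span ℝ (v '' (Z : Set I)) ≤ LinearMap.ker l := by
  rw [Submodule.span_le]
  rintro _ ⟨i, hi, rfl⟩
  exact h i hi

omit [Fintype I] [DecidableEq I] in
theorem fin_span (v : I → V) (Z : Finset I) :
    FiniteDimensional ℝ (Submodule.span ℝ (v '' (Z : Set I))) :=
  FiniteDimensional.span_of_finite ℝ (Z.finite_toSet.image v)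

omit [Fintype I] in
theorem mono (v : I → V) (x y : Face v) (h : x < y) : rk v x < rk v y := by
  have hle : x.1 ⊆ y.1 := Face.le_def.1 h.le
  have hne : ¬ y.1 ⊆ x.1 := fun h' => absurd (Face.le_def.2 h') (not_le_of_gt h)
  obtain ⟨i, hiy, hix⟩ := Finset.not_subset.1 hne
  obtain ⟨l, -, h1⟩ := x.2
  have := fin_span v y.1
  apply Submodule.finrank_lt_finrank_of_lt
  refine lt_of_le_of_ne (Submodule.span_mono (Set.image_mono (by exact_mod_cast hle))) ?_
  intro he
  have hmem : v i ∈ Submodule.span ℝ (v '' (x.1 : Set I)) := by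
    rw [he]; exact Submodule.subset_span ⟨i, hiy, rfl⟩
  exact hix ((h1 i).2 (span_le_ker (fun j hj => (h1 j).1 hj) hmem))

/-- the kernel of a linear form cuts at most one dimension from a subspace -/
theorem finrank_le_inf_ker (W : Submodule ℝ V) [FiniteDimensional ℝ W] (l : V →ₗ[ℝ] ℝ) :
    Module.finrank ℝ W ≤ Module.finrank ℝ (W ⊓ LinearMap.ker l : Submodule ℝ V) + 1 := by
  have h1 := LinearMap.finrank_range_add_finrank_ker (l.domRestrict W)
  have h2 : Module.finrank ℝ (LinearMap.range (l.domRestrict W)) ≤ 1 := by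
    simpa using Submodule.finrank_le (LinearMap.range (l.domRestrict W))
  have h3 : Module.finrank ℝ (LinearMap.ker (l.domRestrict W)) =
      Module.finrank ℝ (W ⊓ LinearMap.ker l : Submodule ℝ V) := by
    rw [← Submodule.finrank_map_subtype_eq W (LinearMap.ker (l.domRestrict W)),
      LinearMap.ker_domRestrict, Submodule.map_comap_subtype]
  omega

/-- the step with a form that is negative somewhere on `y` -/
theorem fill_aux (v : I → V) (x y : Face v) (h : x < y) (l μ : V →ₗ[ℝ] ℝ) (h0 : ∀ i, 0 ≤ l (v i))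
    (h1 : ∀ i, i ∈ x.1 ↔ l (v i) = 0) (hμ : ∀ i ∈ x.1, μ (v i) = 0) (w : V)
    (hw : w ∈ Submodule.span ℝ (v '' (y.1 : Set I))) (hlw : l w = 0) (hμw : μ w ≠ 0)
    (hneg : ∃ i ∈ y.1, μ (v i) < 0) : ∃ c, x < c ∧ c < y := by
  classical
  have hle : x.1 ⊆ y.1 := Face.le_def.1 h.le
  have hne : (y.1.filter (fun i => μ (v i) < 0)).Nonempty := by
    obtain ⟨i, hi, hi'⟩ := hneg
    exact ⟨i, Finset.mem_filter.2 ⟨hi, hi'⟩⟩
  obtain ⟨i₀, hi₀, hmin⟩ := Finset.exists_min_image _ (fun i => l (v i) / (-μ (v i))) hne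
  obtain ⟨hi₀y, hi₀μ⟩ := Finset.mem_filter.1 hi₀
  have hi₀x : i₀ ∉ x.1 := fun hx => absurd (hμ i₀ hx) hi₀μ.ne
  set t : ℝ := l (v i₀) / (-μ (v i₀)) with ht
  have hl₀ : 0 < l (v i₀) := lt_of_le_of_ne (h0 i₀) (fun h' => hi₀x ((h1 i₀).2 h'.symm))
  have htpos : 0 < t := div_pos hl₀ (neg_pos.2 hi₀μ)
  have hν : ∀ i ∈ y.1, 0 ≤ (l + t • μ) (v i) := by
    intro i hi
    simp only [LinearMap.add_apply, LinearMap.smul_apply, smul_eq_mul]
    by_cases hi' : μ (v i) < 0
    · have := hmin i (Finset.mem_filter.2 ⟨hi, hi'⟩)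
      rw [le_div_iff₀ (neg_pos.2 hi')] at this
      linarith
    · have := mul_nonneg htpos.le (not_lt.1 hi')
      linarith [h0 i]
  refine ⟨⟨_, face_of_face y.2 (l + t • μ) hν⟩, ?_, ?_⟩
  · refine lt_of_le_of_ne (Face.le_def.2 fun i hi => Finset.mem_filter.2 ⟨hle hi, ?_⟩) ?_
    · simp [(h1 i).1 hi, hμ i hi]
    · intro he
      apply hi₀x
      rw [he]
      refine Finset.mem_filter.2 ⟨hi₀y, ?_⟩
      simp only [LinearMap.add_apply, LinearMap.smul_apply, smul_eq_mul, ht]
      have := hi₀μ.ne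
      field_simp
      ring
  · refine lt_of_le_of_ne (Face.le_def.2 (Finset.filter_subset _ _)) ?_
    intro he
    have hall : ∀ i ∈ y.1, (l + t • μ) (v i) = 0 := by
      intro i hi
      rw [← he] at hi
      exact (Finset.mem_filter.1 hi).2
    have := span_le_ker hall hw
    simp only [LinearMap.mem_ker, LinearMap.add_apply, LinearMap.smul_apply, smul_eq_mul, hlw,
      zero_add, mul_eq_zero] at this
    exact this.elim htpos.ne' hμw

theorem fill (v : I → V) (x y : Face v) (h : x < y) (hr : rk v x + 1 < rk v y) :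
    ∃ c, x < c ∧ c < y := by
  obtain ⟨l, h0, h1⟩ := x.2
  have := fin_span v y.1
  have := fin_span v x.1
  have hd := finrank_le_inf_ker (Submodule.span ℝ (v '' (y.1 : Set I))) l
  have hnle : ¬ (Submodule.span ℝ (v '' (y.1 : Set I)) ⊓ LinearMap.ker l) ≤
      Submodule.span ℝ (v '' (x.1 : Set I)) := by
    intro hle
    have := Submodule.finrank_mono hle
    unfold rk at hr
    omega
  obtain ⟨w, hw, hwx⟩ := SetLike.not_le_iff_exists.1 hnle
  obtain ⟨μ, hμw, hμ⟩ := Submodule.exists_le_ker_of_notMem hwx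
  have hμx : ∀ i ∈ x.1, μ (v i) = 0 := fun i hi => hμ (Submodule.subset_span ⟨i, hi, rfl⟩)
  have hex : ∃ i ∈ y.1, μ (v i) ≠ 0 := by
    by_contra hcon
    push Not at hcon
    exact hμw (span_le_ker hcon hw.1)
  obtain ⟨i, hi, hi'⟩ := hex
  rcases lt_or_gt_of_ne hi' with hlt | hgt
  · exact fill_aux v x y h l μ h0 h1 hμx w hw.1 hw.2 hμw ⟨i, hi, hlt⟩
  · exact fill_aux v x y h l (-μ) h0 h1 (fun j hj => by simp [hμx j hj]) w hw.1 hw.2
      (by simpa using hμw) ⟨i, hi, by simpa using hgt⟩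

end GMono

theorem geoMonoS : GeoMonoS := fun _ _ _ _ _ _ v => ⟨GMono.mono v, GMono.fill v⟩

end KHPoly
end

-- part Pool.Agent.Lib.MP_bfa8dc_co.GEul
section

/-! The Euler relation for the intervals of the face lattice of a finitely generated cone. -/

set_option autoImplicit false

namespace KHPoly

open Finset

namespace GEul

variable {I V : Type} [AddCommGroup V] [Module ℝ V]

/-- some linear form vanishes on `A` and is positive on `J` -/
def Rl (A J : Set V) : Prop :=
  ∃ l : V →ₗ[ℝ] ℝ, (∀ a ∈ A, l a = 0) ∧ ∀ j ∈ J, 0 < l j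

open Classical in
/-- the signed indicator of `Rl` -/
noncomputable def cc (A J : Set V) : ℤ :=
  if Rl A J then (-1) ^ (Module.finrank ℝ (Submodule.span ℝ A)) else 0

/-- small perturbations keep finitely many positive numbers positive -/
theorem perturb {α : Type} {S : Set α} (hS : S.Finite) (f g : α → ℝ) (hf : ∀ j ∈ S, 0 < f j) :
    ∃ ε : ℝ, 0 < ε ∧ ∀ j ∈ S, 0 < f j + ε * g j := by
  have h1 : ∀ᶠ ε in nhds (0 : ℝ), ∀ j ∈ S, 0 < f j + ε * g j := by
    rw [Filter.eventually_all_finite hS]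
    intro j hj
    have hc : Continuous (fun ε : ℝ => f j + ε * g j) := by fun_prop
    have := hc.continuousAt (x := 0)
    exact this.eventually (lt_mem_nhds (by simpa using hf j hj))
  have h2 : ∀ᶠ ε in nhdsWithin (0 : ℝ) (Set.Ioi 0), ∀ j ∈ S, 0 < f j + ε * g j :=
    h1.filter_mono nhdsWithin_le_nhds
  obtain ⟨ε, h3, h4⟩ := (h2.and self_mem_nhdsWithin).exists
  exact ⟨ε, h4, h3⟩

theorem finrank_insert {A : Set V} (hA : A.Finite) {w : V} (hw : w ∉ Submodule.span ℝ A) :
    Module.finrank ℝ (Submodule.span ℝ (insert w A)) =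
      Module.finrank ℝ (Submodule.span ℝ A) + 1 := by
  have := FiniteDimensional.span_of_finite ℝ hA
  have hw0 : w ≠ 0 := fun h => hw (h ▸ Submodule.zero_mem _)
  have h1 := Submodule.finrank_sup_add_finrank_inf_eq (Submodule.span ℝ ({w} : Set V))
    (Submodule.span ℝ A)
  have h2 : Submodule.span ℝ ({w} : Set V) ⊓ Submodule.span ℝ A = ⊥ := by
    rw [← disjoint_iff, disjoint_comm]
    exact (Submodule.disjoint_span_singleton' hw0).2 hw
  rw [h2, finrank_bot, finrank_span_singleton hw0] at h1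
  rw [Submodule.span_insert]
  omega

/-- moving a vector from the zero set to the positive set -/
theorem Rl.push {A J : Set V} (hJ : J.Finite) {w : V} (hw : w ∉ Submodule.span ℝ A)
    (h : Rl (insert w A) J) : Rl A (insert w J) := by
  obtain ⟨l, h0, h1⟩ := h
  obtain ⟨μ, hμ, hle⟩ := Submodule.exists_le_ker_of_notMem hw
  have hμA : ∀ a ∈ A, μ a = 0 := fun a ha => hle (Submodule.subset_span ha)
  obtain ⟨ε, hε, h2⟩ := perturb hJ l (fun j => μ w * μ j) h1
  refine ⟨l + (ε * μ w) • μ, fun a ha => ?_, fun j hj => ?_⟩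
  · simp [h0 a (Set.mem_insert_of_mem _ ha), hμA a ha]
  · simp only [LinearMap.add_apply, LinearMap.smul_apply, smul_eq_mul]
    rcases hj with rfl | hj
    · rw [h0 j (Set.mem_insert _ _), zero_add, mul_assoc]
      exact mul_pos hε (mul_self_pos.2 hμ)
    · rw [mul_assoc]; exact h2 j hj

theorem Rl.neg {A J : Set V} {w : V} (h : Rl (insert w A) J) : Rl (insert (-w) A) J := by
  obtain ⟨l, h0, h1⟩ := h
  refine ⟨l, fun a ha => ?_, h1⟩
  rcases ha with rfl | ha
  · rw [map_neg, h0 w (Set.mem_insert _ _), neg_zero]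
  · exact h0 a (Set.mem_insert_of_mem _ ha)

/-- a convex combination of forms with opposite signs at `w` -/
theorem Rl.comb {A J : Set V} {w : V} (h : Rl A (insert w J)) (h' : Rl A (insert (-w) J)) :
    Rl (insert w A) J := by
  obtain ⟨l, h0, h1⟩ := h
  obtain ⟨m, g0, g1⟩ := h'
  have hl : 0 < l w := h1 w (Set.mem_insert _ _)
  have hm : 0 < m (-w) := g1 _ (Set.mem_insert _ _)
  refine ⟨m (-w) • l + l w • m, fun a ha => ?_, fun j hj => ?_⟩
  · simp only [LinearMap.add_apply, LinearMap.smul_apply, smul_eq_mul]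
    rcases ha with rfl | ha
    · rw [map_neg]; ring
    · rw [h0 a ha, g0 a ha]; ring
  · simp only [LinearMap.add_apply, LinearMap.smul_apply, smul_eq_mul]
    have := h1 j (Set.mem_insert_of_mem _ hj)
    have := g1 j (Set.mem_insert_of_mem _ hj)
    positivity

theorem Rl.mono {A A' J J' : Set V} (h : Rl A' J') (hA : A ⊆ A') (hJ : J ⊆ J') : Rl A J := by
  obtain ⟨l, h0, h1⟩ := h
  exact ⟨l, fun a ha => h0 a (hA ha), fun j hj => h1 j (hJ hj)⟩

theorem Rl.cases {A J : Set V} (w : V) (h : Rl A J) :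
    Rl (insert w A) J ∨ Rl A (insert w J) ∨ Rl A (insert (-w) J) := by
  obtain ⟨l, h0, h1⟩ := h
  rcases lt_trichotomy (l w) 0 with hw | hw | hw
  · refine Or.inr (Or.inr ⟨l, h0, fun j hj => ?_⟩)
    rcases hj with rfl | hj
    · rw [map_neg]; linarith
    · exact h1 j hj
  · refine Or.inl ⟨l, fun a ha => ?_, h1⟩
    rcases ha with rfl | ha
    · exact hw
    · exact h0 a ha
  · refine Or.inr (Or.inl ⟨l, h0, fun j hj => ?_⟩)
    rcases hj with rfl | hj
    · exact hw
    · exact h1 j hj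

theorem not_Rl_of_mem {A J : Set V} {w : V} (hw : w ∈ Submodule.span ℝ A) :
    ¬ Rl A (insert w J) := by
  rintro ⟨l, h0, h1⟩
  have hle : Submodule.span ℝ A ≤ LinearMap.ker l := Submodule.span_le.2 (fun a ha => h0 a ha)
  have h2 : l w = 0 := hle hw
  exact absurd (h1 w (Set.mem_insert _ _)) (by rw [h2]; exact lt_irrefl _)

/-- the splitting identity -/
theorem cc_split {A J : Set V} (hA : A.Finite) (hJ : J.Finite) (w : V) :
    cc A J = cc (insert w A) J + cc A (insert w J) + cc A (insert (-w) J) := by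
  by_cases hw : w ∈ Submodule.span ℝ A
  · have h1 : ¬ Rl A (insert w J) := not_Rl_of_mem hw
    have h2 : ¬ Rl A (insert (-w) J) := not_Rl_of_mem (Submodule.neg_mem _ hw)
    have h3 : Rl (insert w A) J ↔ Rl A J := by
      refine ⟨fun h => h.mono (Set.subset_insert _ _) subset_rfl, fun h => ?_⟩
      rcases h.cases w with h | h | h
      · exact h
      · exact absurd h h1
      · exact absurd h h2
    unfold cc
    rw [if_neg h1, if_neg h2, Submodule.span_insert_eq_span hw, h3]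
    ring
  · have hw' : -w ∉ Submodule.span ℝ A := fun h => hw (by simpa using Submodule.neg_mem _ h)
    unfold cc
    rw [finrank_insert hA hw, pow_succ]
    by_cases h0 : Rl (insert w A) J
    · rw [if_pos h0, if_pos (h0.mono (Set.subset_insert _ _) subset_rfl), if_pos (h0.push hJ hw),
        if_pos (h0.neg.push hJ hw')]
      ring
    · rw [if_neg h0]
      by_cases h1 : Rl A (insert w J)
      · rw [if_pos h1, if_pos (h1.mono subset_rfl (Set.subset_insert _ _)),
          if_neg (fun h2 => h0 (h1.comb h2))]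
        ring
      · rw [if_neg h1]
        by_cases h2 : Rl A (insert (-w) J)
        · rw [if_pos h2, if_pos (h2.mono subset_rfl (Set.subset_insert _ _))]
          ring
        · rw [if_neg h2, if_neg]
          · ring
          · intro h
            rcases h.cases w with h | h | h
            · exact h0 h
            · exact h1 h
            · exact h2 h

variable [DecidableEq I]

/-- the signed count of the sign patterns on `P` -/
noncomputable def psi (v : I → V) (P : Finset I) (A J : Set V) : ℤ :=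
  ∑ Z ∈ P.powerset, cc (A ∪ v '' (Z : Set I)) (J ∪ v '' ((P \ Z : Finset I) : Set I))

theorem psi_insert (v : I → V) (P : Finset I) {i : I} (hi : i ∉ P) {A J : Set V} (hA : A.Finite)
    (hJ : J.Finite) : psi v (insert i P) A J = psi v P A J - psi v P A (insert (-v i) J) := by
  unfold psi
  rw [Finset.sum_powerset_insert hi, ← Finset.sum_add_distrib, ← Finset.sum_sub_distrib]
  refine Finset.sum_congr rfl fun Z hZ => ?_
  have hiZ : i ∉ Z := fun h => hi (Finset.mem_powerset.1 hZ h)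
  have e1 : insert i P \ Z = insert i (P \ Z) := Finset.insert_sdiff_of_notMem P hiZ
  have e2 : insert i P \ insert i Z = P \ Z := by
    rw [Finset.insert_sdiff_insert, Finset.sdiff_insert, Finset.erase_eq_of_notMem]
    exact fun h => hi (Finset.mem_sdiff.1 h).1
  rw [e1, e2, Finset.coe_insert, Finset.coe_insert, Set.image_insert_eq, Set.image_insert_eq,
    Set.union_insert, Set.union_insert, Set.insert_union]
  have := cc_split (hA.union (Z.finite_toSet.image v))
    (hJ.union ((P \ Z).finite_toSet.image v)) (v i)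
  linarith

theorem psi_eq (v : I → V) {A : Set V} (hA : A.Finite) (l : V →ₗ[ℝ] ℝ) (hl : ∀ a ∈ A, l a = 0)
    (P : Finset I) : (∀ i ∈ P, 0 < l (v i)) → ∀ J : Set V, J.Finite → (∀ j ∈ J, l j < 0) →
      psi v P A J =
        if P = ∅ then (-1) ^ (Module.finrank ℝ (Submodule.span ℝ A)) else 0 := by
  induction P using Finset.induction_on with
  | empty =>
    intro _ J _ hJ
    have h : Rl A J := ⟨-l, fun a ha => by simp [hl a ha], fun j hj => by simpa using hJ j hj⟩
    have e : ∀ B : Set V, B ∪ v '' ((∅ : Finset I) : Set I) = B := fun B => by simp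
    unfold psi
    rw [Finset.powerset_empty, Finset.sum_singleton, Finset.sdiff_self, e, e, if_pos rfl]
    unfold cc
    rw [if_pos h]
  | insert i P hi ih =>
    intro hP J hJ hJ'
    have hP' : ∀ j ∈ P, 0 < l (v j) := fun j hj => hP j (Finset.mem_insert_of_mem hj)
    rw [psi_insert v P hi hA hJ, ih hP' J hJ hJ', ih hP' _ (hJ.insert _), sub_self,
      if_neg (Finset.insert_ne_empty _ _)]
    intro j hj
    rcases hj with rfl | hj
    · rw [map_neg]
      linarith [hP i (Finset.mem_insert_self _ _)]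
    · exact hJ' j hj

/-- a sign pattern realised on a face gives a face -/
theorem isFace_of_Rl [Fintype I] {v : I → V} {y c : Finset I} (hy : IsFace v y) (hc : c ⊆ y)
    (h : Rl (v '' (c : Set I)) (v '' ((y \ c : Finset I) : Set I))) : IsFace v c := by
  obtain ⟨l, h0, h1⟩ := hy
  obtain ⟨ν, g0, g1⟩ := h
  obtain ⟨ε, hε, h2⟩ := perturb (S := {i : I | i ∉ y}) (Set.toFinite _) (fun i => l (v i))
    (fun i => ν (v i)) (fun i hi => lt_of_le_of_ne (h0 i) (fun h => hi ((h1 i).2 h.symm)))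
  have hpos : ∀ i, i ∉ c → 0 < (l + ε • ν) (v i) := by
    intro i hi
    simp only [LinearMap.add_apply, LinearMap.smul_apply, smul_eq_mul]
    by_cases hiy : i ∈ y
    · rw [(h1 i).1 hiy, zero_add]
      exact mul_pos hε (g1 _ ⟨i, by simp [hiy, hi], rfl⟩)
    · exact h2 i hiy
  have hzero : ∀ i, i ∈ c → (l + ε • ν) (v i) = 0 := by
    intro i hi
    simp only [LinearMap.add_apply, LinearMap.smul_apply, smul_eq_mul]
    rw [(h1 i).1 (hc hi), g0 _ ⟨i, hi, rfl⟩, mul_zero, add_zero]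
  refine ⟨l + ε • ν, fun i => ?_, fun i => ⟨hzero i, fun h => ?_⟩⟩
  · by_cases hi : i ∈ c
    · exact (hzero i hi).ge
    · exact (hpos i hi).le
  · by_contra hi
    exact (hpos i hi).ne' h

theorem Rl_of_isFace {v : I → V} (y : Finset I) {c : Finset I} (hc : IsFace v c) :
    Rl (v '' (c : Set I)) (v '' ((y \ c : Finset I) : Set I)) := by
  obtain ⟨l, h0, h1⟩ := hc
  refine ⟨l, ?_, ?_⟩
  · rintro _ ⟨i, hi, rfl⟩
    exact (h1 i).1 hi
  · rintro _ ⟨i, hi, rfl⟩
    have hi' : i ∉ c := (Finset.mem_sdiff.1 hi).2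
    exact lt_of_le_of_ne (h0 i) (fun h => hi' ((h1 i).2 h.symm))

theorem sum_itv [Fintype I] (v : I → V) (x y : Face v) (hxy : x ≤ y) :
    ∑ c ∈ itv x y, (-1 : ℤ) ^ (rk v c) = psi v (y.1 \ x.1) (v '' (x.1 : Set I)) ∅ := by
  classical
  have hle : x.1 ⊆ y.1 := Face.le_def.1 hxy
  have e1 : ∀ Z : Finset I, v '' (x.1 : Set I) ∪ v '' (Z : Set I) =
      v '' ((x.1 ∪ Z : Finset I) : Set I) := by
    intro Z
    rw [Finset.coe_union, Set.image_union]
  have e2 : ∀ Z : Finset I, (y.1 \ x.1) \ Z = y.1 \ (x.1 ∪ Z) := by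
    intro Z
    ext i
    simp only [Finset.mem_sdiff, Finset.mem_union]
    tauto
  unfold psi cc
  simp only [e1, e2, Set.empty_union]
  rw [← Finset.sum_filter]
  refine Finset.sum_bij (fun c _ => c.1 \ x.1) ?_ ?_ ?_ ?_
  · intro c hc
    obtain ⟨h1, h2⟩ := mem_itv.1 hc
    rw [Finset.mem_filter, Finset.mem_powerset,
      Finset.union_sdiff_of_subset (Face.le_def.1 h1)]
    exact ⟨Finset.sdiff_subset_sdiff (Face.le_def.1 h2) subset_rfl, Rl_of_isFace _ c.2⟩
  · intro c hc c' hc' h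
    apply Subtype.ext
    rw [← Finset.union_sdiff_of_subset (Face.le_def.1 (mem_itv.1 hc).1),
      ← Finset.union_sdiff_of_subset (Face.le_def.1 (mem_itv.1 hc').1)]
    exact congrArg _ h
  · intro Z hZ
    obtain ⟨h1, h2⟩ := Finset.mem_filter.1 hZ
    have h3 : Z ⊆ y.1 \ x.1 := Finset.mem_powerset.1 h1
    have h4 : x.1 ∪ Z ⊆ y.1 := Finset.union_subset hle (h3.trans Finset.sdiff_subset)
    refine ⟨⟨x.1 ∪ Z, isFace_of_Rl y.2 h4 h2⟩,
      mem_itv.2 ⟨Face.le_def.2 Finset.subset_union_left, Face.le_def.2 h4⟩, ?_⟩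
    ext i
    simp only [Finset.mem_sdiff, Finset.mem_union]
    constructor
    · rintro ⟨h | h, h'⟩
      · exact absurd h h'
      · exact h
    · intro h
      exact ⟨Or.inr h, (Finset.mem_sdiff.1 (h3 h)).2⟩
  · intro c hc
    rw [e1, Finset.union_sdiff_of_subset (Face.le_def.1 (mem_itv.1 hc).1)]
    rfl

end GEul

theorem geoEulS : GeoEulS := by
  intro I V _ _ _ _ v x y hxy
  rw [GEul.sum_itv v x y hxy.le]
  obtain ⟨l, h0, h1⟩ := x.2
  have hne : y.1 \ x.1 ≠ ∅ := by
    intro h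
    exact absurd (Face.le_def.2 (Finset.sdiff_eq_empty_iff_subset.1 h)) (not_le_of_gt hxy)
  rw [GEul.psi_eq v (x.1.finite_toSet.image v) l ?_ _ ?_ ∅ Set.finite_empty (by simp), if_neg hne]
  · rintro _ ⟨i, hi, rfl⟩
    exact (h1 i).1 hi
  · intro i hi
    exact lt_of_le_of_ne (h0 i) (fun h => (Finset.mem_sdiff.1 hi).2 ((h1 i).2 h.symm))

end KHPoly
end
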