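import Pool.Agent.Lib.MP_bfa8dc_co.CEul




import Pool.Agent.Lib.MP_bfa8dc_co.CArith



import Pool.Agent.Lib.MP_bfa8dc_co.GEul



import Pool.Agent.Lib.MP_bfa8dc_co.GFar



set_option autoImplicit false

namespace KHPoly

theorem mainS : MainS := mainS_of basicS prop1S twoFS starS locS eulS bndS arithS compS liouS

theorem geoS : GeoS := geoS_of geoMonoS geoEulS geoSpanS

theorem polyAll : PolyS := polyS mainS geoS

end KHPoly
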