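import Mathlib

-- part Pool.Agent.Lib.MP_bfa8dc_co.Spec
section

/-! Definitions and statement list for the theorem: for large k and h every k-simplicial h-simple
(k+h)-polytope is a simplex.  Each statement `XS` is proved in its own file. -/

set_option autoImplicit false

namespace KHPoly

open Finset

section Lattice

variable {L : Type} [SemilatticeInf L] [Fintype L]

open Classical in
/-- the elements of the interval `[x,y]` -/
noncomputable def itv (x y : L) : Finset L := univ.filter (fun c => x ≤ c ∧ c ≤ y)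

open Classical in
/-- the elements of rank `n` of the interval `[x,y]` -/
noncomputable def lev (r : L → ℕ) (x y : L) (n : ℕ) : Finset L :=
  univ.filter (fun c => x ≤ c ∧ c ≤ y ∧ r c = n)

theorem mem_itv {x y c : L} : c ∈ itv x y ↔ x ≤ c ∧ c ≤ y := by
  simp [itv]

theorem mem_lev {r : L → ℕ} {x y c : L} {n : ℕ} : c ∈ lev r x y n ↔ x ≤ c ∧ c ≤ y ∧ r c = n := by
  simp [lev]

/-- the interval `[x,y]` has no more atoms than its rank (it is then Boolean) -/
def Simp (r : L → ℕ) (x y : L) : Prop := (lev r x y (r x + 1)).card + r x ≤ r y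

/-- the four properties of face lattices of polytopes that are used -/
structure FL (r : L → ℕ) : Prop where
  mono : ∀ x y : L, x < y → r x < r y
  fill : ∀ x y : L, x < y → r x + 1 < r y → ∃ c, x < c ∧ c < y
  euler : ∀ x y : L, x < y → ∑ c ∈ itv x y, (-1 : ℤ) ^ (r c) = 0
  span : ∀ (x y : L) (Y : Finset L), x ≤ y → Y ⊆ lev r x y (r x + 1) → r y ≤ Y.card + r x →
    (∀ a ∈ Y, ∃ c, x ≤ c ∧ c ≤ y ∧ ¬ a ≤ c ∧ ∀ b ∈ Y, b ≠ a → b ≤ c) → Simp r x y

/-- basic consequences of `FL` -/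
structure Basic (r : L → ℕ) : Prop where
  mono : ∀ x y : L, x < y → r x < r y
  mono_le : ∀ x y : L, x ≤ y → r x ≤ r y
  eq_of : ∀ x y : L, x ≤ y → r y ≤ r x → x = y
  ex_lev : ∀ (x y : L) (n : ℕ), x ≤ y → r x ≤ n → n ≤ r y → ∃ c, c ∈ lev r x y n
  atoms_ge : ∀ x y : L, x ≤ y → r y ≤ (lev r x y (r x + 1)).card + r x
  le_of_atoms : ∀ x c c' : L, x ≤ c → x ≤ c' → (∀ a ∈ lev r x c (r x + 1), a ≤ c') → c ≤ c'
  sub : ∀ x y x' y' : L, Simp r x y → x ≤ x' → x' ≤ y' → y' ≤ y → Simp r x' y'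
  card_lev : ∀ (x y : L) (i : ℕ), x ≤ y → Simp r x y →
    (lev r x y (r x + i)).card = (r y - r x).choose i
  omit_atom : ∀ x y a : L, Simp r x y → a ∈ lev r x y (r x + 1) →
    ∃ c, x ≤ c ∧ c ≤ y ∧ r c + 1 = r y ∧ ¬ a ≤ c ∧ ∀ b ∈ lev r x y (r x + 1), b ≠ a → b ≤ c
  cosimp : ∀ (x y : L) (n : ℕ), x ≤ y → r y = n + 1 → (lev r x y n).card + r x ≤ r y → Simp r x y
  meet2 : ∀ (x y c c' : L) (n : ℕ), Simp r x y → r y = n + 1 → c ∈ lev r x y n →
    c' ∈ lev r x y n → c ≠ c' → r (c ⊓ c') + 2 = r y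

/-- intervals below rank `k+1` and above rank `k` are Boolean -/
structure KH (r : L → ℕ) (k : ℕ) : Prop where
  low : ∀ x y : L, x ≤ y → r y ≤ k + 1 → Simp r x y
  up : ∀ x y : L, x ≤ y → k ≤ r x → Simp r x y

/-- propagation: if all `E` covered by `F` have Boolean `[E,B]` then `[A,B]` is Boolean -/
def Prop1 (r : L → ℕ) (k : ℕ) : Prop :=
  ∀ A F B : L, A ≤ F → F ≤ B → r F = k → k + 1 ≤ r B →
    (∀ E : L, A ≤ E → E ≤ F → r E + 1 = k → Simp r E B) → Simp r A B

/-- two adjacent Boolean coatoms force a Boolean interval -/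
def TwoF (r : L → ℕ) (k : ℕ) : Prop :=
  ∀ A B P P' : L, A ≤ P → A ≤ P' → P ≤ B → P' ≤ B → r P + 1 = r B → r P' + 1 = r B →
    r (P ⊓ P') + 2 = r B → k + 3 ≤ r B → r A ≤ k → Simp r A P → Simp r A P' → Simp r A B

open Classical in
/-- the non-Boolean `[A,G]` with `u ≤ G ≤ B`, `G` of rank `k+2` -/
noncomputable def badG (r : L → ℕ) (k : ℕ) (A u B : L) : Finset L :=
  (lev r u B (k + 2)).filter (fun G => ¬ Simp r A G)

/-- star bound around an atom `u` of `[A,B]` with Boolean `[u,B]` -/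
def Star (r : L → ℕ) (k : ℕ) : Prop :=
  ∀ (b j : ℕ) (A u B : L), A ≤ u → u ≤ B → r u = r A + 1 → r A + j + 1 = k → r B = k + 2 + b →
    Simp r u B → ¬ Simp r A B → (j + 1 + b).choose (j + 1) ≤ (badG r k A u B).card

open Classical in
/-- number of chains `A ≤ E ≤ F ≤ G ≤ B` of ranks `k-1, k, k+2` with `[E,G]` not a triangle -/
noncomputable def tau (r : L → ℕ) (k : ℕ) (A B : L) : ℕ :=
  (univ.filter (fun p : L × L × L => A ≤ p.1 ∧ p.1 ≤ p.2.1 ∧ p.2.1 ≤ p.2.2 ∧ p.2.2 ≤ B ∧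
    r p.1 + 1 = k ∧ r p.2.1 = k ∧ r p.2.2 = k + 2 ∧ ¬ Simp r p.1 p.2.2)).card

/-- local lower bound for the density of non-triangles -/
def Loc (r : L → ℕ) (k : ℕ) : Prop :=
  ∀ (a b : ℕ) (A B : L), A ≤ B → r A + a = k → r B = k + 1 + b → 1 ≤ a → 1 ≤ b → ¬ Simp r A B →
    (lev r A B k).card * a * (b + 1).choose 2 ≤ (a + b) * tau r k A B

open Classical in
/-- number of pairs `A ≤ B` of ranks `k-a` and `k+1+b` -/
noncomputable def npair (r : L → ℕ) (k a b : ℕ) : ℕ :=
  (univ.filter (fun p : L × L => p.1 ≤ p.2 ∧ r p.1 + a = k ∧ r p.2 = k + 1 + b)).card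

end Lattice

/-- Euler relations of the array `N` -/
def EulA (k h : ℕ) (N : ℕ → ℕ → ℕ) : Prop :=
  ∀ a b : ℕ, a ≤ k → b ≤ h →
    ∑ i ∈ range (a + 1), (-1 : ℤ) ^ i * ((k - i).choose (a - i) : ℤ) * (N i b : ℤ) =
      ∑ j ∈ range (b + 1), (-1 : ℤ) ^ j * ((h - j).choose (b - j) : ℤ) * (N a j : ℤ)

/-- the defect of the array `N` -/
def dfc (k h f : ℕ) (N : ℕ → ℕ → ℕ) (a b : ℕ) : ℤ :=
  (f : ℤ) * (k.choose a : ℤ) * ((h + 1).choose (b + 1) : ℤ) -
    ((a + b + 1).choose a : ℤ) * (N a b : ℤ)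

/-- bounds for the defect -/
structure BndA (k h f : ℕ) (N : ℕ → ℕ → ℕ) : Prop where
  nonneg : ∀ a b : ℕ, a ≤ k → b ≤ h → 0 ≤ dfc k h f N a b
  zero_left : ∀ b : ℕ, b ≤ h → dfc k h f N 0 b = 0
  zero_right : ∀ a : ℕ, a ≤ k → dfc k h f N a 0 = 0
  upper : ∀ a b : ℕ, a + 1 ≤ k → b + 1 ≤ h →
    ((a + 1 : ℕ) : ℤ) * ((b + 2).choose 2 : ℤ) * dfc k h f N (a + 1) (b + 1) ≤
      4 * ((a + b + 2 : ℕ) : ℤ) * ((k - 1).choose a : ℤ) * ((h - 1).choose b : ℤ) *
        dfc k h f N 1 1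
  pos : 0 < dfc k h f N 1 1

/-- finite sequences with vanishing even differences and quadratic growth -/
structure Seq (K : ℕ) (a : ℕ → ℝ) : Prop where
  z0 : a 0 = 0
  z1 : a 1 = 0
  z2 : a 2 = 0
  z3 : a 3 = 1
  bd : ∀ m : ℕ, m ≤ K + 1 → 0 ≤ a m ∧ a m ≤ 4 * (m : ℝ) ^ 2
  ev : ∀ M : ℕ, M ≤ K + 1 → Even M →
    ∑ m ∈ range (M + 1), (-1 : ℝ) ^ m * (M.choose m : ℝ) * a m = 0

/-- the infinite version -/
def SeqInf (a : ℕ → ℝ) : Prop := ∀ K : ℕ, Seq K a

section Config

variable {I V : Type} [Fintype I] [DecidableEq I] [AddCommGroup V] [Module ℝ V]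

/-- zero sets of nonnegative linear forms on a finite family of vectors -/
def IsFace (v : I → V) (Z : Finset I) : Prop :=
  ∃ l : V →ₗ[ℝ] ℝ, (∀ i, 0 ≤ l (v i)) ∧ ∀ i, i ∈ Z ↔ l (v i) = 0

omit [Fintype I] in
theorem IsFace.inf {v : I → V} {Z W : Finset I} (hZ : IsFace v Z) (hW : IsFace v W) :
    IsFace v (Z ⊓ W) := by
  obtain ⟨l, h0, h1⟩ := hZ
  obtain ⟨m, g0, g1⟩ := hW
  refine ⟨l + m, fun i => by simpa using add_nonneg (h0 i) (g0 i), fun i => ?_⟩
  simp only [Finset.inf_eq_inter, Finset.mem_inter, h1, g1, LinearMap.add_apply]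
  constructor
  · rintro ⟨a, b⟩; rw [a, b, add_zero]
  · intro h; constructor <;> linarith [h0 i, g0 i]

/-- the face lattice of the cone spanned by the family -/
def Face (v : I → V) : Type := {Z : Finset I // IsFace v Z}

instance (v : I → V) : SemilatticeInf (Face v) :=
  Subtype.semilatticeInf (P := IsFace v) (fun _ _ hx hy => IsFace.inf hx hy)

noncomputable instance (v : I → V) : Fintype (Face v) := by
  classical exact Subtype.fintype _

omit [Fintype I] in
theorem Face.le_def {v : I → V} {Z W : Face v} : Z ≤ W ↔ Z.1 ⊆ W.1 := Iff.rfl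

omit [Fintype I] in
theorem Face.inf_val {v : I → V} (Z W : Face v) : (Z ⊓ W).1 = Z.1 ∩ W.1 := rfl

/-- rank of a face: dimension of its linear span -/
noncomputable def rk (v : I → V) (Z : Face v) : ℕ :=
  Module.finrank ℝ (Submodule.span ℝ (v '' (Z.1 : Set I)))

end Config

/-- the polytope hypotheses, exactly as in the frozen statement -/
def IsKH (d k h : ℕ) (Q : Set (EuclideanSpace ℝ (Fin d))) : Prop :=
  (∃ s : Finset (EuclideanSpace ℝ (Fin d)), Q = convexHull ℝ (s : Set (EuclideanSpace ℝ (Fin d)))) ∧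
  (interior Q).Nonempty ∧
  (∀ F : Set (EuclideanSpace ℝ (Fin d)), IsExposed ℝ Q F → F.Nonempty →
    Module.finrank ℝ (affineSpan ℝ F).direction = k →
    ∃ t : Finset (EuclideanSpace ℝ (Fin d)),
      AffineIndependent ℝ
        (fun x : (t : Set (EuclideanSpace ℝ (Fin d))) => (x : EuclideanSpace ℝ (Fin d))) ∧
      F = convexHull ℝ (t : Set (EuclideanSpace ℝ (Fin d)))) ∧
  (∀ F : Set (EuclideanSpace ℝ (Fin d)), IsExposed ℝ Q F → F.Nonempty →
    Module.finrank ℝ (affineSpan ℝ F).direction = d - 1 - h →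
    {G : Set (EuclideanSpace ℝ (Fin d)) | IsExposed ℝ Q G ∧ G.Nonempty ∧
      Module.finrank ℝ (affineSpan ℝ G).direction = d - 1 ∧ F ⊆ G}.ncard = h + 1)

/-! ### The statements -/

def BasicS : Prop :=
  ∀ (L : Type) [SemilatticeInf L] [Fintype L] (r : L → ℕ), FL r → Basic r

def Prop1S : Prop :=
  ∀ (L : Type) [SemilatticeInf L] [Fintype L] (r : L → ℕ) (k : ℕ),
    FL r → Basic r → KH r k → Prop1 r k

def TwoFS : Prop :=
  ∀ (L : Type) [SemilatticeInf L] [Fintype L] (r : L → ℕ) (k : ℕ),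
    FL r → Basic r → KH r k → TwoF r k

def StarS : Prop :=
  ∀ (L : Type) [SemilatticeInf L] [Fintype L] (r : L → ℕ) (k : ℕ),
    Basic r → KH r k → TwoF r k → Star r k

def LocS : Prop :=
  ∀ (L : Type) [SemilatticeInf L] [Fintype L] (r : L → ℕ) (k : ℕ),
    Basic r → KH r k → Prop1 r k → Star r k → Loc r k

def EulS : Prop :=
  ∀ (L : Type) [SemilatticeInf L] [Fintype L] (r : L → ℕ) (k h : ℕ) (o t : L),
    FL r → Basic r → KH r k → (∀ x, o ≤ x) → (∀ x, x ≤ t) → r o = 0 → r t = k + h + 1 →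
    EulA k h (npair r k)

def BndS : Prop :=
  ∀ (L : Type) [SemilatticeInf L] [Fintype L] (r : L → ℕ) (k h : ℕ) (o t : L),
    Basic r → KH r k → Loc r k → (∀ x, o ≤ x) → (∀ x, x ≤ t) → r o = 0 → r t = k + h + 1 →
    1 ≤ k → 1 ≤ h → ¬ Simp r o t → BndA k h (lev r o t k).card (npair r k)

def ArithS : Prop :=
  ∀ (K k h f : ℕ) (N : ℕ → ℕ → ℕ), 2 ≤ K → K ≤ k → K ≤ h → EulA k h N → BndA k h f N →
    ∃ a : ℕ → ℝ, Seq K a

def CompS : Prop := (∀ K : ℕ, ∃ a : ℕ → ℝ, Seq K a) → ∃ a : ℕ → ℝ, SeqInf a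

def LiouS : Prop := ∀ a : ℕ → ℝ, ¬ SeqInf a

def MainS : Prop :=
  ∃ K : ℕ, 2 ≤ K ∧ ∀ (L : Type) [SemilatticeInf L] [Fintype L] (r : L → ℕ) (k h : ℕ) (o t : L),
    FL r → K ≤ k → K ≤ h → (∀ x, o ≤ x) → (∀ x, x ≤ t) → r o = 0 → r t = k + h + 1 →
    (∀ S : L, r S = k + 1 → (lev r o S 1).card ≤ k + 1) →
    (∀ F : L, r F = k → (lev r F t (k + h)).card ≤ h + 1) →
    (lev r o t 1).card ≤ k + h + 1

def GeoMonoS : Prop :=
  ∀ (I V : Type) [Fintype I] [DecidableEq I] [AddCommGroup V] [Module ℝ V] (v : I → V),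
    (∀ x y : Face v, x < y → rk v x < rk v y) ∧
    (∀ x y : Face v, x < y → rk v x + 1 < rk v y → ∃ c, x < c ∧ c < y)

def GeoEulS : Prop :=
  ∀ (I V : Type) [Fintype I] [DecidableEq I] [AddCommGroup V] [Module ℝ V] (v : I → V)
    (x y : Face v), x < y → ∑ c ∈ itv x y, (-1 : ℤ) ^ (rk v c) = 0

def GeoSpanS : Prop :=
  ∀ (I V : Type) [Fintype I] [DecidableEq I] [AddCommGroup V] [Module ℝ V] (v : I → V),
    (∀ x y : Face v, x < y → rk v x < rk v y) →
    ∀ (x y : Face v) (Y : Finset (Face v)), x ≤ y → Y ⊆ lev (rk v) x y (rk v x + 1) →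
      rk v y ≤ Y.card + rk v x →
      (∀ a ∈ Y, ∃ c, x ≤ c ∧ c ≤ y ∧ ¬ a ≤ c ∧ ∀ b ∈ Y, b ≠ a → b ≤ c) → Simp (rk v) x y

def GeoS : Prop :=
  ∀ (I V : Type) [Fintype I] [DecidableEq I] [AddCommGroup V] [Module ℝ V] (v : I → V), FL (rk v)

def PolyS : Prop :=
  ∃ K : ℕ, 2 ≤ K ∧ ∀ (d k h : ℕ), K ≤ k → K ≤ h → k + h = d →
    ∀ Q : Set (EuclideanSpace ℝ (Fin d)), IsKH d k h Q →
      ∃ t : Finset (EuclideanSpace ℝ (Fin d)), t.card ≤ d + 1 ∧
        Q = convexHull ℝ (t : Set (EuclideanSpace ℝ (Fin d)))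

/-- a polytope that is not a limit of hulls of `d+1` points -/
def FarS : Prop :=
  ∀ d : ℕ, 2 ≤ d → ∃ s : Finset (EuclideanSpace ℝ (Fin d)),
    (interior (convexHull ℝ (s : Set (EuclideanSpace ℝ (Fin d))))).Nonempty ∧
    ∀ t : Finset (EuclideanSpace ℝ (Fin d)), t.Nonempty → t.card ≤ d + 1 →
      (1 / 4 : ℝ) ≤ Metric.hausdorffDist (convexHull ℝ (s : Set (EuclideanSpace ℝ (Fin d))))
        (convexHull ℝ (t : Set (EuclideanSpace ℝ (Fin d))))

end KHPoly
end

-- part Pool.Agent.Lib.MP_bfa8dc_co.Glue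
section

set_option autoImplicit false

namespace KHPoly

theorem mainS_of (h1 : BasicS) (h2 : Prop1S) (h3 : TwoFS) (h4 : StarS) (h5 : LocS) (h6 : EulS)
    (h7 : BndS) (h8 : ArithS) (h9 : CompS) (h10 : LiouS) : MainS := by
  have hK : ∃ K : ℕ, ∀ a : ℕ → ℝ, ¬ Seq K a := by
    by_contra hcon
    push Not at hcon
    obtain ⟨a, ha⟩ := h9 hcon
    exact h10 a ha
  obtain ⟨K, hK⟩ := hK
  refine ⟨K + 2, by omega, ?_⟩
  intro L _ _ r k h o t hF hk hh ho ht ro rt g1 g2
  have hb := h1 L r hF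
  have hkh : KH r k := by
    constructor
    · intro x y hxy hy
      obtain ⟨S, hS⟩ := hb.ex_lev y t (k + 1) (ht y) hy (by omega)
      obtain ⟨s1, _, s3⟩ := mem_lev.1 hS
      have : Simp r o S := by
        unfold Simp
        have := g1 S s3
        rw [ro]
        simp only [zero_add, add_zero]
        omega
      exact hb.sub o S x y this (ho x) hxy s1
    · intro x y hxy hx
      obtain ⟨F, hF'⟩ := hb.ex_lev o x k (ho x) (by omega) hx
      obtain ⟨_, s2, s3⟩ := mem_lev.1 hF'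
      have : Simp r F t := by
        refine hb.cosimp F t (k + h) (ht F) rt ?_
        have := g2 F s3
        omega
      exact hb.sub F t x y this s2 hxy (ht y)
  by_contra hn
  have hn' : ¬ Simp r o t := by
    unfold Simp
    rw [ro]
    simp only [zero_add, add_zero]
    omega
  have hl := h5 L r k hb hkh (h2 L r k hF hb hkh) (h4 L r k hb hkh (h3 L r k hF hb hkh))
  obtain ⟨a, ha⟩ := h8 (K + 2) k h _ _ (by omega) hk hh (h6 L r k h o t hF hb hkh ho ht ro rt)
    (h7 L r k h o t hb hkh hl ho ht ro rt (by omega) (by omega) hn')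
  exact hK a ⟨ha.z0, ha.z1, ha.z2, ha.z3, fun m hm => ha.bd m (by omega),
    fun M hM => ha.ev M (by omega)⟩

theorem geoS_of (h1 : GeoMonoS) (h2 : GeoEulS) (h3 : GeoSpanS) : GeoS := by
  intro I V _ _ _ _ v
  exact ⟨(h1 I V v).1, (h1 I V v).2, h2 I V v, h3 I V v (h1 I V v).1⟩

theorem final_of (hP : PolyS) (hF : FarS) :
    ¬ (∀ (d k h : ℕ), k < d → h < d → k + h ≤ d →
      ∀ P : Set (EuclideanSpace ℝ (Fin d)),
        (∃ s : Finset (EuclideanSpace ℝ (Fin d)),
          P = convexHull ℝ (s : Set (EuclideanSpace ℝ (Fin d)))) →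
        (interior P).Nonempty → ∀ ε : ℝ, 0 < ε →
        ∃ Q : Set (EuclideanSpace ℝ (Fin d)), IsKH d k h Q ∧ Metric.hausdorffDist P Q < ε) := by
  intro H
  obtain ⟨K, hK, hP⟩ := hP
  obtain ⟨s, hs, hfar⟩ := hF (K + K) (by omega)
  obtain ⟨Q, hQ, hd⟩ := H (K + K) K K (by omega) (by omega) le_rfl _ ⟨s, rfl⟩ hs (1 / 4)
    (by norm_num)
  obtain ⟨t, ht, hQt⟩ := hP (K + K) K K le_rfl le_rfl rfl Q hQ
  have hne : t.Nonempty := by
    rcases t.eq_empty_or_nonempty with rfl | h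
    · have := hQ.2.1
      rw [hQt] at this
      simp at this
    · exact h
  have := hfar t hne ht
  rw [hQt] at hd
  linarith

end KHPoly
end

-- part Pool.Agent.Lib.MP_bfa8dc_co.LBasic
section

/-! Basic consequences of the face lattice properties: graded structure, atoms and coatoms,
Boolean intervals. -/

set_option autoImplicit false

namespace KHPoly

open Finset

namespace LBasic

variable {L : Type} [SemilatticeInf L] [Fintype L] {r : L → ℕ}

theorem mono_le (h : FL r) (x y : L) (hxy : x ≤ y) : r x ≤ r y := by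
  rcases hxy.lt_or_eq with h1 | h1
  · exact (h.mono x y h1).le
  · rw [h1]

theorem eq_of (h : FL r) (x y : L) (hxy : x ≤ y) (hr : r y ≤ r x) : x = y := by
  rcases hxy.lt_or_eq with h1 | h1
  · have := h.mono x y h1; omega
  · exact h1

theorem ex_lev_aux (h : FL r) (d : ℕ) : ∀ (x y : L) (n : ℕ), r y ≤ r x + d → x ≤ y → r x ≤ n →
    n ≤ r y → ∃ c, c ∈ lev r x y n := by
  induction d with
  | zero =>
    intro x y n hd hxy h1 h2
    exact ⟨x, mem_lev.2 ⟨le_rfl, hxy, by omega⟩⟩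
  | succ d ih =>
    intro x y n hd hxy h1 h2
    by_cases e1 : r x = n
    · exact ⟨x, mem_lev.2 ⟨le_rfl, hxy, e1⟩⟩
    by_cases e2 : r y = n
    · exact ⟨y, mem_lev.2 ⟨hxy, le_rfl, e2⟩⟩
    have hlt : x < y := lt_of_le_of_ne hxy (fun e => by rw [e] at e1 h1; omega)
    obtain ⟨c, hc1, hc2⟩ := h.fill x y hlt (by omega)
    have m1 := h.mono _ _ hc1
    have m2 := h.mono _ _ hc2
    by_cases e3 : n ≤ r c
    · obtain ⟨z, hz⟩ := ih x c n (by omega) hc1.le h1 e3
      rw [mem_lev] at hz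
      exact ⟨z, mem_lev.2 ⟨hz.1, hz.2.1.trans hc2.le, hz.2.2⟩⟩
    · obtain ⟨z, hz⟩ := ih c y n (by omega) hc2.le (by omega) h2
      rw [mem_lev] at hz
      exact ⟨z, mem_lev.2 ⟨hc1.le.trans hz.1, hz.2.1, hz.2.2⟩⟩

theorem ex_lev (h : FL r) (x y : L) (n : ℕ) (hxy : x ≤ y) (h1 : r x ≤ n) (h2 : n ≤ r y) :
    ∃ c, c ∈ lev r x y n :=
  ex_lev_aux h (r y) x y n (by omega) hxy h1 h2

theorem diamond_card (h : FL r) (x y : L) (hxy : x ≤ y) (hr : r y = r x + 2) :
    (lev r x y (r x + 1)).card = 2 := by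
  classical
  have hne : x ≠ y := fun e => by rw [e] at hr; omega
  have hlt : x < y := lt_of_le_of_ne hxy hne
  have he := h.euler x y hlt
  have hset : itv x y = insert x (insert y (lev r x y (r x + 1))) := by
    ext c
    simp only [mem_insert, mem_itv, mem_lev]
    constructor
    · rintro ⟨h1, h2⟩
      by_cases e1 : c = x
      · exact Or.inl e1
      by_cases e2 : c = y
      · exact Or.inr (Or.inl e2)
      have m1 := h.mono _ _ (lt_of_le_of_ne h1 (Ne.symm e1))
      have m2 := h.mono _ _ (lt_of_le_of_ne h2 e2)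
      exact Or.inr (Or.inr ⟨h1, h2, by omega⟩)
    · rintro (e | e | ⟨h1, h2, _⟩)
      · rw [e]; exact ⟨le_rfl, hxy⟩
      · rw [e]; exact ⟨hxy, le_rfl⟩
      · exact ⟨h1, h2⟩
  have n1 : y ∉ lev r x y (r x + 1) := fun hm => by
    have := (mem_lev.1 hm).2.2; omega
  have n2 : x ∉ insert y (lev r x y (r x + 1)) := fun hm => by
    rcases mem_insert.1 hm with e | e
    · exact hne e
    · have := (mem_lev.1 e).2.2; omega
  rw [hset, sum_insert n2, sum_insert n1] at he
  have hs : ∑ c ∈ lev r x y (r x + 1), (-1 : ℤ) ^ (r c) =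
      ((lev r x y (r x + 1)).card : ℤ) * (-1) ^ (r x + 1) := by
    rw [sum_congr rfl (fun c hc => by rw [(mem_lev.1 hc).2.2]), sum_const, nsmul_eq_mul]
  rw [hs, hr] at he
  have hu : ((-1 : ℤ) ^ (r x)) ≠ 0 := pow_ne_zero _ (by norm_num)
  have h2 : ((-1 : ℤ) ^ (r x)) * (2 - ((lev r x y (r x + 1)).card : ℤ)) = 0 := by
    rw [← he]; ring
  rcases mul_eq_zero.1 h2 with e | e
  · exact absurd e hu
  · omega

theorem diamond (h : FL r) (x y c : L) (hxy : x ≤ y) (hr : r y = r x + 2) :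
    ∃ a, a ∈ lev r x y (r x + 1) ∧ a ≠ c := by
  have := diamond_card h x y hxy hr
  exact exists_mem_ne (by omega) c

/-- two different covers of `x` meet in `x` -/
theorem cover_inf (h : FL r) (x a b : L) (ha : x ≤ a) (hb : x ≤ b) (ra : r a = r x + 1)
    (rb : r b = r x + 1) (hne : a ≠ b) : a ⊓ b = x := by
  have h1 : x ≤ a ⊓ b := le_inf ha hb
  have h2 : a ⊓ b ≠ a := fun e => hne (eq_of h a b (inf_eq_left.1 e) (by omega))
  have h3 := h.mono _ _ (lt_of_le_of_ne (inf_le_left : a ⊓ b ≤ a) h2)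
  exact (eq_of h _ _ h1 (by omega)).symm

theorem sep_aux (h : FL r) (w c : L) (hwc : w < c) (d : ℕ) : ∀ x : L, r w ≤ r x + d → x ≤ w →
    ∃ a, a ∈ lev r x c (r x + 1) ∧ ¬ a ≤ w := by
  have mwc := h.mono _ _ hwc
  have base : ∀ x : L, r w ≤ r x → x ≤ w → ∃ a, a ∈ lev r x c (r x + 1) ∧ ¬ a ≤ w := by
    intro x hd hxw
    have m := mono_le h _ _ hxw
    obtain ⟨a, ha⟩ := ex_lev h x c (r x + 1) (hxw.trans hwc.le) (by omega) (by omega)
    refine ⟨a, ha, fun hle => ?_⟩
    have := mono_le h _ _ hle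
    have := (mem_lev.1 ha).2.2
    omega
  induction d with
  | zero => intro x hd hxw; exact base x (by omega) hxw
  | succ d ih =>
    intro x hd hxw
    by_cases e : r w ≤ r x
    · exact base x e hxw
    obtain ⟨x', hx'⟩ := ex_lev h x w (r x + 1) hxw (by omega) (by omega)
    obtain ⟨p1, p2, p3⟩ := mem_lev.1 hx'
    obtain ⟨b, hb, hbw⟩ := ih x' (by omega) p2
    obtain ⟨q1, q2, q3⟩ := mem_lev.1 hb
    obtain ⟨a, ha, hne⟩ := diamond h x b x' (p1.trans q1) (by omega)
    obtain ⟨s1, s2, s3⟩ := mem_lev.1 ha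
    refine ⟨a, mem_lev.2 ⟨s1, s2.trans q2, s3⟩, fun hle => ?_⟩
    have t1 : x' ≤ w ⊓ b := le_inf p2 q1
    have t2 : w ⊓ b ≠ b := fun e' => hbw (inf_eq_right.1 e')
    have t3 := h.mono _ _ (lt_of_le_of_ne (inf_le_right : w ⊓ b ≤ b) t2)
    have t4 : x' = w ⊓ b := eq_of h _ _ t1 (by omega)
    have t5 : a ≤ x' := by rw [t4]; exact le_inf hle s2
    exact hne (eq_of h _ _ t5 (by omega))

theorem sep (h : FL r) (x w c : L) (hxw : x ≤ w) (hwc : w < c) :
    ∃ a, a ∈ lev r x c (r x + 1) ∧ ¬ a ≤ w :=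
  sep_aux h w c hwc (r w) x (by omega) hxw

theorem le_of_atoms (h : FL r) (x c c' : L) (hc : x ≤ c) (hc' : x ≤ c')
    (ha : ∀ a ∈ lev r x c (r x + 1), a ≤ c') : c ≤ c' := by
  by_contra hn
  have h2 : c ⊓ c' ≠ c := fun e => hn (inf_eq_left.1 e)
  obtain ⟨a, h3, h4⟩ := sep h x (c ⊓ c') c (le_inf hc hc') (lt_of_le_of_ne inf_le_left h2)
  exact h4 (le_inf (mem_lev.1 h3).2.1 (ha a h3))

theorem lev_mono {x x' y y' : L} (n : ℕ) (hx : x ≤ x') (hy : y' ≤ y) :
    lev r x' y' n ⊆ lev r x y n := fun c hc => by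
  obtain ⟨h1, h2, h3⟩ := mem_lev.1 hc
  exact mem_lev.2 ⟨hx.trans h1, h2.trans hy, h3⟩

theorem chain_aux (h : FL r) (x y : L) (d : ℕ) : ∀ w : L, r y ≤ r w + d → x ≤ w → w ≤ y →
    (lev r x w (r x + 1)).card + r y ≤ (lev r x y (r x + 1)).card + r w := by
  have base : ∀ w : L, r y ≤ r w → x ≤ w → w ≤ y →
      (lev r x w (r x + 1)).card + r y ≤ (lev r x y (r x + 1)).card + r w := by
    intro w hd hxw hwy
    have := card_le_card (lev_mono (r := r) (r x + 1) (le_refl x) hwy)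
    omega
  induction d with
  | zero => intro w hd; exact base w (by omega)
  | succ d ih =>
    intro w hd hxw hwy
    by_cases e : r y ≤ r w
    · exact base w e hxw hwy
    obtain ⟨w', hw'⟩ := ex_lev h w y (r w + 1) hwy (by omega) (by omega)
    obtain ⟨p1, p2, p3⟩ := mem_lev.1 hw'
    have i1 := ih w' (by omega) (hxw.trans p1) p2
    have hlt : w < w' := lt_of_le_of_ne p1 (fun e' => by rw [← e'] at p3; omega)
    obtain ⟨a, ha, haw⟩ := sep h x w w' hxw hlt
    have i2 : (lev r x w (r x + 1)).card < (lev r x w' (r x + 1)).card := by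
      apply card_lt_card
      refine (ssubset_iff_of_subset (lev_mono _ le_rfl p1)).2 ⟨a, ha, fun hm => ?_⟩
      exact haw (mem_lev.1 hm).2.1
    omega

theorem chain (h : FL r) (x w y : L) (hxw : x ≤ w) (hwy : w ≤ y) :
    (lev r x w (r x + 1)).card + r y ≤ (lev r x y (r x + 1)).card + r w :=
  chain_aux h x y (r y) w (by omega) hxw hwy

theorem atoms_ge (h : FL r) (x y : L) (hxy : x ≤ y) :
    r y ≤ (lev r x y (r x + 1)).card + r x := by
  have := chain h x x y le_rfl hxy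
  omega

theorem le_of_co_aux (h : FL r) (y w : L) (n : ℕ) (hn : r y = n + 1) (hw : w ≤ y) (d : ℕ) :
    ∀ c : L, r y ≤ r c + d → c ≤ y → (∀ z ∈ lev r c y n, w ≤ z) → w ≤ c := by
  induction d with
  | zero =>
    intro c hd hcy _
    rw [eq_of h c y hcy (by omega)]; exact hw
  | succ d ih =>
    intro c hd hcy hz
    by_cases e1 : r y ≤ r c
    · rw [eq_of h c y hcy e1]; exact hw
    by_cases e2 : r c = n
    · exact hz c (mem_lev.2 ⟨le_rfl, hcy, e2⟩)
    have hge := atoms_ge h c y hcy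
    obtain ⟨a, ha, b, hb, hab⟩ := one_lt_card.1 (by omega : 1 < (lev r c y (r c + 1)).card)
    obtain ⟨p1, p2, p3⟩ := mem_lev.1 ha
    obtain ⟨q1, q2, q3⟩ := mem_lev.1 hb
    have i1 := ih a (by omega) p2 (fun z hz' => hz z (lev_mono n p1 le_rfl hz'))
    have i2 := ih b (by omega) q2 (fun z hz' => hz z (lev_mono n q1 le_rfl hz'))
    rw [← cover_inf h c a b p1 q1 p3 q3 hab]
    exact le_inf i1 i2

theorem le_of_co (h : FL r) (c y w : L) (n : ℕ) (hn : r y = n + 1) (hw : w ≤ y) (hc : c ≤ y)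
    (hz : ∀ z ∈ lev r c y n, w ≤ z) : w ≤ c :=
  le_of_co_aux h y w n hn hw (r y) c (by omega) hc hz

theorem cosep (h : FL r) (x a y : L) (n : ℕ) (hn : r y = n + 1) (hxa : x ≤ a) (hay : a ≤ y)
    (hr : r a = r x + 1) : ∃ z, z ∈ lev r x y n ∧ ¬ a ≤ z := by
  by_contra hc
  push Not at hc
  have := mono_le h _ _ (le_of_co h x y a n hn hay (hxa.trans hay) hc)
  omega

theorem co_ge_aux (h : FL r) (y : L) (n : ℕ) (hn : r y = n + 1) (d : ℕ) :
    ∀ x : L, r y ≤ r x + d → x ≤ y → r y ≤ (lev r x y n).card + r x := by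
  induction d with
  | zero => intro x hd _; omega
  | succ d ih =>
    intro x hd hxy
    by_cases e : r y ≤ r x
    · omega
    obtain ⟨a, ha⟩ := ex_lev h x y (r x + 1) hxy (by omega) (by omega)
    obtain ⟨p1, p2, p3⟩ := mem_lev.1 ha
    have i1 := ih a (by omega) p2
    obtain ⟨z, hz, hza⟩ := cosep h x a y n hn p1 p2 p3
    have i2 : (lev r a y n).card < (lev r x y n).card := by
      apply card_lt_card
      refine (ssubset_iff_of_subset (lev_mono _ p1 le_rfl)).2 ⟨z, hz, fun hm => ?_⟩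
      exact hza (mem_lev.1 hm).1
    omega

theorem co_ge (h : FL r) (x y : L) (n : ℕ) (hn : r y = n + 1) (hxy : x ≤ y) :
    r y ≤ (lev r x y n).card + r x :=
  co_ge_aux h y n hn (r y) x (by omega) hxy

theorem cosimp (h : FL r) (x y : L) (n : ℕ) (_hxy : x ≤ y) (hn : r y = n + 1)
    (hc : (lev r x y n).card + r x ≤ r y) : Simp r x y := by
  classical
  have key : ∀ a : L, ∃ z : L, a ∈ lev r x y (r x + 1) → z ∈ lev r x y n ∧ ¬ a ≤ z := by
    intro a
    by_cases ha : a ∈ lev r x y (r x + 1)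
    · obtain ⟨p1, p2, p3⟩ := mem_lev.1 ha
      obtain ⟨z, hz⟩ := cosep h x a y n hn p1 p2 p3
      exact ⟨z, fun _ => hz⟩
    · exact ⟨a, fun h' => absurd h' ha⟩
  choose f hf using key
  have hset : ∀ a ∈ lev r x y (r x + 1), lev r a y n = (lev r x y n).erase (f a) := by
    intro a ha
    obtain ⟨p1, p2, p3⟩ := mem_lev.1 ha
    apply eq_of_subset_of_card_le
    · intro z hz
      refine mem_erase.2 ⟨fun e => (hf a ha).2 ?_, lev_mono n p1 le_rfl hz⟩
      rw [← e]; exact (mem_lev.1 hz).1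
    · rw [card_erase_of_mem (hf a ha).1]
      have := co_ge h a y n hn p2
      omega
  have hcard : (lev r x y (r x + 1)).card ≤ (lev r x y n).card := by
    apply card_le_card_of_injOn f (fun a ha => (hf a ha).1)
    intro a ha b hb hab
    have ha' : a ∈ lev r x y (r x + 1) := ha
    have hb' : b ∈ lev r x y (r x + 1) := hb
    obtain ⟨p1, p2, p3⟩ := mem_lev.1 ha'
    obtain ⟨q1, q2, q3⟩ := mem_lev.1 hb'
    have e : lev r a y n = lev r b y n := by rw [hset a ha', hset b hb', hab]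
    have : a ≤ b := le_of_co h b y a n hn p2 q2 (fun z hz => by
      rw [← e] at hz; exact (mem_lev.1 hz).1)
    exact eq_of h a b this (by omega)
  unfold Simp
  omega

theorem card_atoms (h : FL r) (x y c : L) (hs : Simp r x y) (hxc : x ≤ c) (hcy : c ≤ y) :
    (lev r x c (r x + 1)).card + r x = r c := by
  have h1 := atoms_ge h x c hxc
  have h2 := chain h x c y hxc hcy
  unfold Simp at hs
  omega

theorem atoms_inj (h : FL r) (x c c' : L) (hc : x ≤ c) (hc' : x ≤ c')
    (e : lev r x c (r x + 1) = lev r x c' (r x + 1)) : c = c' := by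
  apply le_antisymm
  · exact le_of_atoms h x c c' hc hc' (fun a ha => by rw [e] at ha; exact (mem_lev.1 ha).2.1)
  · exact le_of_atoms h x c' c hc' hc (fun a ha => by rw [← e] at ha; exact (mem_lev.1 ha).2.1)

theorem sub (h : FL r) (x y x' y' : L) (hs : Simp r x y) (h1 : x ≤ x') (h2 : x' ≤ y')
    (h3 : y' ≤ y) : Simp r x' y' := by
  classical
  have key : ∀ b : L, ∃ a : L, b ∈ lev r x' y' (r x' + 1) →
      a ∈ lev r x b (r x + 1) ∧ ¬ a ≤ x' := by
    intro b
    by_cases hb : b ∈ lev r x' y' (r x' + 1)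
    · obtain ⟨p1, p2, p3⟩ := mem_lev.1 hb
      obtain ⟨a, ha⟩ := sep h x x' b h1 (lt_of_le_of_ne p1 (fun e => by rw [← e] at p3; omega))
      exact ⟨a, fun _ => ha⟩
    · exact ⟨b, fun h' => absurd h' hb⟩
  choose f hf using key
  have hcard : (lev r x' y' (r x' + 1)).card ≤
      (lev r x y' (r x + 1) \ lev r x x' (r x + 1)).card := by
    apply card_le_card_of_injOn f
    · intro b hb
      have hb' : b ∈ lev r x' y' (r x' + 1) := hb
      have : f b ∈ lev r x y' (r x + 1) \ lev r x x' (r x + 1) :=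
        mem_sdiff.2 ⟨lev_mono _ le_rfl (mem_lev.1 hb').2.1 (hf b hb').1,
          fun hm => (hf b hb').2 (mem_lev.1 hm).2.1⟩
      exact this
    · intro a ha b hb hab
      have ha' : a ∈ lev r x' y' (r x' + 1) := ha
      have hb' : b ∈ lev r x' y' (r x' + 1) := hb
      obtain ⟨p1, p2, p3⟩ := mem_lev.1 ha'
      obtain ⟨q1, q2, q3⟩ := mem_lev.1 hb'
      by_contra hne
      apply (hf a ha').2
      rw [← cover_inf h x' a b p1 q1 p3 q3 hne]
      refine le_inf (mem_lev.1 (hf a ha').1).2.1 ?_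
      rw [hab]; exact (mem_lev.1 (hf b hb').1).2.1
  have e1 := card_sdiff_add_card_eq_card (lev_mono (r := r) (r x + 1) (le_refl x) h2)
  have e2 := card_atoms h x y x' hs h1 (h2.trans h3)
  have e3 := card_atoms h x y y' hs (h1.trans h2) h3
  unfold Simp
  omega

theorem step [DecidableEq L] (h : FL r) (x y c a : L) (hs : Simp r x y) (hcy : c ≤ y)
    (ha : a ∈ lev r x c (r x + 1)) :
    ∃ c', x ≤ c' ∧ c' ≤ c ∧ lev r x c' (r x + 1) = (lev r x c (r x + 1)).erase a := by
  obtain ⟨p1, p2, p3⟩ := mem_lev.1 ha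
  have hxc : x ≤ c := p1.trans p2
  have m := mono_le h _ _ p2
  obtain ⟨n, hn⟩ : ∃ n, r c = n + 1 := ⟨r c - 1, by omega⟩
  have e1 := card_atoms h x y c hs hxc hcy
  have e2 := co_ge h x c n hn hxc
  have hinj : Set.InjOn (fun d => lev r x d (r x + 1)) (lev r x c n : Set L) := by
    intro d hd d' hd' e
    have hd1 : d ∈ lev r x c n := hd
    have hd2 : d' ∈ lev r x c n := hd'
    exact atoms_inj h x d d' (mem_lev.1 hd1).1 (mem_lev.1 hd2).1 e
  have himg : (lev r x c n).image (fun d => lev r x d (r x + 1)) =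
      powersetCard (n - r x) (lev r x c (r x + 1)) := by
    apply eq_of_subset_of_card_le
    · intro T hT
      obtain ⟨d, hd, rfl⟩ := mem_image.1 hT
      obtain ⟨q1, q2, q3⟩ := mem_lev.1 hd
      have := card_atoms h x y d hs q1 (q2.trans hcy)
      exact mem_powersetCard.2 ⟨lev_mono _ le_rfl q2, by omega⟩
    · rw [card_image_of_injOn hinj, card_powersetCard]
      have e3 : (lev r x c (r x + 1)).card = n - r x + 1 := by omega
      rw [e3, Nat.choose_succ_self_right]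
      omega
  have hmem : (lev r x c (r x + 1)).erase a ∈ powersetCard (n - r x) (lev r x c (r x + 1)) := by
    refine mem_powersetCard.2 ⟨erase_subset _ _, ?_⟩
    rw [card_erase_of_mem ha]; omega
  rw [← himg] at hmem
  obtain ⟨d, hd, e⟩ := mem_image.1 hmem
  exact ⟨d, (mem_lev.1 hd).1, (mem_lev.1 hd).2.1, e⟩

theorem surj_aux (h : FL r) (x y : L) (hxy : x ≤ y) (hs : Simp r x y) (k : ℕ) :
    ∀ T : Finset L, T ⊆ lev r x y (r x + 1) → (lev r x y (r x + 1)).card = T.card + k →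
      ∃ c, x ≤ c ∧ c ≤ y ∧ lev r x c (r x + 1) = T := by
  classical
  induction k with
  | zero =>
    intro T hT hc
    exact ⟨y, hxy, le_rfl, (eq_of_subset_of_card_le hT (by omega)).symm⟩
  | succ k ih =>
    intro T hT hc
    obtain ⟨a, ha, haT⟩ := exists_mem_notMem_of_card_lt_card
      (by omega : T.card < (lev r x y (r x + 1)).card)
    obtain ⟨c, h1, h2, h3⟩ := ih (insert a T) (insert_subset ha hT)
      (by rw [card_insert_of_notMem haT]; omega)
    obtain ⟨c', g1, g2, g3⟩ := step h x y c a hs h2 (by rw [h3]; exact mem_insert_self _ _)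
    exact ⟨c', g1, g2.trans h2, by rw [g3, h3, erase_insert haT]⟩

theorem surj (h : FL r) (x y : L) (hxy : x ≤ y) (hs : Simp r x y) (T : Finset L)
    (hT : T ⊆ lev r x y (r x + 1)) : ∃ c, x ≤ c ∧ c ≤ y ∧ lev r x c (r x + 1) = T := by
  have := card_le_card hT
  exact surj_aux h x y hxy hs ((lev r x y (r x + 1)).card - T.card) T hT (by omega)

theorem card_lev (h : FL r) (x y : L) (i : ℕ) (hxy : x ≤ y) (hs : Simp r x y) :
    (lev r x y (r x + i)).card = (r y - r x).choose i := by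
  classical
  have hinj : Set.InjOn (fun d => lev r x d (r x + 1)) (lev r x y (r x + i) : Set L) := by
    intro d hd d' hd' e
    have hd1 : d ∈ lev r x y (r x + i) := hd
    have hd2 : d' ∈ lev r x y (r x + i) := hd'
    exact atoms_inj h x d d' (mem_lev.1 hd1).1 (mem_lev.1 hd2).1 e
  have himg : (lev r x y (r x + i)).image (fun d => lev r x d (r x + 1)) =
      powersetCard i (lev r x y (r x + 1)) := by
    ext T
    rw [mem_image, mem_powersetCard]
    constructor
    · rintro ⟨d, hd, rfl⟩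
      obtain ⟨q1, q2, q3⟩ := mem_lev.1 hd
      have := card_atoms h x y d hs q1 q2
      exact ⟨lev_mono _ le_rfl q2, by omega⟩
    · rintro ⟨h1, h2⟩
      obtain ⟨c, g1, g2, g3⟩ := surj h x y hxy hs T h1
      have := card_atoms h x y c hs g1 g2
      rw [g3] at this
      exact ⟨c, mem_lev.2 ⟨g1, g2, by omega⟩, g3⟩
  have e1 := card_atoms h x y y hs hxy le_rfl
  rw [← card_image_of_injOn hinj, himg, card_powersetCard]
  congr 1
  omega

theorem omit_atom (h : FL r) (x y a : L) (hs : Simp r x y) (ha : a ∈ lev r x y (r x + 1)) :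
    ∃ c, x ≤ c ∧ c ≤ y ∧ r c + 1 = r y ∧ ¬ a ≤ c ∧
      ∀ b ∈ lev r x y (r x + 1), b ≠ a → b ≤ c := by
  classical
  obtain ⟨p1, p2, p3⟩ := mem_lev.1 ha
  obtain ⟨c, g1, g2, g3⟩ := step h x y y a hs le_rfl ha
  have e1 := card_atoms h x y y hs (p1.trans p2) le_rfl
  have e2 := card_atoms h x y c hs g1 g2
  rw [g3, card_erase_of_mem ha] at e2
  have e3 := card_pos.2 ⟨a, ha⟩
  refine ⟨c, g1, g2, by omega, fun hle => ?_, fun b hb hne => ?_⟩
  · have : a ∈ lev r x c (r x + 1) := mem_lev.2 ⟨p1, hle, p3⟩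
    rw [g3] at this
    exact notMem_erase _ _ this
  · have : b ∈ lev r x c (r x + 1) := by rw [g3]; exact mem_erase.2 ⟨hne, hb⟩
    exact (mem_lev.1 this).2.1

theorem meet2 (h : FL r) (x y c c' : L) (n : ℕ) (hs : Simp r x y) (hn : r y = n + 1)
    (hc : c ∈ lev r x y n) (hc' : c' ∈ lev r x y n) (hne : c ≠ c') : r (c ⊓ c') + 2 = r y := by
  classical
  obtain ⟨p1, p2, p3⟩ := mem_lev.1 hc
  obtain ⟨q1, q2, q3⟩ := mem_lev.1 hc'
  have e1 := card_atoms h x y y hs (p1.trans p2) le_rfl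
  have e2 := card_atoms h x y c hs p1 p2
  have e3 := card_atoms h x y c' hs q1 q2
  have e4 := card_atoms h x y (c ⊓ c') hs (le_inf p1 q1) (inf_le_left.trans p2)
  have e5 : lev r x (c ⊓ c') (r x + 1) = lev r x c (r x + 1) ∩ lev r x c' (r x + 1) := by
    ext a
    simp only [mem_inter, mem_lev, le_inf_iff]
    tauto
  have e6 := card_union_add_card_inter (lev r x c (r x + 1)) (lev r x c' (r x + 1))
  have e7 : (lev r x c (r x + 1) ∪ lev r x c' (r x + 1)).card ≤ (lev r x y (r x + 1)).card :=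
    card_le_card (union_subset (lev_mono _ le_rfl p2) (lev_mono _ le_rfl q2))
  have h2 : c ⊓ c' ≠ c := fun e => hne (eq_of h c c' (inf_eq_left.1 e) (by omega))
  have e8 := h.mono _ _ (lt_of_le_of_ne (inf_le_left : c ⊓ c' ≤ c) h2)
  rw [e5] at e4
  omega

end LBasic

theorem basicS : BasicS := fun _ _ _ _ h =>
  { mono := h.mono
    mono_le := LBasic.mono_le h
    eq_of := LBasic.eq_of h
    ex_lev := LBasic.ex_lev h
    atoms_ge := LBasic.atoms_ge h
    le_of_atoms := LBasic.le_of_atoms h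
    sub := LBasic.sub h
    card_lev := LBasic.card_lev h
    omit_atom := LBasic.omit_atom h
    cosimp := LBasic.cosimp h
    meet2 := LBasic.meet2 h }

end KHPoly
end

-- part Pool.Agent.Lib.MP_bfa8dc_co.LProp
section

/-! Propagation of Boolean intervals: the statement `Prop1S`. -/

set_option autoImplicit false

namespace KHPoly

open Finset

namespace LProp

variable {L : Type} [SemilatticeInf L] [Fintype L] {r : L → ℕ}

/-- the cover-meet trick -/
theorem cover_meet (hB : Basic r) {x c s y : L} (hxc : x ≤ c) (hxs : x ≤ s)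
    (hr : r s = r x + 1) (hyc : y ≤ c) (hys : y ≤ s) (hyx : ¬ y ≤ x) : s ≤ c := by
  have h1 : x ≤ c ⊓ s := le_inf hxc hxs
  have h2 : x ≠ c ⊓ s := by
    intro h
    apply hyx
    rw [h]
    exact le_inf hyc hys
  have h3 := hB.mono _ _ (lt_of_le_of_ne h1 h2)
  have h4 : c ⊓ s = s := hB.eq_of _ _ inf_le_right (by omega)
  rw [← h4]
  exact inf_le_left

/-- at most one atom of `[A,S]` is not below the coatom `F` -/
theorem uniq_atom {k : ℕ} (hB : Basic r) (hK : KH r k) {A F S v w : L} (hAF : A ≤ F)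
    (hFS : F ≤ S) (hF : r F = k) (hS : r S = k + 1) (hv : v ∈ lev r A S (r A + 1))
    (hw : w ∈ lev r A S (r A + 1)) (hvF : ¬ v ≤ F) (hwF : ¬ w ≤ F) : v = w := by
  classical
  by_contra hne
  have h1 : Simp r A S := hK.low A S (hAF.trans hFS) (by omega)
  have h2 := hB.atoms_ge A F hAF
  have hsub : insert v (insert w (lev r A F (r A + 1))) ⊆ lev r A S (r A + 1) := by
    intro z hz
    rcases mem_insert.1 hz with rfl | hz
    · exact hv
    rcases mem_insert.1 hz with rfl | hz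
    · exact hw
    obtain ⟨a1, a2, a3⟩ := mem_lev.1 hz
    exact mem_lev.2 ⟨a1, a2.trans hFS, a3⟩
  have hw' : w ∉ lev r A F (r A + 1) := fun h => hwF (mem_lev.1 h).2.1
  have hv' : v ∉ insert w (lev r A F (r A + 1)) := by
    intro h
    rcases mem_insert.1 h with h | h
    · exact hne h
    · exact hvF (mem_lev.1 h).2.1
  have hc := card_le_card hsub
  rw [card_insert_of_notMem hv', card_insert_of_notMem hw'] at hc
  unfold Simp at h1
  omega

/-- some atom of `[A,S]` is not below `F` -/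
theorem ex_atom (hB : Basic r) {A F S : L} (hAF : A ≤ F) (hFS : F ≤ S) (hS : r S = r F + 1) :
    ∃ v ∈ lev r A S (r A + 1), ¬ v ≤ F := by
  by_contra hno
  push Not at hno
  have h := hB.le_of_atoms A S F (hAF.trans hFS) hAF hno
  have := hB.mono_le _ _ h
  omega

end LProp

open LProp in
theorem prop1S : Prop1S := by
  classical
  intro L _ _ r k hFL hB hK A F B hAF hFB hF hkB hE
  have hAB : A ≤ B := hAF.trans hFB
  set Y : Finset L :=
    (lev r A B (r A + 1)).filter (fun y => ∃ S ∈ lev r F B (r F + 1), y ≤ S) with hY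
  have memY : ∀ y, y ∈ Y ↔ (A ≤ y ∧ y ≤ B ∧ r y = r A + 1) ∧
      ∃ S, (F ≤ S ∧ S ≤ B ∧ r S = r F + 1) ∧ y ≤ S := by
    intro y
    simp only [hY, mem_filter, mem_lev]
  obtain ⟨S0, hS0⟩ := hB.ex_lev F B (r F + 1) hFB (by omega) (by omega)
  obtain ⟨hFS0, hS0B, hrS0⟩ := mem_lev.1 hS0
  refine hFL.span A B Y hAB (fun y hy => mem_lev.2 ((memY y).1 hy).1) ?_ ?_
  · -- size
    have hex : ∀ S : L, ∃ v : L, S ∈ lev r F B (r F + 1) →
        v ∈ lev r A S (r A + 1) ∧ ¬ v ≤ F := by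
      intro S
      by_cases h : S ∈ lev r F B (r F + 1)
      · obtain ⟨a1, _, a3⟩ := mem_lev.1 h
        obtain ⟨v, hv, hvF⟩ := ex_atom hB hAF a1 a3
        exact ⟨v, fun _ => ⟨hv, hvF⟩⟩
      · exact ⟨A, fun h' => absurd h' h⟩
    choose v hv using hex
    have hinj : Set.InjOn v (lev r F B (r F + 1) : Set L) := by
      intro S hS S' hS' hSS
      have hS1 : S ∈ lev r F B (r F + 1) := hS
      have hS2 : S' ∈ lev r F B (r F + 1) := hS'
      obtain ⟨a1, _, a3⟩ := mem_lev.1 hS1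
      obtain ⟨b1, _, b3⟩ := mem_lev.1 hS2
      obtain ⟨c1, c2⟩ := hv S hS1
      obtain ⟨d1, _⟩ := hv S' hS2
      have hle : S ≤ S' :=
        cover_meet hB b1 a1 a3 (hSS ▸ (mem_lev.1 d1).2.1) (mem_lev.1 c1).2.1 c2
      exact hB.eq_of _ _ hle (by omega)
    have hdisj : Disjoint (lev r A F (r A + 1)) ((lev r F B (r F + 1)).image v) := by
      rw [Finset.disjoint_left]
      intro z hz hz'
      obtain ⟨S, hS, rfl⟩ := mem_image.1 hz'
      exact (hv S hS).2 (mem_lev.1 hz).2.1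
    have hsub : lev r A F (r A + 1) ∪ (lev r F B (r F + 1)).image v ⊆ Y := by
      intro z hz
      rcases mem_union.1 hz with hz | hz
      · obtain ⟨a1, a2, a3⟩ := mem_lev.1 hz
        exact (memY z).2 ⟨⟨a1, a2.trans hFB, a3⟩, S0, ⟨hFS0, hS0B, hrS0⟩, a2.trans hFS0⟩
      · obtain ⟨S, hS, rfl⟩ := mem_image.1 hz
        obtain ⟨a1, a2, a3⟩ := mem_lev.1 (hv S hS).1
        obtain ⟨b1, b2, b3⟩ := mem_lev.1 hS
        exact (memY _).2 ⟨⟨a1, a2.trans b2, a3⟩, S, ⟨b1, b2, b3⟩, a2⟩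
    have hc := card_le_card hsub
    rw [card_union_of_disjoint hdisj, card_image_of_injOn hinj] at hc
    have h1 := hB.atoms_ge A F hAF
    have h2 := hB.atoms_ge F B hFB
    omega
  · -- separation
    intro y hy
    obtain ⟨⟨hAy, hyB, hry⟩, S, ⟨hFS, hSB, hrS⟩, hyS⟩ := (memY y).1 hy
    by_cases hyF : y ≤ F
    · have hAFs : Simp r A F := hK.low A F hAF (by omega)
      obtain ⟨E, hAE, hEF, hrE, hyE, hEo⟩ :=
        hB.omit_atom A F y hAFs (mem_lev.2 ⟨hAy, hyF, hry⟩)
      have hEB : Simp r E B := hE E hAE hEF (by omega)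
      obtain ⟨C, hEC, hCB, _, hFC, hCo⟩ :=
        hB.omit_atom E B F hEB (mem_lev.2 ⟨hEF, hFB, by omega⟩)
      refine ⟨C, hAE.trans hEC, hCB, ?_, ?_⟩
      · intro hyC
        exact hFC (cover_meet hB hEC hEF (by omega) hyC hyF hyE)
      · intro y' hy' hne
        obtain ⟨⟨hAy', _, hry'⟩, S', ⟨hFS', hSB', hrS'⟩, hyS'⟩ := (memY y').1 hy'
        have hAS' : Simp r A S' := hK.low A S' (hAF.trans hFS') (by omega)
        obtain ⟨F', hAF', hF'S, hrF', hyF', hFo⟩ :=
          hB.omit_atom A S' y hAS' (mem_lev.2 ⟨hAy, hyF.trans hFS', hry⟩)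
        have hEF' : E ≤ F' := by
          refine hB.le_of_atoms A E F' hAE hAF' ?_
          intro a ha
          obtain ⟨a1, a2, a3⟩ := mem_lev.1 ha
          refine hFo a (mem_lev.2 ⟨a1, a2.trans (hEF.trans hFS'), a3⟩) ?_
          rintro rfl
          exact hyE a2
        have hne' : F' ≠ F := by
          rintro rfl
          exact hyF' hyF
        have hF'C : F' ≤ C := hCo F' (mem_lev.2 ⟨hEF', hF'S.trans hSB', by omega⟩) hne'
        exact (hFo y' (mem_lev.2 ⟨hAy', hyS', hry'⟩) hne).trans hF'C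
    · have hFBs : Simp r F B := hK.up F B hFB (by omega)
      obtain ⟨C, hFC, hCB, _, hSC, hCo⟩ :=
        hB.omit_atom F B S hFBs (mem_lev.2 ⟨hFS, hSB, hrS⟩)
      refine ⟨C, hAF.trans hFC, hCB, ?_, ?_⟩
      · intro hyC
        exact hSC (cover_meet hB hFC hFS hrS hyC hyS hyF)
      · intro y' hy' hne
        obtain ⟨⟨hAy', _, hry'⟩, S', ⟨hFS', hSB', hrS'⟩, hyS'⟩ := (memY y').1 hy'
        by_cases hSS : S' = S
        · subst hSS
          by_cases hy'F : y' ≤ F
          · exact hy'F.trans hFC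
          · exact absurd (uniq_atom hB hK hAF hFS hF (by omega)
              (mem_lev.2 ⟨hAy', hyS', hry'⟩) (mem_lev.2 ⟨hAy, hyS, hry⟩) hy'F hyF) hne
        · exact hyS'.trans (hCo S' (mem_lev.2 ⟨hFS', hSB', hrS'⟩) hSS)

end KHPoly
end

-- part Pool.Agent.Lib.MP_bfa8dc_co.LTwo
section

/-! Two adjacent Boolean coatoms force a Boolean interval. -/

set_option autoImplicit false

namespace KHPoly

open Finset

namespace LTwo

variable {L : Type} [SemilatticeInf L] [Fintype L] {r : L → ℕ}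

/-- a coatom of a Boolean interval misses only one atom -/
theorem one_atom (hB : Basic r) {A ρ P y y' : L} (hs : Simp r A P) (h1 : A ≤ ρ) (h2 : ρ ≤ P)
    (h3 : r ρ + 1 = r P) (hy : y ∈ lev r A P (r A + 1)) (hy' : y' ∈ lev r A P (r A + 1))
    (n1 : ¬ y ≤ ρ) (n2 : ¬ y' ≤ ρ) : y = y' := by
  classical
  by_contra hne
  have a1 : insert y (insert y' (lev r A ρ (r A + 1))) ⊆ lev r A P (r A + 1) := by
    refine insert_subset hy (insert_subset hy' fun c hc => ?_)
    rw [mem_lev] at hc ⊢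
    exact ⟨hc.1, hc.2.1.trans h2, hc.2.2⟩
  have a2 := card_le_card a1
  rw [card_insert_of_notMem (by
      rw [mem_insert, mem_lev]
      exact fun h => h.elim hne fun h => n1 h.2.1),
    card_insert_of_notMem (by rw [mem_lev]; exact fun h => n2 h.2.1)] at a2
  have a3 := hB.atoms_ge A ρ h1
  unfold Simp at hs
  omega

theorem cover_meet (hB : Basic r) {x c s y : L} (h1 : x ≤ c) (h2 : x ≤ s) (h3 : r s = r x + 1)
    (h4 : y ≤ c) (h5 : y ≤ s) (h6 : ¬ y ≤ x) : s ≤ c := by
  have a1 : x < c ⊓ s := lt_of_le_of_ne (le_inf h1 h2) fun h => h6 (h ▸ le_inf h4 h5)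
  have a2 := hB.mono _ _ a1
  exact (hB.eq_of (c ⊓ s) s inf_le_right (by omega)) ▸ inf_le_left

/-- the element omitting `y` in `[A,P]` lies below the element omitting `ρ` in `[σ,B]` -/
theorem omit_le (hB : Basic r) {A B P ρ σ C y b : L} (hs : Simp r A P) (hP : P ≤ B)
    (hy : y ∈ lev r A P (r A + 1)) (hyρ : y ≤ ρ) (h1 : A ≤ σ) (h2 : σ ≤ P) (h3 : r σ + 2 = r P)
    (h4 : ¬ y ≤ σ) (hC : ∀ t ∈ lev r σ B (r σ + 1), t ≠ ρ → t ≤ C)
    (hb : b ∈ lev r A P (r A + 1)) (hby : b ≠ y) : b ≤ C := by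
  obtain ⟨τ, t1, t2, t3, t4, t5⟩ := hB.omit_atom A P y hs hy
  have a1 : σ ≤ τ := hB.le_of_atoms A σ τ h1 t1 fun a ha => by
    rw [mem_lev] at ha
    exact t5 a (mem_lev.2 ⟨ha.1, ha.2.1.trans h2, ha.2.2⟩) fun h => h4 (h ▸ ha.2.1)
  exact (t5 b hb hby).trans
    (hC τ (mem_lev.2 ⟨a1, t2.trans hP, by omega⟩) fun h => t4 (h ▸ hyρ))

end LTwo

open LTwo in
theorem twoFS : TwoFS := by
  intro L _ _ r k hF hB hK A B P P' hAP hAP' hPB hPB' r1 r2 r3 hk hA s1 s2
  classical
  have hρ : A ≤ P ⊓ P' := le_inf hAP hAP'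
  refine hF.span A B (lev r A P (r A + 1) ∪ lev r A P' (r A + 1)) (hAP.trans hPB) ?_ ?_ ?_
  · intro c hc
    rw [mem_union, mem_lev, mem_lev] at hc
    rw [mem_lev]
    exact hc.elim (fun h => ⟨h.1, h.2.1.trans hPB, h.2.2⟩) fun h => ⟨h.1, h.2.1.trans hPB', h.2.2⟩
  · obtain ⟨v, hv, nv⟩ : ∃ v ∈ lev r A P' (r A + 1), ¬ v ≤ P := by
      by_contra h
      push Not at h
      rw [inf_eq_right.2 (hB.le_of_atoms A P' P hAP' hAP h)] at r3
      omega
    have a1 : insert v (lev r A P (r A + 1)) ⊆ lev r A P (r A + 1) ∪ lev r A P' (r A + 1) :=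
      insert_subset (mem_union_right _ hv) subset_union_left
    have a2 := card_le_card a1
    rw [card_insert_of_notMem (by rw [mem_lev]; exact fun h => nv h.2.1)] at a2
    have a3 := hB.atoms_ge A P hAP
    omega
  · intro y hy
    rw [mem_union] at hy
    have hy0 : A ≤ y ∧ r y = r A + 1 :=
      hy.elim (fun h => ⟨(mem_lev.1 h).1, (mem_lev.1 h).2.2⟩)
        fun h => ⟨(mem_lev.1 h).1, (mem_lev.1 h).2.2⟩
    by_cases c2 : y ≤ P'
    · by_cases c1 : y ≤ P
      · have y1 : y ∈ lev r A P (r A + 1) := mem_lev.2 ⟨hy0.1, c1, hy0.2⟩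
        have y2 : y ∈ lev r A P' (r A + 1) := mem_lev.2 ⟨hy0.1, c2, hy0.2⟩
        obtain ⟨σ, t1, t2, t3, t4, -⟩ := hB.omit_atom A (P ⊓ P') y
          (hB.sub A P A _ s1 le_rfl hρ inf_le_left) (mem_lev.2 ⟨hy0.1, le_inf c1 c2, hy0.2⟩)
        have hσ : σ ≤ B := t2.trans (inf_le_left.trans hPB)
        obtain ⟨C, u1, u2, -, u4, u5⟩ := hB.omit_atom σ B (P ⊓ P') (hK.up σ B hσ (by omega))
          (mem_lev.2 ⟨t2, inf_le_left.trans hPB, t3.symm⟩)
        refine ⟨C, t1.trans u1, u2, fun h => u4 (cover_meet hB u1 t2 t3.symm h (le_inf c1 c2) t4),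
          fun b hb hby => ?_⟩
        rcases mem_union.1 hb with hb | hb
        · exact omit_le hB s1 hPB y1 (le_inf c1 c2) t1 (t2.trans inf_le_left) (by omega) t4 u5 hb
            hby
        · exact omit_le hB s2 hPB' y2 (le_inf c1 c2) t1 (t2.trans inf_le_right) (by omega) t4 u5 hb
            hby
      · refine ⟨P, hAP, hPB, c1, fun b hb hby => ?_⟩
        by_contra nb
        have hb' := (mem_union.1 hb).resolve_left fun h => nb (mem_lev.1 h).2.1
        exact hby (one_atom hB s2 hρ inf_le_right (by omega) hb' (mem_lev.2 ⟨hy0.1, c2, hy0.2⟩)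
          (fun h => nb (h.trans inf_le_left)) fun h => c1 (h.trans inf_le_left))
    · refine ⟨P', hAP', hPB', c2, fun b hb hby => ?_⟩
      by_contra nb
      have hb' := (mem_union.1 hb).resolve_right fun h => nb (mem_lev.1 h).2.1
      have y1 := hy.resolve_right fun h => c2 (mem_lev.1 h).2.1
      exact hby (one_atom hB s1 hρ inf_le_left (by omega) hb' y1
        (fun h => nb (h.trans inf_le_right)) fun h => c2 (h.trans inf_le_right))

end KHPoly
end

-- part Pool.Agent.Lib.MP_bfa8dc_co.LStar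
section

/-! The star bound: double counting of non-Boolean intervals around an atom. -/

set_option autoImplicit false

namespace KHPoly

open Finset

namespace LStar

variable {L : Type} [SemilatticeInf L] [Fintype L] {r : L → ℕ} {k : ℕ}

theorem mem_badG {A u B G : L} :
    G ∈ badG r k A u B ↔ (u ≤ G ∧ G ≤ B ∧ r G = k + 2) ∧ ¬ Simp r A G := by
  classical
  rw [badG, mem_filter, mem_lev]

theorem card_coatoms (hb : Basic r) {x y : L} {i : ℕ} (hxy : x ≤ y) (hs : Simp r x y)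
    (hr : r y = r x + i + 1) : (lev r x y (r x + i)).card = i + 1 := by
  rw [hb.card_lev x y i hxy hs, show r y - r x = i + 1 by omega, Nat.choose_succ_self_right]

end LStar

theorem starS : StarS := by
  classical
  intro L _ _ r k hb _ h2 b j A u
  induction b with
  | zero =>
    intro B _ huB _ _ hB _ hn
    rw [Nat.add_zero, Nat.choose_self]
    exact card_pos.2 ⟨B, LStar.mem_badG.2 ⟨⟨huB, le_rfl, hB⟩, hn⟩⟩
  | succ b ih =>
    intro B hAu huB hu hk hB hs hn
    have e : r u + (j + 2 + b) = k + 2 + b := by omega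
    have hc : (lev r u B (k + 2 + b)).card = j + 2 + b + 1 := by
      rw [← e]
      exact LStar.card_coatoms hb huB hs (by omega)
    have h1 : ((lev r u B (k + 2 + b)).filter fun P => Simp r A P).card ≤ 1 := by
      refine card_le_one.2 fun P hP P' hP' => ?_
      by_contra hne
      obtain ⟨p, sP⟩ := mem_filter.1 hP
      obtain ⟨p', sP'⟩ := mem_filter.1 hP'
      have hm := hb.meet2 u B P P' (k + 2 + b) hs (by omega) p p' hne
      obtain ⟨a1, a2, a3⟩ := mem_lev.1 p
      obtain ⟨b1, b2, b3⟩ := mem_lev.1 p'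
      exact hn (h2 A B P P' (hAu.trans a1) (hAu.trans b1) a2 b2 (by omega) (by omega) hm
        (by omega) (by omega) sP sP')
    have h3 := card_filter_add_card_filter_not (s := lev r u B (k + 2 + b)) fun P => Simp r A P
    have h4 : j + 1 + b + 1 ≤ ((lev r u B (k + 2 + b)).filter fun P => ¬ Simp r A P).card := by
      omega
    have h5 := card_mul_le_card_mul
      (s := (lev r u B (k + 2 + b)).filter fun P => ¬ Simp r A P) (t := badG r k A u B)
      (m := (j + 1 + b).choose (j + 1)) (n := b + 1) (fun P G : L => G ≤ P)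
      (fun P hP => by
        obtain ⟨p, nP⟩ := mem_filter.1 hP
        obtain ⟨a1, a2, a3⟩ := mem_lev.1 p
        refine (ih P hAu a1 hu hk a3 (hb.sub u B u P hs le_rfl a1 a2) nP).trans
          (card_le_card fun G hG => ?_)
        obtain ⟨⟨g1, g2, g3⟩, g4⟩ := LStar.mem_badG.1 hG
        exact (mem_bipartiteAbove _).2 ⟨LStar.mem_badG.2 ⟨⟨g1, g2.trans a2, g3⟩, g4⟩, g2⟩)
      (fun G hG => by
        obtain ⟨⟨g1, g2, g3⟩, -⟩ := LStar.mem_badG.1 hG
        rw [← LStar.card_coatoms hb (i := b) g2 (hb.sub u B G B hs g1 g2 le_rfl) (by omega)]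
        refine card_le_card fun P hP => ?_
        obtain ⟨p, gP⟩ := (mem_bipartiteBelow _).1 hP
        obtain ⟨-, a2, a3⟩ := mem_lev.1 (mem_filter.1 p).1
        exact mem_lev.2 ⟨gP, a2, by omega⟩)
    have h6 := Nat.choose_mul_succ_eq (j + 1 + b) (j + 1)
    rw [show j + 1 + b + 1 - (j + 1) = b + 1 by omega] at h6
    refine Nat.le_of_mul_le_mul_right ?_ (Nat.succ_pos b)
    rw [show j + 1 + (b + 1) = j + 1 + b + 1 from rfl, ← h6, mul_comm]
    exact (Nat.mul_le_mul_right _ h4).trans h5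

end KHPoly
end

-- part Pool.Agent.Lib.MP_bfa8dc_co.CEul
section

/-! Euler relations for the numbers of pairs of faces. -/

set_option autoImplicit false

namespace KHPoly

open Finset

namespace CEul

variable {L : Type} [SemilatticeInf L] [Fintype L]

open Classical in
/-- number of elements of rank `k - a` below `c` -/
noncomputable def lo (r : L → ℕ) (k a : ℕ) (c : L) : ℤ :=
  ∑ A : L, if A ≤ c ∧ r A + a = k then 1 else 0

open Classical in
/-- number of elements of rank `k + 1 + b` above `c` -/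
noncomputable def hi (r : L → ℕ) (k b : ℕ) (c : L) : ℤ :=
  ∑ B : L, if c ≤ B ∧ r B = k + 1 + b then 1 else 0

theorem npair_eq (r : L → ℕ) (k a b : ℕ) :
    (npair r k a b : ℤ) = by
      classical exact ∑ A : L, ∑ B : L,
        if A ≤ B ∧ r A + a = k ∧ r B = k + 1 + b then (1 : ℤ) else 0 := by
  classical
  rw [npair, card_filter, Fintype.sum_prod_type]
  push_cast
  refine sum_congr rfl fun A _ => sum_congr rfl fun B _ => ?_
  congr

theorem npair_hi (r : L → ℕ) (k a b : ℕ) :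
    (npair r k a b : ℤ) = ∑ c : L, if r c + a = k then hi r k b c else 0 := by
  classical
  rw [npair_eq]
  refine sum_congr rfl fun A _ => ?_
  by_cases h : r A + a = k
  · rw [if_pos h, hi]
    refine sum_congr rfl fun B _ => ?_
    simp only [h, true_and]
  · simp [h]

theorem npair_lo (r : L → ℕ) (k a b : ℕ) :
    (npair r k a b : ℤ) = ∑ c : L, if r c = k + 1 + b then lo r k a c else 0 := by
  classical
  rw [npair_eq, sum_comm]
  refine sum_congr rfl fun B _ => ?_
  by_cases h : r B = k + 1 + b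
  · rw [if_pos h, lo]
    refine sum_congr rfl fun A _ => ?_
    simp only [h, and_true]
  · simp [h]

theorem total {r : L → ℕ} (hF : FL r) (k a b : ℕ) :
    ∑ c : L, (-1 : ℤ) ^ r c * (lo r k a c * hi r k b c) = 0 := by
  classical
  have h1 : ∀ c : L, (-1 : ℤ) ^ r c * (lo r k a c * hi r k b c) =
      ∑ A : L, ∑ B : L, if (r A + a = k ∧ r B = k + 1 + b) ∧ (A ≤ c ∧ c ≤ B) then
        (-1 : ℤ) ^ r c else 0 := fun c => by
    rw [lo, hi, sum_mul_sum, mul_sum]
    refine sum_congr rfl fun A _ => ?_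
    rw [mul_sum]
    refine sum_congr rfl fun B _ => ?_
    by_cases p1 : A ≤ c <;> by_cases p2 : r A + a = k <;> by_cases p3 : c ≤ B <;>
      by_cases p4 : r B = k + 1 + b <;> simp [p1, p2, p3, p4]
  simp only [h1]
  rw [sum_comm]
  refine sum_eq_zero fun A _ => ?_
  rw [sum_comm]
  refine sum_eq_zero fun B _ => ?_
  by_cases h : r A + a = k ∧ r B = k + 1 + b
  · simp only [h, true_and, and_self]
    by_cases hle : A ≤ B
    · have hlt : A < B := lt_of_le_of_ne hle fun e => by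
        have := h.1
        have := h.2
        subst e
        omega
      have := hF.euler A B hlt
      rw [itv, sum_filter] at this
      convert this
    · refine sum_eq_zero fun c _ => if_neg fun hc => hle (hc.1.trans hc.2)
  · simp [h]

theorem lo_eq {r : L → ℕ} {k : ℕ} {o : L} (hB : Basic r) (hK : KH r k) (ho : ∀ x, o ≤ x)
    (h0 : r o = 0) {a : ℕ} (ha : a ≤ k) {c : L} (hc : r c ≤ k) :
    lo r k a c = ((r c).choose (k - a) : ℕ) := by
  classical
  have h := hB.card_lev o c (k - a) (ho c) (hK.low o c (ho c) (by omega))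
  rw [h0, zero_add, Nat.sub_zero] at h
  rw [← h, lev, card_filter, lo]
  push_cast
  refine sum_congr rfl fun A _ => ?_
  have : r A + a = k ↔ r A = k - a := by omega
  simp only [ho A, true_and, this]

theorem hi_eq {r : L → ℕ} {k h : ℕ} {t : L} (hB : Basic r) (hK : KH r k) (ht : ∀ x, x ≤ t)
    (h1 : r t = k + h + 1) {b j : ℕ} (hj : j ≤ b) {c : L} (hc : r c = k + 1 + j) :
    hi r k b c = ((h - j).choose (b - j) : ℕ) := by
  classical
  have h2 := hB.card_lev c t (b - j) (ht c) (hK.up c t (ht c) (by omega))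
  rw [h1, hc, show k + h + 1 - (k + 1 + j) = h - j by omega,
    show k + 1 + j + (b - j) = k + 1 + b by omega] at h2
  rw [← h2, lev, card_filter, hi]
  push_cast
  refine sum_congr rfl fun B _ => ?_
  simp only [ht B, true_and]

theorem hi_zero {r : L → ℕ} {k b : ℕ} (hB : Basic r) {c : L} (hc : k + 1 + b < r c) :
    hi r k b c = 0 := by
  classical
  refine sum_eq_zero fun B _ => if_neg fun h => ?_
  have := hB.mono_le c B h.1
  omega

theorem point {r : L → ℕ} {k h : ℕ} {o t : L} (hB : Basic r) (hK : KH r k) (ho : ∀ x, o ≤ x)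
    (ht : ∀ x, x ≤ t) (h0 : r o = 0) (h1 : r t = k + h + 1) {a b : ℕ} (ha : a ≤ k) (c : L) :
    (-1 : ℤ) ^ k * ((-1 : ℤ) ^ r c * (lo r k a c * hi r k b c)) =
      (∑ i ∈ range (a + 1), (-1 : ℤ) ^ i * ((k - i).choose (a - i) : ℤ) *
        if r c + i = k then hi r k b c else 0) -
      ∑ j ∈ range (b + 1), (-1 : ℤ) ^ j * ((h - j).choose (b - j) : ℤ) *
        if r c = k + 1 + j then lo r k a c else 0 := by
  rcases le_or_gt (r c) k with hc | hc
  · have e2 : (∑ j ∈ range (b + 1), (-1 : ℤ) ^ j * ((h - j).choose (b - j) : ℤ) *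
        if r c = k + 1 + j then lo r k a c else 0) = 0 :=
      sum_eq_zero fun j _ => by rw [if_neg (by omega), mul_zero]
    rw [e2, sub_zero, lo_eq hB hK ho h0 ha hc]
    obtain ⟨i, hi'⟩ : ∃ i, r c + i = k := ⟨k - r c, by omega⟩
    rcases le_or_gt i a with hia | hia
    · rw [sum_eq_single_of_mem i (mem_range.2 (by omega))
        (fun j _ hj => by rw [if_neg (by omega), mul_zero]), if_pos hi']
      have e3 : (-1 : ℤ) ^ k * (-1) ^ r c = (-1) ^ i := by
        rw [← hi', pow_add, mul_right_comm, ← mul_pow]; simp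
      have e4 : (r c).choose (k - a) = (k - i).choose (a - i) := by
        rw [show r c = k - i by omega]
        exact Nat.choose_symm_of_eq_add (by omega)
      rw [e4, ← e3]; ring
    · rw [Nat.choose_eq_zero_of_lt (by omega : r c < k - a), sum_eq_zero]
      · simp
      · intro j hj
        have := mem_range.1 hj
        rw [if_neg (by omega), mul_zero]
  · have e2 : (∑ i ∈ range (a + 1), (-1 : ℤ) ^ i * ((k - i).choose (a - i) : ℤ) *
        if r c + i = k then hi r k b c else 0) = 0 :=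
      sum_eq_zero fun j _ => by rw [if_neg (by omega), mul_zero]
    rw [e2, zero_sub]
    obtain ⟨j, hj⟩ : ∃ j, r c = k + 1 + j := ⟨r c - (k + 1), by omega⟩
    rcases le_or_gt j b with hjb | hjb
    · rw [sum_eq_single_of_mem j (mem_range.2 (by omega))
        (fun i _ hi => by rw [if_neg (by omega), mul_zero]), if_pos hj, hi_eq hB hK ht h1 hjb hj]
      have e3 : (-1 : ℤ) ^ k * (-1) ^ r c = -(-1) ^ j := by
        rw [hj, pow_add, pow_add, ← mul_assoc, ← mul_assoc, ← mul_pow]; simp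
      rw [← mul_assoc, e3]; ring
    · rw [hi_zero hB (by omega), sum_eq_zero]
      · simp
      · intro i hi
        have := mem_range.1 hi
        rw [if_neg (by omega), mul_zero]

end CEul

theorem eulS : EulS := by
  intro L _ _ r k h o t hF hB hK ho ht h0 h1 a b ha _
  have h2 := CEul.total hF k a b
  have h3 : ∑ c : L, (-1 : ℤ) ^ k * ((-1 : ℤ) ^ r c * (CEul.lo r k a c * CEul.hi r k b c)) = 0 := by
    rw [← mul_sum, h2, mul_zero]
  simp only [CEul.point hB hK ho ht h0 h1 ha] at h3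
  rw [sum_sub_distrib, sub_eq_zero, sum_comm, sum_comm (s := univ)] at h3
  simp only [← mul_sum] at h3
  calc _ = ∑ i ∈ range (a + 1), (-1 : ℤ) ^ i * ((k - i).choose (a - i) : ℤ) *
        ∑ c : L, if r c + i = k then CEul.hi r k b c else 0 :=
        sum_congr rfl fun i _ => by rw [CEul.npair_hi]
    _ = _ := h3
    _ = _ := sum_congr rfl fun j _ => by rw [CEul.npair_lo]

end KHPoly
end
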